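import Pool.Agent.W182.KO.Strip

set_option autoImplicit false

/-! The exact formula for one entire function. -/

namespace Pool.Agent.R313.QM

open Complex Filter Topology MeasureTheory Set
open Pool.Agent.W182.KO

variable {ξ1 : ℝ} {ψ : ℝ → ℂ} {F : ℂ → ℂ} {A : ℕ → ℂ} {C : ℝ} {M : ℕ}

/-- decay of the integrand in the strip -/
lemma strip_bd (h : TF ξ1 ψ) (hC : 0 ≤ C) (hb : ∀ s : ℂ, 1 / 2 ≤ s.re → s.re ≤ 2 → ‖F s‖ ≤ C * (1 + |s.im|) ^ M)
    {L : ℝ} (hL : 1 ≤ L) : ∃ B : ℝ, 0 ≤ B ∧ ∀ s : ℂ, 1 / 2 ≤ s.re → s.re ≤ 2 →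
      ‖P ψ (L * (s - 1 / 2)) * F s‖ ≤ B / (1 + |s.im|) ^ 2 := by
  obtain ⟨CN, hCN, hP⟩ := P_bound h (M + 2)
  refine ⟨CN * Real.exp (|ξ1| * (L * 2)) * C, by positivity, fun s h1 h2 => ?_⟩
  have e1 : ((L : ℂ) * (s - 1 / 2)).re = L * (s.re - 1 / 2) := by
    rw [Complex.re_ofReal_mul]
    congr 1
    simp
  have e2 : ((L : ℂ) * (s - 1 / 2)).im = L * s.im := by
    rw [Complex.im_ofReal_mul]
    congr 1
    simp
  have h3 := hP (L * (s - 1 / 2)) (by rw [e1]; nlinarith)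
  rw [e1] at h3
  have h4 : |s.im| ≤ ‖(L : ℂ) * (s - 1 / 2)‖ := by
    refine le_trans ?_ (Complex.abs_im_le_norm _)
    rw [e2, abs_mul, abs_of_pos (by linarith : 0 < L)]
    have := abs_nonneg s.im
    nlinarith
  have h5 : (1 + |s.im|) ^ (M + 2) ≤ (1 + ‖(L : ℂ) * (s - 1 / 2)‖) ^ (M + 2) := by
    have := abs_nonneg s.im
    gcongr
  have h6 : ξ1 * (L * (s.re - 1 / 2)) ≤ |ξ1| * (L * 2) := by
    have a1 : 0 ≤ L * (s.re - 1 / 2) := by nlinarith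
    have a2 : L * (s.re - 1 / 2) ≤ L * 2 := by nlinarith
    calc ξ1 * (L * (s.re - 1 / 2)) ≤ |ξ1| * (L * (s.re - 1 / 2)) := mul_le_mul_of_nonneg_right (le_abs_self _) a1
      _ ≤ _ := mul_le_mul_of_nonneg_left a2 (abs_nonneg _)
  have hpos : 0 < 1 + |s.im| := by have := abs_nonneg s.im; linarith
  rw [norm_mul, le_div_iff₀ (by positivity)]
  calc ‖P ψ (L * (s - 1 / 2))‖ * ‖F s‖ * (1 + |s.im|) ^ 2
      ≤ ‖P ψ (L * (s - 1 / 2))‖ * (C * (1 + |s.im|) ^ M) * (1 + |s.im|) ^ 2 := by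
        gcongr
        exact hb s h1 h2
    _ = ‖P ψ (L * (s - 1 / 2))‖ * (1 + |s.im|) ^ (M + 2) * C := by ring
    _ ≤ ‖P ψ (L * (s - 1 / 2))‖ * (1 + ‖(L : ℂ) * (s - 1 / 2)‖) ^ (M + 2) * C := by gcongr
    _ ≤ CN * Real.exp (ξ1 * (L * (s.re - 1 / 2))) * C := by gcongr
    _ ≤ CN * Real.exp (|ξ1| * (L * 2)) * C := by gcongr

lemma cpow_two {n : ℕ} (hn : n ≠ 0) (y : ℝ) :
    (n : ℂ) ^ (-((2 : ℂ) + y * I)) = ((n : ℝ) ^ (-2 : ℝ) : ℝ) * exp (-(Real.log n * y) * I) := by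
  have hn0 : (0:ℝ) < n := by exact_mod_cast Nat.pos_of_ne_zero hn
  have hnc : (n : ℂ) ≠ 0 := by exact_mod_cast hn
  rw [Complex.cpow_def_of_ne_zero hnc, Real.rpow_def_of_pos hn0, Complex.ofReal_exp, ← Complex.exp_add]
  congr 1
  rw [← Complex.natCast_log]
  push_cast
  ring

/-- **the exact formula** -/
theorem exact (h : TF ξ1 ψ) (hC : 0 ≤ C)
    (hd : ∀ s : ℂ, 1 / 2 ≤ s.re → s.re ≤ 2 → DifferentiableAt ℂ F s)
    (hb : ∀ s : ℂ, 1 / 2 ≤ s.re → s.re ≤ 2 → ‖F s‖ ≤ C * (1 + |s.im|) ^ M)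
    (hA : Summable fun n : ℕ => ‖A n‖ * (n : ℝ) ^ (-2 : ℝ))
    (hs : ∀ y : ℝ, HasSum (fun n : ℕ => A n * (n : ℂ) ^ (-((2 : ℂ) + y * I))) (F (2 + y * I)))
    {L : ℝ} (hL : 1 ≤ L) :
    Integrable (fun y : ℝ => P ψ (L * y * I) * F (1 / 2 + y * I)) ∧
    ∫ y : ℝ, P ψ (L * y * I) * F (1 / 2 + y * I) =
      (2 * Real.pi / L : ℝ) * ∑' n : ℕ, A n / (Real.sqrt n : ℂ) * ψ (Real.log n / L) := by
  obtain ⟨B, hB0, hB⟩ := strip_bd h hC hb hL
  have hL0 : 0 < L := by linarith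
  have hPd := P_diff h
  obtain ⟨f, hf⟩ : ∃ f : ℂ → ℂ, ∀ s, f s = P ψ (L * (s - 1 / 2)) * F s := ⟨_, fun _ => rfl⟩
  have hfd : ∀ s : ℂ, 1 / 2 ≤ s.re → s.re ≤ 2 → DifferentiableAt ℂ f s := by
    intro s h1 h2
    have e1 : f = fun s => P ψ (L * (s - 1 / 2)) * F s := funext hf
    rw [e1]
    refine DifferentiableAt.mul ?_ (hd s h1 h2)
    exact (hPd _).comp s (by fun_prop)
  have hfb : ∀ s : ℂ, 1 / 2 ≤ s.re → s.re ≤ 2 → ‖f s‖ ≤ B / (1 + |s.im|) ^ 2 := by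
    intro s h1 h2
    rw [hf]
    exact hB s h1 h2
  have e0 : ∀ y : ℝ, P ψ (L * y * I) * F (1 / 2 + y * I) = f (((1 / 2 : ℝ) : ℂ) + y * I) := by
    intro y
    rw [hf]
    congr 2 <;> push_cast <;> ring
  have hline : Continuous fun y : ℝ => f (((1 / 2 : ℝ) : ℂ) + y * I) := by
    rw [continuous_iff_continuousAt]
    intro y
    have h3 := (hfd (((1 / 2 : ℝ) : ℂ) + y * I) (by simp) (by simp; norm_num)).continuousAt
    exact ContinuousAt.comp (f := fun y : ℝ => (((1 / 2 : ℝ) : ℂ) + y * I)) h3 (by fun_prop)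
  refine ⟨?_, ?_⟩
  · simp_rw [e0]
    refine (one_add_inv_sq_int.const_mul B).mono' hline.aestronglyMeasurable (Eventually.of_forall fun y => ?_)
    have := hfb (((1 / 2 : ℝ) : ℂ) + y * I) (by simp) (by simp; norm_num)
    have e : ((((1 / 2 : ℝ) : ℂ) + y * I)).im = y := by simp
    rw [e] at this
    rwa [← div_eq_mul_inv]
  simp_rw [e0]
  rw [strip_shift (f := f) (a := 1 / 2) (b := 2) (by norm_num) hB0 hfd hfb]
  -- the terms
  obtain ⟨g, hg⟩ : ∃ g : ℝ → ℂ, ∀ y, g y = P ψ ((L * (3 / 2) : ℝ) + L * y * I) := ⟨_, fun _ => rfl⟩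
  have hgc : Continuous g := by
    have e1 : g = fun y : ℝ => P ψ ((L * (3 / 2) : ℝ) + L * y * I) := funext hg
    rw [e1]
    exact hPd.continuous.comp (by fun_prop)
  have hgi : Integrable g := by
    obtain ⟨CN, hCN, hP⟩ := P_bound h 2
    refine (one_add_inv_sq_int.const_mul (CN * Real.exp (ξ1 * (L * (3 / 2))))).mono' hgc.aestronglyMeasurable
      (Eventually.of_forall fun y => ?_)
    have e1 : (((L * (3 / 2) : ℝ) : ℂ) + L * y * I).re = L * (3 / 2) := by simp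
    have e2 : (((L * (3 / 2) : ℝ) : ℂ) + L * y * I).im = L * y := by simp
    have h3 := hP (((L * (3 / 2) : ℝ) : ℂ) + L * y * I) (by rw [e1]; positivity)
    rw [e1] at h3
    have h4 : |y| ≤ ‖((L * (3 / 2) : ℝ) : ℂ) + L * y * I‖ := by
      refine le_trans ?_ (Complex.abs_im_le_norm _)
      rw [e2, abs_mul, abs_of_pos hL0]
      have := abs_nonneg y
      nlinarith
    rw [hg, ← div_eq_mul_inv, le_div_iff₀ (by positivity)]
    refine le_trans ?_ h3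
    gcongr
  obtain ⟨T, hT⟩ : ∃ T : ℕ → ℝ → ℂ, ∀ (n : ℕ) (y : ℝ), T n y = A n * (n : ℂ) ^ (-((2 : ℂ) + y * I)) * g y :=
    ⟨fun n y => _, fun _ _ => rfl⟩
  have hTn : ∀ n y, ‖T n y‖ = ‖A n‖ * (n : ℝ) ^ (-2 : ℝ) * ‖g y‖ := by
    intro n y
    rw [hT, norm_mul, norm_mul]
    rcases Nat.eq_zero_or_pos n with h0 | h0
    · subst h0
      have : (2 : ℂ) + y * I ≠ 0 := by
        intro hh
        have := congrArg Complex.re hh
        simp at this
      rw [Nat.cast_zero, Complex.zero_cpow (neg_ne_zero.mpr this), norm_zero, Nat.cast_zero,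
        Real.zero_rpow (by norm_num)]
    · rw [cpow_two h0.ne', norm_mul, Complex.norm_real, Real.norm_of_nonneg (by positivity)]
      have : ‖exp (-(Real.log n * y) * I)‖ = 1 := by
        rw [show (-(((Real.log n : ℝ) : ℂ) * (y : ℂ)) * I : ℂ) = ((-(Real.log n * y) : ℝ) : ℂ) * I by push_cast; ring]
        exact Complex.norm_exp_ofReal_mul_I _
      rw [this, mul_one]
  have hTc : ∀ n, AEStronglyMeasurable (T n) volume := by
    intro n
    have e1 : T n = fun y : ℝ => A n * (n : ℂ) ^ (-((2 : ℂ) + y * I)) * g y := funext (hT n)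
    rw [e1]
    rcases Nat.eq_zero_or_pos n with h0 | h0
    · subst h0
      have : ∀ y : ℝ, A 0 * ((0 : ℕ) : ℂ) ^ (-((2 : ℂ) + y * I)) * g y = 0 := by
        intro y
        have : (2 : ℂ) + y * I ≠ 0 := by
          intro hh
          have := congrArg Complex.re hh
          simp at this
        rw [Nat.cast_zero, Complex.zero_cpow (neg_ne_zero.mpr this)]
        ring
      simp_rw [this]
      exact aestronglyMeasurable_const
    · have : ∀ y : ℝ, A n * (n : ℂ) ^ (-((2 : ℂ) + y * I)) * g y =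
          A n * (((n : ℝ) ^ (-2 : ℝ) : ℝ) * exp (-(Real.log n * y) * I)) * g y := by
        intro y; rw [cpow_two h0.ne']
      simp_rw [this]
      exact (by fun_prop : Continuous fun y : ℝ => A n * (((n : ℝ) ^ (-2 : ℝ) : ℝ) * exp (-(Real.log n * y) * I)) * g y).aestronglyMeasurable
  have hTi : ∀ n, Integrable (T n) := by
    intro n
    refine (hgi.norm.const_mul (‖A n‖ * (n : ℝ) ^ (-2 : ℝ))).mono' (hTc n) (Eventually.of_forall fun y => ?_)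
    rw [hTn]
  have hTs : Summable fun n => ∫ y, ‖T n y‖ := by
    have : ∀ n, ∫ y, ‖T n y‖ = ‖A n‖ * (n : ℝ) ^ (-2 : ℝ) * ∫ y, ‖g y‖ := by
      intro n
      rw [← integral_const_mul]
      exact integral_congr_ae (Eventually.of_forall fun y => hTn n y)
    simp_rw [this]
    exact hA.mul_right _
  have hsum := hasSum_integral_of_summable_integral_norm hTi hTs
  have e1 : (∫ y : ℝ, f (((2 : ℝ) : ℂ) + y * I)) = ∫ y, ∑' n, T n y := by
    refine integral_congr_ae (Eventually.of_forall fun y => ?_)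
    show f (((2 : ℝ) : ℂ) + y * I) = ∑' n, T n y
    have h1 := (hs y).mul_right (g y)
    have h2 : (fun n : ℕ => A n * (n : ℂ) ^ (-((2 : ℂ) + y * I)) * g y) = fun n => T n y := by
      funext n; rw [hT]
    rw [h2] at h1
    rw [h1.tsum_eq, hf, hg, mul_comm]
    congr 2 <;> push_cast <;> ring
  rw [e1, ← hsum.tsum_eq, ← tsum_mul_left]
  refine tsum_congr fun n => ?_
  rcases Nat.eq_zero_or_pos n with h0 | h0
  · subst h0
    have : ∀ y : ℝ, T 0 y = 0 := by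
      intro y
      rw [← norm_eq_zero, hTn, Nat.cast_zero, Real.zero_rpow (by norm_num)]
      ring
    simp_rw [this]
    simp
  have hn0 : (0:ℝ) < n := by exact_mod_cast h0
  have e2 : ∀ y : ℝ, T n y = (A n * ((n : ℝ) ^ (-2 : ℝ) : ℝ)) *
      (P ψ ((L * (3 / 2) : ℝ) + L * y * I) * exp (-(((Real.log n / L : ℝ) : ℂ) * L * y) * I)) := by
    intro y
    have hLc : (L : ℂ) ≠ 0 := by exact_mod_cast hL0.ne'
    have e3 : (((Real.log n / L : ℝ) : ℂ) * L * y) = (Real.log n : ℂ) * y := by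
      push_cast
      field_simp
    rw [hT, hg, cpow_two h0.ne', e3]
    ring
  simp_rw [e2]
  rw [integral_const_mul, P_inv h (by positivity : 0 ≤ L * (3 / 2)) hL0 (Real.log n / L)]
  have e4 : exp (((Real.log n / L : ℝ) : ℂ) * ((L * (3 / 2) : ℝ) : ℂ)) = ((n : ℝ) ^ (3 / 2 : ℝ) : ℝ) := by
    rw [← Complex.ofReal_mul, ← Complex.ofReal_exp, Real.rpow_def_of_pos hn0]
    congr 2
    field_simp
  rw [e4]
  have e5 : (((n : ℝ) ^ (-2 : ℝ) : ℝ) : ℂ) * (((n : ℝ) ^ (3 / 2 : ℝ) : ℝ) : ℂ) = ((Real.sqrt n : ℝ) : ℂ)⁻¹ := by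
    rw [← Complex.ofReal_mul, ← Complex.ofReal_inv, ← Real.rpow_add hn0, Real.sqrt_eq_rpow, ← Real.rpow_neg hn0.le]
    norm_num
  calc A n * (((n : ℝ) ^ (-2 : ℝ) : ℝ) : ℂ) * (((2 * Real.pi / L : ℝ) : ℂ) * (ψ (Real.log n / L) * (((n : ℝ) ^ (3 / 2 : ℝ) : ℝ) : ℂ)))
      = ((2 * Real.pi / L : ℝ) : ℂ) * (A n * ((((n : ℝ) ^ (-2 : ℝ) : ℝ) : ℂ) * (((n : ℝ) ^ (3 / 2 : ℝ) : ℝ) : ℂ)) * ψ (Real.log n / L)) := by ring
    _ = _ := by rw [e5, div_eq_mul_inv (A n)]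

end Pool.Agent.R313.QM
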