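import Pool.Agent.W182.KO.Diag

set_option autoImplicit false

/-! The Dirichlet series of the powers of an L-function. -/

namespace Pool.Agent.R313.QM

open Complex Filter Topology MeasureTheory Finset
open Pool.Agent.W182.KO (dk dk_succ)

variable {q : ℕ}

/-- the coefficients of the `k`-th power -/
noncomputable def ac (χ : DirichletCharacter ℂ q) (k : ℕ) (n : ℕ) : ℂ := (dk k n : ℂ) * χ (n : ZMod q)

lemma ac_conv (χ : DirichletCharacter ℂ q) (k : ℕ) :
    ac χ (k + 1) = LSeries.convolution (fun n : ℕ => χ (n : ZMod q)) (ac χ k) := by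
  funext n
  rw [LSeries.convolution_def]
  show ac χ (k + 1) n = ∑ p ∈ n.divisorsAntidiagonal, χ ((p.1 : ℕ) : ZMod q) * ac χ k p.2
  unfold ac
  have h1 : ((dk (k + 1) n : ℕ) : ℂ) = ∑ p ∈ n.divisorsAntidiagonal, (dk k p.2 : ℂ) := by
    have h := dk_succ k n
    have h2 := congrArg (fun x : ℝ => (x : ℂ)) h
    push_cast at h2
    exact h2
  rw [h1, sum_mul]
  refine sum_congr rfl fun p hp => ?_
  have h2 := (Nat.mem_divisorsAntidiagonal.mp hp).1
  rw [← h2, Nat.cast_mul, map_mul]
  ring

lemma ac_zero (χ : DirichletCharacter ℂ q) : ac χ 0 = fun n : ℕ => if n = 1 then 1 else 0 := by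
  funext n
  unfold ac dk
  by_cases h : n = 1
  · subst h
    rw [if_pos rfl, Nat.finMulAntidiag_one, card_singleton, Nat.cast_one, Nat.cast_one, map_one, mul_one]
  · rw [if_neg h, Nat.finMulAntidiag_zero_left h]
    simp

lemma ac_LSeries [NeZero q] (χ : DirichletCharacter ℂ q) (k : ℕ) {s : ℂ} (hs : 1 < s.re) :
    LSeriesSummable (ac χ k) s ∧ LSeries (ac χ k) s = LSeries (fun n : ℕ => χ (n : ZMod q)) s ^ k := by
  have hχ : LSeriesSummable (fun n : ℕ => χ (n : ZMod q)) s := ZMod.LSeriesSummable_of_one_lt_re _ hs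
  induction k with
  | zero =>
    rw [ac_zero, pow_zero]
    have e1 : (fun n : ℕ => if n = 1 then (1:ℂ) else 0) = LSeries.delta := by
      funext n
      unfold LSeries.delta
      rfl
    rw [e1]
    refine ⟨?_, ?_⟩
    · unfold LSeriesSummable
      refine summable_of_ne_finset_zero (s := {1}) fun n hn => ?_
      rw [Finset.mem_singleton] at hn
      rw [LSeries.term_def]
      split_ifs with h0
      · rfl
      · unfold LSeries.delta
        rw [if_neg hn, zero_div]
    · exact congrFun LSeries_delta s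
  | succ k ih =>
    rw [ac_conv]
    refine ⟨hχ.convolution ih.1, ?_⟩
    rw [LSeries_convolution' hχ ih.1, ih.2, pow_succ]
    ring

end Pool.Agent.R313.QM
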