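import Pool.Agent.H379R2.SW1
import Pool.Agent.R313.QM.A
import Pool.Agent.R313.QM.B

set_option autoImplicit false

/-! Growth of Dirichlet L-functions in the strip and the exact formula for their powers. -/

namespace Pool.Agent.R313.QM

open Complex Filter Topology MeasureTheory Finset
open Pool.Agent.W182.KO (dk P TF)

variable {q : ℕ} [NeZero q]

lemma LF_bd (χ : DirichletCharacter ℂ q) (hχ : χ ≠ 1) {s : ℂ} (hs : 1 / 2 ≤ s.re) :
    ‖DirichletCharacter.LFunction χ s‖ ≤ 13 * (q * (‖s‖ + 3)) := by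
  have h0 : ∑ j : ZMod q, χ j = 0 := MulChar.sum_eq_zero_of_ne_one hχ
  have hΦ : ∀ j : ZMod q, ‖χ j‖ ≤ 1 := fun j => χ.norm_le_one j
  have hd := ZMod.differentiable_LFunction_of_sum_zero h0
  have hq : (1:ℝ) ≤ q := by exact_mod_cast NeZero.one_le
  have hN : 1 ≤ (q:ℝ) * (‖s‖ + 3) := by nlinarith [norm_nonneg s]
  -- points on the right
  have key : ∀ e : ℝ, 0 < e → e ≤ 1 / 4 → ‖ZMod.LFunction (fun j => χ j) (s + (e : ℂ))‖ ≤ 13 * (q * (‖s‖ + 3)) := by
    intro e he he4
    have h1 := Pool.Agent.H379R2.SW.LFunction_norm_le (fun j => χ j) hΦ h0 (s := s + (e : ℂ)) (η := 1 / 2 - e) (by linarith) (by linarith)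
      (by simp; linarith) (N := q * (‖s‖ + 3)) (by
        have h2 : ‖s + (e : ℂ)‖ ≤ ‖s‖ + 1 := by
          refine (norm_add_le _ _).trans ?_
          rw [Complex.norm_real, Real.norm_of_nonneg he.le]
          linarith
        nlinarith)
    refine h1.trans ?_
    have h2 : ((q:ℝ) * (‖s‖ + 3)) ^ (2 * (1 / 2 - e)) ≤ (q * (‖s‖ + 3)) ^ (1:ℝ) :=
      Real.rpow_le_rpow_of_exponent_le hN (by linarith)
    rw [Real.rpow_one] at h2
    have h3 : 1 / (1 / 2 - e) ≤ 4 := by
      rw [div_le_iff₀ (by linarith)]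
      linarith
    gcongr
    linarith
  have hlim : Tendsto (fun e : ℝ => ‖ZMod.LFunction (fun j => χ j) (s + (e : ℂ))‖) (𝓝[>] 0)
      (𝓝 ‖ZMod.LFunction (fun j => χ j) s‖) := by
    have h1 : Continuous fun e : ℝ => ‖ZMod.LFunction (fun j => χ j) (s + (e : ℂ))‖ :=
      (hd.continuous.comp (by fun_prop)).norm
    have h2 := (h1.tendsto 0).mono_left (nhdsWithin_le_nhds (s := Set.Ioi 0))
    simpa using h2
  refine le_of_tendsto hlim ?_
  filter_upwards [Ioc_mem_nhdsGT (show (0:ℝ) < 1 / 4 by norm_num)] with e he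
  exact key e he.1 he.2

/-- the exact formula for the powers of an L-function -/
theorem exact_pow {ξ1 : ℝ} {ψ : ℝ → ℂ} (h : TF ξ1 ψ) (χ : DirichletCharacter ℂ q) (hχ : χ ≠ 1) (k : ℕ) {L : ℝ} (hL : 1 ≤ L) :
    Integrable (fun y : ℝ => P ψ (L * y * I) * DirichletCharacter.LFunction χ (1 / 2 + y * I) ^ k) ∧
    ∫ y : ℝ, P ψ (L * y * I) * DirichletCharacter.LFunction χ (1 / 2 + y * I) ^ k =
      (2 * Real.pi / L : ℝ) * ∑' n : ℕ, ac χ k n / (Real.sqrt n : ℂ) * ψ (Real.log n / L) := by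
  have h0 : ∑ j : ZMod q, χ j = 0 := MulChar.sum_eq_zero_of_ne_one hχ
  have hd : Differentiable ℂ (DirichletCharacter.LFunction χ) := DirichletCharacter.differentiable_LFunction hχ
  have hq : (1:ℝ) ≤ q := by exact_mod_cast NeZero.one_le
  refine exact (F := fun s => DirichletCharacter.LFunction χ s ^ k) (A := ac χ k) (C := (13 * (q * 6)) ^ k) (M := k) h (by positivity)
    (fun s _ _ => (hd.pow k) s) (fun s h1 h2 => ?_) ?_ (fun y => ?_) hL
  · rw [norm_pow, ← mul_pow]
    refine pow_le_pow_left₀ (norm_nonneg _) ?_ k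
    refine (LF_bd χ hχ h1).trans ?_
    have h3 : ‖s‖ ≤ 2 + |s.im| := by
      refine (Complex.norm_le_abs_re_add_abs_im s).trans ?_
      rw [abs_of_nonneg (by linarith)]
      linarith
    have h4 := abs_nonneg s.im
    have h5 : ‖s‖ + 3 ≤ 6 * (1 + |s.im|) := by linarith
    calc 13 * ((q:ℝ) * (‖s‖ + 3)) ≤ 13 * (q * (6 * (1 + |s.im|))) := by gcongr
      _ = _ := by ring
  · have h1 := (ac_LSeries χ k (s := 2) (by norm_num)).1
    have h2 := h1.norm
    refine h2.congr fun n => ?_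
    rw [LSeries.norm_term_eq]
    split_ifs with hn
    · subst hn
      simp
    · rw [Complex.re_ofNat, div_eq_mul_inv, Real.rpow_neg (Nat.cast_nonneg n)]
  · have hre : 1 < ((2:ℂ) + y * I).re := by simp
    obtain ⟨h1, h2⟩ := ac_LSeries χ k hre
    have h3 := h1.hasSum
    have e1 : (fun n : ℕ => ac χ k n * (n : ℂ) ^ (-((2 : ℂ) + y * I))) = LSeries.term (ac χ k) (2 + y * I) := by
      funext n
      rcases Nat.eq_zero_or_pos n with h0 | h0
      · subst h0
        have : (2 : ℂ) + y * I ≠ 0 := by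
          intro hh
          have := congrArg Complex.re hh
          simp at this
        rw [LSeries.term_zero, Nat.cast_zero, Complex.zero_cpow (neg_ne_zero.mpr this), mul_zero]
      · rw [LSeries.term_of_ne_zero h0.ne', Complex.cpow_neg, div_eq_mul_inv]
    have e2 : DirichletCharacter.LFunction χ (2 + y * I) = LSeries (fun n : ℕ => χ (n : ZMod q)) (2 + y * I) :=
      DirichletCharacter.LFunction_eq_LSeries χ hre
    rw [e1, e2, ← h2]
    exact h3

end Pool.Agent.R313.QM
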