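import Pool.Agent.H66R2.RZ_FI1

set_option autoImplicit false

/-! Sums over squarefree numbers. -/

namespace Pool.Agent.R313.QM

open Finset
open Pool.Agent.H66R2.RZFI1 (mu mu_abs mu_sq_eq)

/-- the sum of `h` over the squarefree numbers below `N`, for `h` quasi-invariant under squares with bounded
partial sums -/
theorem sqf_bound {h : ℕ → ℝ} {c : ℕ → ℝ} {B : ℝ} (hB : 1 ≤ B) (h0 : h 0 = 0) (h1 : ∀ e, |h e| ≤ 1) (hc : ∀ b, |c b| ≤ 1)
    (hbe : ∀ b e, b ≠ 0 → h (b ^ 2 * e) = c b * h e) (hs : ∀ M, |∑ e ∈ range M, h e| ≤ B) (N : ℕ) :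
    |∑ d ∈ (range N).filter Squarefree, h d| ≤ 5 * Real.sqrt (B * N) := by
  classical
  rcases Nat.eq_zero_or_pos N with hN | hN
  · subst hN
    simp
  have hN0 : (0:ℝ) < N := by exact_mod_cast hN
  have hB0 : 0 < B := by linarith
  obtain ⟨K, hK⟩ : ∃ K, K = Nat.sqrt N := ⟨_, rfl⟩
  -- the sums over multiples of squares
  obtain ⟨S, hS⟩ : ∃ S : ℕ → ℝ, ∀ b, S b = ∑ d ∈ range N, (if b ^ 2 ∣ d then h d else 0) := ⟨_, fun _ => rfl⟩
  have e1 : ∑ d ∈ (range N).filter Squarefree, h d = ∑ b ∈ Icc 1 K, mu b * S b := by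
    have e2 : ∀ d ∈ range N, (if Squarefree d then h d else 0) = ∑ b ∈ Icc 1 K, mu b * (if b ^ 2 ∣ d then h d else 0) := by
      intro d hd
      rw [mem_range] at hd
      rcases Nat.eq_zero_or_pos d with hd0 | hd0
      · subst hd0
        rw [h0]
        simp
      · have h2 := mu_sq_eq d hd0.ne'
        rw [tsum_eq_sum (s := Icc 1 K)] at h2
        · have h3 : (if Squarefree d then h d else 0) = (if Squarefree d then (1 : ℝ) else 0) * h d := by
            split_ifs <;> simp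
          rw [h3, h2, sum_mul]
          refine sum_congr rfl fun b _ => ?_
          by_cases hb : b ^ 2 ∣ d
          · rw [if_pos hb, if_pos hb]
          · rw [if_neg hb, if_neg hb, zero_mul, mul_zero]
        · intro b hb
          rw [mem_Icc, not_and_or, not_le, not_le] at hb
          rw [if_neg]
          intro hdvd
          rcases hb with hb | hb
          · have : b = 0 := by omega
            subst this
            rw [zero_pow two_ne_zero, zero_dvd_iff] at hdvd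
            omega
          · have h4 := Nat.le_of_dvd hd0 hdvd
            have h5 : N < b ^ 2 := by
              rw [sq]
              exact Nat.sqrt_lt.1 (by omega)
            omega
    rw [sum_filter, sum_congr rfl e2, sum_comm]
    refine sum_congr rfl fun b _ => ?_
    rw [hS, mul_sum]
  have e2 : ∀ b, b ≠ 0 → S b = c b * ∑ e ∈ range ((N + b ^ 2 - 1) / b ^ 2), h e := by
    intro b hb
    have hb2 : 0 < b ^ 2 := by positivity
    rw [hS, ← sum_filter, mul_sum]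
    have h3 : (range N).filter (fun d => b ^ 2 ∣ d) = (range ((N + b ^ 2 - 1) / b ^ 2)).image (fun m => b ^ 2 * m) := by
      ext d
      rw [mem_filter, mem_range, mem_image]
      constructor
      · rintro ⟨q1, m, rfl⟩
        refine ⟨m, ?_, rfl⟩
        rw [mem_range, Nat.lt_iff_add_one_le, Nat.le_div_iff_mul_le hb2]
        have : (m + 1) * b ^ 2 = b ^ 2 * m + b ^ 2 := by ring
        omega
      · rintro ⟨m, hm, rfl⟩
        rw [mem_range, Nat.lt_iff_add_one_le, Nat.le_div_iff_mul_le hb2] at hm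
        have : (m + 1) * b ^ 2 = b ^ 2 * m + b ^ 2 := by ring
        exact ⟨by omega, m, rfl⟩
    rw [h3, sum_image]
    · exact sum_congr rfl fun m _ => hbe b m hb
    · intro a _ c _ hac
      exact Nat.eq_of_mul_eq_mul_left hb2 hac
  have b1 : ∀ b, b ≠ 0 → |mu b * S b| ≤ B := by
    intro b hb
    rw [e2 b hb, abs_mul, abs_mul]
    have a1 := mu_abs b
    have a2 := hc b
    have a3 := hs ((N + b ^ 2 - 1) / b ^ 2)
    calc |mu b| * (|c b| * |∑ e ∈ range ((N + b ^ 2 - 1) / b ^ 2), h e|) ≤ 1 * (1 * B) := by gcongr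
      _ = B := by ring
  have b2 : ∀ b ∈ Icc 1 K, |mu b * S b| ≤ 2 * N * ((b : ℝ) ^ 2)⁻¹ := by
    intro b hb
    rw [mem_Icc] at hb
    have hb0 : b ≠ 0 := by omega
    have hb2 : 0 < b ^ 2 := by positivity
    have hbN : b ^ 2 ≤ N := by
      rw [hK] at hb
      calc b ^ 2 ≤ (Nat.sqrt N) ^ 2 := Nat.pow_le_pow_left hb.2 2
        _ ≤ N := Nat.sqrt_le' N
    rw [e2 b hb0, abs_mul, abs_mul]
    have a1 := mu_abs b
    have a2 := hc b
    have a3 : |∑ e ∈ range ((N + b ^ 2 - 1) / b ^ 2), h e| ≤ (((N + b ^ 2 - 1) / b ^ 2 : ℕ) : ℝ) := by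
      refine (abs_sum_le_sum_abs _ _).trans ((sum_le_sum fun e _ => h1 e).trans ?_)
      simp
    have a4 : (((N + b ^ 2 - 1) / b ^ 2 : ℕ) : ℝ) ≤ 2 * N * ((b : ℝ) ^ 2)⁻¹ := by
      have hbr : (0:ℝ) < (b : ℝ) ^ 2 := by exact_mod_cast hb2
      rw [← div_eq_mul_inv, le_div_iff₀ hbr]
      have h5 : ((N + b ^ 2 - 1) / b ^ 2) * b ^ 2 ≤ N + b ^ 2 - 1 := Nat.div_mul_le_self _ _
      have h6 : ((N + b ^ 2 - 1) / b ^ 2) * b ^ 2 ≤ 2 * N := by omega
      exact_mod_cast h6
    calc |mu b| * (|c b| * |∑ e ∈ range ((N + b ^ 2 - 1) / b ^ 2), h e|) ≤ 1 * (1 * (2 * N * ((b : ℝ) ^ 2)⁻¹)) := by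
          gcongr
          exact a3.trans a4
      _ = _ := by ring
  -- splitting
  obtain ⟨R, hR⟩ : ∃ R : ℕ, R = ⌊Real.sqrt (N / B)⌋₊ := ⟨_, rfl⟩
  have hsplit : ∑ b ∈ Icc 1 K, |mu b * S b| ≤ ∑ b ∈ Icc 1 R, B + ∑ b ∈ Ioo R (K + 1), 2 * N * ((b : ℝ) ^ 2)⁻¹ := by
    have hsub : Icc 1 K ⊆ Icc 1 R ∪ Ioo R (K + 1) := by
      intro b hb
      rw [mem_Icc] at hb
      rw [mem_union, mem_Icc, mem_Ioo]
      omega
    have h2 : ∑ b ∈ Icc 1 K, |mu b * S b| ≤ ∑ b ∈ Icc 1 K, (if b ≤ R then B else 2 * N * ((b : ℝ) ^ 2)⁻¹) := by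
      refine sum_le_sum fun b hb => ?_
      split_ifs with hbR
      · exact b1 b (by rw [mem_Icc] at hb; omega)
      · exact b2 b hb
    refine h2.trans ?_
    have h3 : ∑ b ∈ Icc 1 K, (if b ≤ R then B else 2 * N * ((b : ℝ) ^ 2)⁻¹) ≤
        ∑ b ∈ Icc 1 R ∪ Ioo R (K + 1), (if b ≤ R then B else 2 * N * ((b : ℝ) ^ 2)⁻¹) := by
      refine sum_le_sum_of_subset_of_nonneg hsub fun b _ _ => ?_
      split_ifs <;> positivity
    refine h3.trans (le_of_eq ?_)
    rw [sum_union]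
    · congr 1
      · refine sum_congr rfl fun b hb => ?_
        rw [mem_Icc] at hb
        rw [if_pos hb.2]
      · refine sum_congr rfl fun b hb => ?_
        rw [mem_Ioo] at hb
        rw [if_neg (by omega)]
    · rw [disjoint_left]
      intro b hb hb'
      rw [mem_Icc] at hb
      rw [mem_Ioo] at hb'
      omega
  have hs0 : 0 ≤ Real.sqrt (N / B) := Real.sqrt_nonneg _
  have hR1 : (R : ℝ) ≤ Real.sqrt (N / B) := by rw [hR]; exact Nat.floor_le hs0
  have hR2 : Real.sqrt (N / B) ≤ (R : ℝ) + 1 := by rw [hR]; exact (Nat.lt_floor_add_one _).le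
  have hsq : Real.sqrt (N / B) * B = Real.sqrt (B * N) := by
    have e3 : B * N = (N / B) * B ^ 2 := by field_simp
    rw [e3, Real.sqrt_mul (by positivity), Real.sqrt_sq hB0.le]
  have hpos : 0 < Real.sqrt (N / B) := Real.sqrt_pos.mpr (by positivity)
  have p1 : ∑ b ∈ Icc 1 R, B ≤ Real.sqrt (B * N) := by
    rw [sum_const, Nat.card_Icc, nsmul_eq_mul, ← hsq]
    have : ((R + 1 - 1 : ℕ) : ℝ) = R := by simp
    rw [this]
    exact mul_le_mul_of_nonneg_right hR1 hB0.le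
  have p2 : ∑ b ∈ Ioo R (K + 1), 2 * N * ((b : ℝ) ^ 2)⁻¹ ≤ 4 * Real.sqrt (B * N) := by
    rw [← mul_sum]
    have h4 := sum_Ioo_inv_sq_le (α := ℝ) R (K + 1)
    have h5 : 2 / ((R : ℝ) + 1) ≤ 2 / Real.sqrt (N / B) := div_le_div_of_nonneg_left (by norm_num) hpos hR2
    have h6 : (N : ℝ) = Real.sqrt (N / B) * Real.sqrt (B * N) := by
      rw [← hsq, ← mul_assoc, Real.mul_self_sqrt (by positivity)]
      field_simp
    calc 2 * (N : ℝ) * ∑ b ∈ Ioo R (K + 1), ((b : ℝ) ^ 2)⁻¹ ≤ 2 * N * (2 / Real.sqrt (N / B)) := by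
          gcongr
          exact h4.trans h5
      _ = 4 * (N / Real.sqrt (N / B)) := by ring
      _ = 4 * Real.sqrt (B * N) := by
          congr 1
          rw [div_eq_iff hpos.ne', mul_comm]
          exact h6
  rw [e1]
  refine (abs_sum_le_sum_abs _ _).trans (hsplit.trans ?_)
  linarith

end Pool.Agent.R313.QM
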