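import Pool.Agent.R313.QM.D
import Pool.Agent.H38R2.CG.PV
import Pool.Agent.H379R2.W.JChar

set_option autoImplicit false
set_option linter.all false

/-! Character sums over squarefree numbers in residue classes modulo 8. -/

namespace Pool.Agent.R313.QM

open Finset
open Pool.Agent.H379R2.W (jchar jchar_apply)

lemma range_le {n : ℕ} (χ : DirichletCharacter ℂ n) (hn : 2 ≤ n) (hχ : χ ≠ 1) (N : ℕ) :
    ‖∑ i ∈ range N, χ (i : ZMod n)‖ ≤ 4 * √(n : ℝ) * (1 + Real.log n) := by
  have h0 : χ (0 : ZMod n) = 0 := by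
    apply MulChar.map_nonunit
    intro h
    haveI : Nontrivial (ZMod n) := by
      have : Fact (1 < n) := ⟨by omega⟩
      infer_instance
    exact not_isUnit_zero h
  rcases Nat.eq_zero_or_pos N with hN | hN
  · subst hN
    have : (1:ℝ) ≤ n := by exact_mod_cast (by omega : 1 ≤ n)
    have := Real.log_nonneg this
    rw [sum_range_zero, norm_zero]
    positivity
  · obtain ⟨M, rfl⟩ : ∃ M, N = M + 1 := ⟨N - 1, by omega⟩
    have e1 : ∑ i ∈ range (M + 1), χ (i : ZMod n) = ∑ i ∈ Icc 1 M, χ (i : ZMod n) := by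
      rw [range_eq_Ico, ← add_zero (∑ i ∈ Icc 1 M, χ (i : ZMod n)), ← h0,
        Finset.sum_eq_sum_Ico_succ_bot (by omega)]
      rw [Nat.cast_zero, add_comm]
      congr 1
    rw [e1]
    exact Pool.Agent.H38R2.CG.PVh.sum_le n χ hn hχ M

lemma prog_le {n : ℕ} (χ : DirichletCharacter ℂ n) (hn : 2 ≤ n) (ho : Odd n) (hχ : χ ≠ 1) (a m : ℕ) :
    ‖∑ j ∈ range m, χ ((8 * j + a : ℕ) : ZMod n)‖ ≤ 8 * √(n : ℝ) * (1 + Real.log n) := by
  haveI : NeZero n := ⟨by omega⟩
  have hu : IsUnit ((8 : ℕ) : ZMod n) := by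
    rw [ZMod.isUnit_iff_coprime]
    have h2 : Nat.Coprime 2 n := (Nat.coprime_two_left.mpr ho)
    have : (8:ℕ) = 2 ^ 3 := by norm_num
    rw [this]
    exact Nat.Coprime.pow_left 3 h2
  obtain ⟨u, hu'⟩ := hu
  obtain ⟨c, hc⟩ : ∃ c : ℕ, (c : ZMod n) = (a : ZMod n) * ((u⁻¹ : (ZMod n)ˣ) : ZMod n) :=
    ⟨((a : ZMod n) * ((u⁻¹ : (ZMod n)ˣ) : ZMod n)).val, ZMod.natCast_zmod_val _⟩
  have e1 : ∀ j : ℕ, χ ((8 * j + a : ℕ) : ZMod n) = χ ((8 : ℕ) : ZMod n) * χ ((c + j : ℕ) : ZMod n) := by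
    intro j
    rw [← map_mul]
    congr 1
    push_cast
    rw [hc]
    have h8 : (8 : ZMod n) = (u : ZMod n) := by rw [hu']; norm_num
    rw [h8, mul_add, mul_comm (a : ZMod n), ← mul_assoc, Units.mul_inv, one_mul]
    ring
  have e2 : ∑ j ∈ range m, χ ((8 * j + a : ℕ) : ZMod n) = χ ((8 : ℕ) : ZMod n) *
      (∑ i ∈ range (c + m), χ (i : ZMod n) - ∑ i ∈ range c, χ (i : ZMod n)) := by
    rw [sum_congr rfl fun j _ => e1 j, ← mul_sum, sum_range_add, add_sub_cancel_left]
  rw [e2, norm_mul]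
  have h1 := χ.norm_le_one ((8 : ℕ) : ZMod n)
  have h2 := range_le χ hn hχ (c + m)
  have h3 := range_le χ hn hχ c
  calc _ ≤ 1 * (4 * √(n : ℝ) * (1 + Real.log n) + 4 * √(n : ℝ) * (1 + Real.log n)) := by
        refine mul_le_mul h1 ((norm_sub_le _ _).trans (add_le_add h2 h3)) (norm_nonneg _) zero_le_one
    _ = _ := by ring

/-- an odd number which is not a square has a nontrivial Jacobi symbol -/
lemma exists_neg {n : ℕ} (ho : Odd n) (hsq : ¬ IsSquare n) : ∃ a : ℕ, jacobiSym (a : ℤ) n = -1 := by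
  obtain ⟨s, t, hst, hs⟩ := Nat.sq_mul_squarefree n
  have hn0 : n ≠ 0 := ho.pos.ne'
  have hs1 : s ≠ 1 := by
    rintro rfl
    exact hsq ⟨t, by rw [← hst]; ring⟩
  have hos : Odd s := by
    rw [← hst] at ho
    exact (Nat.odd_mul.mp ho).2
  have hs0 : s ≠ 0 := hs.ne_zero
  obtain ⟨ℓ, hℓ, hℓs⟩ := Nat.exists_prime_and_dvd hs1
  have hℓ2 : ℓ ≠ 2 := by
    rintro rfl
    exact absurd hos (by rw [Nat.not_odd_iff_even]; exact even_iff_two_dvd.mpr hℓs)
  have hFact := Fact.mk hℓ
  -- n = ℓ^v r with v odd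
  obtain ⟨v, r, hℓr, hn⟩ := Nat.exists_eq_pow_mul_and_not_dvd hn0 ℓ hℓ.ne_one
  have hr0 : r ≠ 0 := by
    rintro rfl
    exact hℓr (dvd_zero _)
  have hv : Odd v := by
    have h1 : n.factorization ℓ = v := by
      rw [hn, Nat.factorization_mul (pow_ne_zero _ hℓ.ne_zero) hr0]
      simp [hℓ.factorization_pow, Nat.factorization_eq_zero_of_not_dvd hℓr]
    have h2 : n.factorization ℓ = 2 * t.factorization ℓ + s.factorization ℓ := by
      have ht0 : t ≠ 0 := by
        rintro rfl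
        apply hn0
        rw [← hst]
        simp
      rw [← hst, Nat.factorization_mul (pow_ne_zero _ ht0) hs0, Nat.factorization_pow]
      simp
    have h3 : s.factorization ℓ = 1 := by
      have h4 := (Nat.squarefree_iff_factorization_le_one hs0).mp hs ℓ
      have h5 : 0 < s.factorization ℓ := hℓ.factorization_pos_of_dvd hs0 hℓs
      omega
    rw [← h1, h2, h3]
    exact ⟨_, rfl⟩
  obtain ⟨c, hc⟩ : ∃ c : ZMod ℓ, quadraticChar (ZMod ℓ) c = -1 := by
    apply quadraticChar_exists_neg_one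
    rw [ZMod.ringChar_zmod_n]
    exact hℓ2
  have hco : Nat.Coprime ℓ r := (Nat.Prime.coprime_iff_not_dvd hℓ).mpr hℓr
  obtain ⟨a, ha1, ha2⟩ := Nat.chineseRemainder hco c.val 1
  refine ⟨a, ?_⟩
  haveI : NeZero ℓ := ⟨hℓ.ne_zero⟩
  haveI : NeZero r := ⟨hr0⟩
  haveI : NeZero (ℓ ^ v) := ⟨pow_ne_zero _ hℓ.ne_zero⟩
  have e1 : jacobiSym (a : ℤ) ℓ = -1 := by
    rw [← jacobiSym.legendreSym.to_jacobiSym, legendreSym]
    push_cast
    have : (a : ZMod ℓ) = c := by
      have h3 := (ZMod.natCast_eq_natCast_iff a c.val ℓ).mpr ha1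
      rw [h3, ZMod.natCast_zmod_val]
    rw [this]
    exact hc
  have e2 : jacobiSym (a : ℤ) r = 1 := by
    rw [jacobiSym.mod_left]
    have h3 : (a : ℤ) % (r : ℤ) = (1 : ℤ) % (r : ℤ) := by exact_mod_cast ha2
    rw [h3, ← jacobiSym.mod_left, jacobiSym.one_left]
  rw [hn, jacobiSym.mul_right, jacobiSym.pow_right, e1, e2, hv.neg_one_pow, mul_one]

lemma jchar_ne_one {n : ℕ} [NeZero n] (ho : Odd n) (hsq : ¬ IsSquare n) : jchar n ≠ 1 := by
  intro h
  obtain ⟨a, ha⟩ := exists_neg ho hsq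
  have h1 := jchar_apply n a
  rw [h, ha] at h1
  have h2 : IsUnit (a : ZMod n) := by
    rw [ZMod.isUnit_iff_coprime]
    by_contra hc
    have : jacobiSym (a : ℤ) n = 0 := by
      rw [jacobiSym.eq_zero_iff_not_coprime, Int.gcd_natCast_natCast]
      exact hc
    rw [this] at ha
    norm_num at ha
  rw [MulChar.one_apply h2] at h1
  norm_num at h1

/-- splitting into classes modulo 8 -/
lemma classes (g : ℕ → ℝ) (S : Finset ℕ) (hS : ∀ s ∈ S, s < 8) {B : ℝ} (hg : ∀ a m, |∑ j ∈ range m, g (8 * j + a)| ≤ B) (M : ℕ) :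
    |∑ e ∈ range M, (if e % 8 ∈ S then g e else 0)| ≤ S.card * B := by
  have e1 : ∑ e ∈ range M, (if e % 8 ∈ S then g e else 0) = ∑ a ∈ S, ∑ j ∈ range ((M + 7 - a) / 8), g (8 * j + a) := by
    rw [← sum_filter]
    have h1 : ∀ e ∈ (range M).filter (fun e => e % 8 ∈ S), e % 8 ∈ S := fun e he => (mem_filter.mp he).2
    rw [← sum_fiberwise_of_maps_to h1]
    refine sum_congr rfl fun a ha => ?_
    have ha8 := hS a ha
    have h3 : ((range M).filter (fun e => e % 8 ∈ S)).filter (fun e => e % 8 = a) = (range ((M + 7 - a) / 8)).image (fun j => 8 * j + a) := by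
      ext e
      rw [mem_filter, mem_filter, mem_range, mem_image]
      constructor
      · rintro ⟨⟨q1, q2⟩, q3⟩
        refine ⟨e / 8, ?_, by omega⟩
        rw [mem_range]
        omega
      · rintro ⟨j, hj, rfl⟩
        rw [mem_range] at hj
        have : (8 * j + a) % 8 = a := by omega
        rw [this]
        exact ⟨⟨by omega, ha⟩, rfl⟩
    rw [h3, sum_image]
    intro x _ y _ hxy
    have : 8 * x + a = 8 * y + a := hxy
    omega
  rw [e1]
  refine (abs_sum_le_sum_abs _ _).trans ((sum_le_sum fun a _ => hg a _).trans (le_of_eq ?_))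
  rw [sum_const, nsmul_eq_mul]

/-- sums of a Jacobi symbol over squarefree numbers in odd classes modulo 8 -/
theorem jac_bound {n : ℕ} (ho : Odd n) (hsq : ¬ IsSquare n) (S : Finset ℕ) (hS : ∀ s ∈ S, s < 8 ∧ s % 2 = 1) (N : ℕ) :
    |∑ d ∈ (range N).filter Squarefree, (if d % 8 ∈ S then (jacobiSym (d : ℤ) n : ℝ) else 0)| ≤
      5 * Real.sqrt (64 * √(n : ℝ) * (1 + Real.log n) * N) := by
  have hn1 : 1 < n := by
    rcases Nat.lt_or_ge 1 n with h | h
    · exact h
    · exfalso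
      interval_cases n
      · exact absurd ho (by decide)
      · exact hsq ⟨1, rfl⟩
  haveI : NeZero n := ⟨by omega⟩
  have hχ := jchar_ne_one ho hsq
  have hnr : (1:ℝ) ≤ n := by exact_mod_cast hn1.le
  have hlog := Real.log_nonneg hnr
  have hsn : 1 ≤ √(n : ℝ) := by rw [Real.one_le_sqrt]; exact hnr
  have hB : 1 ≤ 64 * √(n : ℝ) * (1 + Real.log n) := by nlinarith
  have hcard : (S.card : ℝ) ≤ 8 := by
    have h1 : S ⊆ range 8 := fun s hs => mem_range.mpr (hS s hs).1
    have := card_le_card h1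
    rw [card_range] at this
    exact_mod_cast this
  refine sqf_bound (h := fun d => if d % 8 ∈ S then (jacobiSym (d : ℤ) n : ℝ) else 0)
    (c := fun b => if Odd b then (jacobiSym ((b : ℤ) ^ 2) n : ℝ) else 0) hB ?_ ?_ ?_ ?_ ?_ N
  · show (if 0 % 8 ∈ S then (jacobiSym ((0 : ℕ) : ℤ) n : ℝ) else 0) = 0
    rw [if_neg]
    intro h
    have := (hS _ h).2
    omega
  · intro e
    show |(if e % 8 ∈ S then (jacobiSym (e : ℤ) n : ℝ) else 0)| ≤ 1
    split_ifs
    · rcases jacobiSym.trichotomy (e : ℤ) n with h | h | h <;> rw [h] <;> norm_num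
    · norm_num
  · intro b
    show |(if Odd b then (jacobiSym ((b : ℤ) ^ 2) n : ℝ) else 0)| ≤ 1
    split_ifs
    · rcases jacobiSym.trichotomy ((b : ℤ) ^ 2) n with h | h | h <;> rw [h] <;> norm_num
    · norm_num
  · intro b e _
    show (if (b ^ 2 * e) % 8 ∈ S then (jacobiSym ((b ^ 2 * e : ℕ) : ℤ) n : ℝ) else 0) =
      (if Odd b then (jacobiSym ((b : ℤ) ^ 2) n : ℝ) else 0) * (if e % 8 ∈ S then (jacobiSym (e : ℤ) n : ℝ) else 0)
    by_cases hb : Odd b
    · have h1 : (b ^ 2 * e) % 8 = e % 8 := by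
        have h2 : b ^ 2 % 8 = 1 := by
          have h3 : b % 8 = 1 ∨ b % 8 = 3 ∨ b % 8 = 5 ∨ b % 8 = 7 := by
            have := Nat.odd_iff.mp hb
            omega
          rw [Nat.pow_mod]
          rcases h3 with h | h | h | h <;> rw [h]
        rw [Nat.mul_mod, h2, one_mul, Nat.mod_mod]
      rw [h1, if_pos hb]
      by_cases he : e % 8 ∈ S
      · rw [if_pos he, if_pos he]
        push_cast
        rw [jacobiSym.mul_left]
        push_cast
        ring
      · rw [if_neg he, if_neg he, mul_zero]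
    · rw [if_neg hb, zero_mul, if_neg]
      intro h
      have h1 := (hS _ h).2
      rw [Nat.not_odd_iff_even] at hb
      obtain ⟨r, rfl⟩ := hb
      have h2 : (r + r) ^ 2 * e = 2 * (2 * r ^ 2 * e) := by ring
      rw [h2] at h1
      omega
  · intro M
    show |∑ e ∈ range M, (if e % 8 ∈ S then (jacobiSym (e : ℤ) n : ℝ) else 0)| ≤ 64 * √(n : ℝ) * (1 + Real.log n)
    have h1 := classes (fun e => (jacobiSym (e : ℤ) n : ℝ)) S (fun s hs => (hS s hs).1)
      (B := 8 * √(n : ℝ) * (1 + Real.log n)) (fun a m => by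
        have h2 := prog_le (jchar n) (by omega) ho hχ a m
        have h3 : ∑ j ∈ range m, jchar n ((8 * j + a : ℕ) : ZMod n) =
            ((∑ j ∈ range m, (jacobiSym ((8 * j + a : ℕ) : ℤ) n : ℝ) : ℝ) : ℂ) := by
          push_cast
          refine sum_congr rfl fun j _ => ?_
          have := jchar_apply n (8 * j + a)
          push_cast at this
          exact this
        rw [h3, Complex.norm_real, Real.norm_eq_abs] at h2
        exact h2) M
    refine h1.trans ?_
    have h0 : 0 ≤ 8 * √(n : ℝ) * (1 + Real.log n) := by positivity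
    calc (S.card : ℝ) * (8 * √(n : ℝ) * (1 + Real.log n)) ≤ 8 * (8 * √(n : ℝ) * (1 + Real.log n)) :=
          mul_le_mul_of_nonneg_right hcard h0
      _ = _ := by ring

/-- the difference of two classes among the squarefree numbers coprime to `m` -/
theorem diff_bound {m : ℕ} (ho : Odd m) {s1 : ℕ} (hs1 : s1 = 1 ∨ s1 = 7) (N : ℕ) :
    |∑ d ∈ (range N).filter Squarefree, (if d.Coprime m then (if d % 8 = s1 then (1:ℝ) else if d % 8 = (s1 + 4) % 8 then -1 else 0) else 0)| ≤
      5 * Real.sqrt (8 * m * N) := by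
  have hm1 : (1:ℝ) ≤ m := by exact_mod_cast ho.pos
  obtain ⟨g, hg⟩ : ∃ g : ℕ → ℝ, ∀ d, g d = if d % 8 = s1 then (1:ℝ) else if d % 8 = (s1 + 4) % 8 then -1 else 0 := ⟨_, fun _ => rfl⟩
  obtain ⟨h, hh⟩ : ∃ h : ℕ → ℝ, ∀ d, h d = if d.Coprime m then g d else 0 := ⟨_, fun _ => rfl⟩
  have hg1 : ∀ d, |g d| ≤ 1 := by
    intro d
    rw [hg]
    split_ifs <;> norm_num
  have hh1 : ∀ d, |h d| ≤ 1 := by
    intro d
    rw [hh]
    split_ifs
    · exact hg1 d
    · norm_num
  have hge : ∀ d, d % 2 = 0 → g d = 0 := by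
    intro d hd
    rw [hg, if_neg (by rcases hs1 with h | h <;> rw [h] <;> omega), if_neg (by rcases hs1 with h | h <;> rw [h] <;> omega)]
  have hanti : ∀ e, h (e + 4 * m) = - h e := by
    intro e
    rw [hh, hh]
    have hc : (e + 4 * m).Coprime m ↔ e.Coprime m := by
      rw [Nat.coprime_comm, Nat.coprime_comm (n := e)]
      exact Nat.coprime_add_mul_right_right m e 4
    by_cases hco : e.Coprime m
    · rw [if_pos (hc.mpr hco), if_pos hco, hg, hg]
      have hm8 := Nat.odd_iff.mp ho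
      rcases hs1 with h1 | h1 <;> rw [h1] <;> split_ifs <;> first | (exfalso; omega) | rfl | norm_num
    · rw [if_neg (fun q => hco (hc.mp q)), if_neg hco, neg_zero]
  have hper : ∀ M, ∑ e ∈ range (M + 8 * m), h e = ∑ e ∈ range M, h e := by
    intro M
    have e1 : M + 8 * m = (M + 4 * m) + 4 * m := by ring
    rw [e1, sum_range_add, sum_range_add]
    have e2 : ∑ x ∈ range (4 * m), h (M + 4 * m + x) = - ∑ x ∈ range (4 * m), h (M + x) := by
      rw [← sum_neg_distrib]
      refine sum_congr rfl fun x _ => ?_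
      rw [← hanti]
      congr 1
      ring
    rw [e2]
    ring
  have hs : ∀ M, |∑ e ∈ range M, h e| ≤ 8 * m := by
    intro M
    induction M using Nat.strong_induction_on with
    | _ M ih =>
      rcases Nat.lt_or_ge M (8 * m) with hM | hM
      · refine (abs_sum_le_sum_abs _ _).trans ((sum_le_sum fun e _ => hh1 e).trans ?_)
        rw [sum_const, card_range, nsmul_eq_mul, mul_one]
        exact_mod_cast hM.le
      · have hmp := ho.pos
        have h1 := ih (M - 8 * m) (by omega)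
        rw [← hper (M - 8 * m), Nat.sub_add_cancel hM] at h1
        exact h1
  have key := sqf_bound (h := h) (c := fun b => if Odd b ∧ b.Coprime m then (1:ℝ) else 0) (B := 8 * m) (by linarith) ?_ hh1 ?_ ?_ hs N
  · have e1 : ∀ d, (if d.Coprime m then (if d % 8 = s1 then (1:ℝ) else if d % 8 = (s1 + 4) % 8 then -1 else 0) else 0) = h d := by
      intro d
      rw [hh, hg]
    simp_rw [e1]
    exact key
  · rw [hh, hge 0 rfl]
    simp
  · intro b
    show |(if Odd b ∧ b.Coprime m then (1:ℝ) else 0)| ≤ 1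
    split_ifs <;> norm_num
  · intro b e _
    show h (b ^ 2 * e) = (if Odd b ∧ b.Coprime m then (1:ℝ) else 0) * h e
    rw [hh, hh]
    by_cases hb : Odd b
    · have h1 : g (b ^ 2 * e) = g e := by
        have h1 : (b ^ 2 * e) % 8 = e % 8 := by
          have h2 : b ^ 2 % 8 = 1 := by
            have h3 : b % 8 = 1 ∨ b % 8 = 3 ∨ b % 8 = 5 ∨ b % 8 = 7 := by
              have := Nat.odd_iff.mp hb
              omega
            rw [Nat.pow_mod]
            rcases h3 with h | h | h | h <;> rw [h]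
          rw [Nat.mul_mod, h2, one_mul, Nat.mod_mod]
        rw [hg, hg, h1]
      rw [h1]
      have h2 : (b ^ 2 * e).Coprime m ↔ b.Coprime m ∧ e.Coprime m := by
        rw [Nat.coprime_mul_iff_left, Nat.coprime_pow_left_iff (by norm_num)]
      by_cases hbm : b.Coprime m
      · rw [if_pos (show Odd b ∧ b.Coprime m from ⟨hb, hbm⟩), one_mul]
        by_cases he : e.Coprime m
        · rw [if_pos (h2.mpr ⟨hbm, he⟩), if_pos he]
        · rw [if_neg (fun q => he (h2.mp q).2), if_neg he]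
      · rw [if_neg (show ¬ (Odd b ∧ b.Coprime m) from fun q => hbm q.2), zero_mul, if_neg (fun q => hbm (h2.mp q).1)]
    · rw [if_neg (show ¬ (Odd b ∧ b.Coprime m) from fun q => hb q.1), zero_mul]
      have h1 : g (b ^ 2 * e) = 0 := by
        apply hge
        rw [Nat.not_odd_iff_even] at hb
        obtain ⟨r, rfl⟩ := hb
        have h2 : (r + r) ^ 2 * e = 2 * (2 * r ^ 2 * e) := by ring
        rw [h2]
        omega
      rw [h1]
      split_ifs <;> rfl

end Pool.Agent.R313.QM
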