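import Pool.Agent.R313.QM.E

set_option autoImplicit false
set_option linter.all false

/-! Fundamental discriminants and the sums of their characters. -/

namespace Pool.Agent.R313.QM

open Finset

/-- `D` is a fundamental discriminant -/
def IsFund (D : ℤ) : Prop :=
  (D % 4 = 1 ∧ Squarefree D) ∨ ∃ m : ℤ, D = 4 * m ∧ (m % 4 = 2 ∨ m % 4 = 3) ∧ Squarefree m

/-- the Kronecker symbol `(D / n)` of a fundamental discriminant, `n ≥ 1` -/
def kron (D : ℤ) (n : ℕ) : ℤ :=
  (if D % 8 = 1 then 1 else if D % 8 = 5 then -1 else 0) ^ (n.factorization 2) * jacobiSym D (n / 2 ^ (n.factorization 2))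

open Classical in
/-- the fundamental discriminants of sign `ε` with `|D| < X` -/
noncomputable def SX0 (ε : ℤ) (X : ℝ) : Finset ℤ := (Ioo (-⌈X⌉) ⌈X⌉).filter (fun D => IsFund D ∧ 0 < ε * D)

def S4 (ε : ℤ) : Finset ℕ := if ε = 1 then {3, 7} else {1, 5}
def S1 (ε : ℤ) : Finset ℕ := if ε = 1 then {1, 5} else {3, 7}
def S8 : Finset ℕ := {1, 3, 5, 7}

lemma mem_S8 {r : ℕ} : r ∈ S8 ↔ r = 1 ∨ r = 3 ∨ r = 5 ∨ r = 7 := by simp [S8]

lemma sqf_int {ε : ℤ} (hε : ε = 1 ∨ ε = -1) (N : ℕ) : Squarefree (ε * (N:ℤ)) ↔ Squarefree N := by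
  rw [← Int.squarefree_natAbs]
  have : (ε * (N:ℤ)).natAbs = N := by rcases hε with h | h <;> rw [h] <;> simp
  rw [this]

lemma fund_iff {ε : ℤ} (hε : ε = 1 ∨ ε = -1) (N : ℕ) : IsFund (ε * (N:ℤ)) ↔
    (∃ m, N = 1 * m ∧ Squarefree m ∧ m % 8 ∈ S1 ε) ∨ (∃ m, N = 4 * m ∧ Squarefree m ∧ m % 8 ∈ S4 ε) ∨
      (∃ m, N = 8 * m ∧ Squarefree m ∧ m % 8 ∈ S8) := by
  constructor
  · rintro (⟨h1, h2⟩ | ⟨m', h1, h2, h3⟩)
    · left
      refine ⟨N, (one_mul N).symm, (sqf_int hε N).mp h2, ?_⟩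
      rcases hε with h | h <;> subst h <;> simp [S1] <;> omega
    · right
      have hm0 : 0 ≤ ε * m' := by rcases hε with h | h <;> subst h <;> omega
      obtain ⟨m, hm⟩ : ∃ m : ℕ, (m:ℤ) = ε * m' := ⟨(ε * m').toNat, Int.toNat_of_nonneg hm0⟩
      have hmm : m' = ε * (m:ℤ) := by rcases hε with h | h <;> subst h <;> omega
      have hN : N = 4 * m := by rcases hε with h | h <;> subst h <;> omega
      have hs : Squarefree m := (sqf_int hε m).mp (hmm ▸ h3)
      rcases h2 with h2 | h2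
      · right
        obtain ⟨m2, hm2⟩ : ∃ m2, m = 2 * m2 := ⟨m / 2, by rcases hε with h | h <;> subst h <;> omega⟩
        refine ⟨m2, by omega, hs.squarefree_of_dvd ⟨2, by rw [hm2]; ring⟩, ?_⟩
        rw [mem_S8]
        rcases hε with h | h <;> subst h <;> omega
      · left
        refine ⟨m, hN, hs, ?_⟩
        rcases hε with h | h <;> subst h <;> simp [S4] <;> omega
  · rintro (⟨m, h1, h2, h3⟩ | ⟨m, h1, h2, h3⟩ | ⟨m, h1, h2, h3⟩)
    · left
      rw [one_mul] at h1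
      subst h1
      refine ⟨?_, (sqf_int hε _).mpr h2⟩
      rcases hε with h | h <;> subst h <;> simp [S1] at h3 <;> omega
    · right
      refine ⟨ε * (m:ℤ), by rw [h1]; push_cast; ring, Or.inr ?_, (sqf_int hε _).mpr h2⟩
      rcases hε with h | h <;> subst h <;> simp [S4] at h3 <;> omega
    · right
      rw [mem_S8] at h3
      have hs : Squarefree (2 * m) := by
        rw [Nat.squarefree_mul_iff]
        refine ⟨?_, Nat.prime_two.squarefree, h2⟩
        rw [Nat.coprime_two_left, Nat.odd_iff]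
        omega
      refine ⟨ε * ((2 * m : ℕ):ℤ), by rw [h1]; push_cast; ring, Or.inl ?_, (sqf_int hε _).mpr hs⟩
      rcases hε with h | h <;> subst h <;> push_cast <;> omega

open Classical in
lemma fam_sum (X : ℝ) {r : ℕ} (hr : 0 < r) (S : Finset ℕ) (f : ℕ → ℝ) :
    ∑ N ∈ (range ⌈X⌉₊).filter (fun N => ∃ m, N = r * m ∧ Squarefree m ∧ m % 8 ∈ S), f N =
      ∑ m ∈ (range ⌈X / r⌉₊).filter Squarefree, (if m % 8 ∈ S then f (r * m) else 0) := by
  have hr0 : (0:ℝ) < r := by exact_mod_cast hr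
  rw [← sum_filter, filter_filter]
  symm
  refine sum_bij (fun m _ => r * m) ?_ ?_ ?_ ?_
  · intro m hm
    rw [mem_filter, mem_range, Nat.lt_ceil] at hm
    rw [mem_filter, mem_range, Nat.lt_ceil]
    refine ⟨?_, m, rfl, hm.2⟩
    rw [lt_div_iff₀ hr0] at hm
    push_cast
    linarith [hm.1]
  · intro a _ b _ hab
    exact Nat.eq_of_mul_eq_mul_left hr hab
  · intro N hN
    rw [mem_filter, mem_range, Nat.lt_ceil] at hN
    obtain ⟨h1, m, rfl, h2⟩ := hN
    refine ⟨m, ?_, rfl⟩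
    rw [mem_filter, mem_range, Nat.lt_ceil, lt_div_iff₀ hr0]
    push_cast at h1
    exact ⟨by linarith, h2⟩
  · intro m _
    rfl

open Classical in
/-- decomposition of the sum over the fundamental discriminants -/
theorem sum_SX0 {ε : ℤ} (hε : ε = 1 ∨ ε = -1) (X : ℝ) (f : ℤ → ℝ) :
    ∑ D ∈ SX0 ε X, f D =
      ∑ m ∈ (range ⌈X / (1:ℕ)⌉₊).filter Squarefree, (if m % 8 ∈ S1 ε then f (ε * ((1 * m : ℕ) : ℤ)) else 0) +
      (∑ m ∈ (range ⌈X / (4:ℕ)⌉₊).filter Squarefree, (if m % 8 ∈ S4 ε then f (ε * ((4 * m : ℕ) : ℤ)) else 0) +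
      ∑ m ∈ (range ⌈X / (8:ℕ)⌉₊).filter Squarefree, (if m % 8 ∈ S8 then f (ε * ((8 * m : ℕ) : ℤ)) else 0)) := by
  have e1 : ∑ D ∈ SX0 ε X, f D = ∑ N ∈ (range ⌈X⌉₊).filter (fun N : ℕ => IsFund (ε * (N:ℤ))), f (ε * (N:ℤ)) := by
    refine sum_bij (fun D _ => D.natAbs) ?_ ?_ ?_ ?_
    · intro D hD
      unfold SX0 at hD
      rw [mem_filter, mem_Ioo] at hD
      obtain ⟨⟨h1, h2⟩, h3, h4⟩ := hD
      have hD' : ε * (D.natAbs : ℤ) = D := by rcases hε with h | h <;> subst h <;> omega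
      rw [mem_filter, mem_range, hD', Nat.lt_ceil]
      refine ⟨?_, h3⟩
      have h5 : ((D.natAbs : ℤ)) < ⌈X⌉ := by omega
      rw [Int.lt_ceil, Int.cast_natCast] at h5
      exact h5
    · intro a ha b hb hab
      unfold SX0 at ha hb
      rw [mem_filter] at ha hb
      have h1 := ha.2.2
      have h2 := hb.2.2
      rcases hε with h | h <;> subst h <;> omega
    · intro N hN
      rw [mem_filter, mem_range, Nat.lt_ceil] at hN
      have hN0 : N ≠ 0 := by
        rintro rfl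
        have := hN.2
        rw [fund_iff hε] at this
        rcases this with ⟨m, h1, h2, _⟩ | ⟨m, h1, h2, _⟩ | ⟨m, h1, h2, _⟩
        all_goals
          have : m = 0 := by omega
          subst this
          exact not_squarefree_zero h2
      have h5 : (N : ℤ) < ⌈X⌉ := by
        rw [Int.lt_ceil]
        exact_mod_cast hN.1
      refine ⟨ε * (N:ℤ), ?_, ?_⟩
      · unfold SX0
        rw [mem_filter, mem_Ioo]
        refine ⟨?_, hN.2, ?_⟩
        · rcases hε with h | h <;> subst h <;> omega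
        · rcases hε with h | h <;> subst h <;> omega
      · rcases hε with h | h <;> rw [h] <;> simp
    · intro D hD
      unfold SX0 at hD
      rw [mem_filter] at hD
      have h4 := hD.2.2
      congr 1
      rcases hε with h | h <;> subst h <;> omega
  have e2 : (range ⌈X⌉₊).filter (fun N : ℕ => IsFund (ε * (N:ℤ))) =
      (range ⌈X⌉₊).filter (fun N => ∃ m, N = 1 * m ∧ Squarefree m ∧ m % 8 ∈ S1 ε) ∪
      ((range ⌈X⌉₊).filter (fun N => ∃ m, N = 4 * m ∧ Squarefree m ∧ m % 8 ∈ S4 ε) ∪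
      (range ⌈X⌉₊).filter (fun N => ∃ m, N = 8 * m ∧ Squarefree m ∧ m % 8 ∈ S8)) := by
    rw [← filter_or, ← filter_or]
    exact filter_congr fun N _ => fund_iff hε N
  have hS1 : ∀ r ∈ S1 ε, r % 2 = 1 ∧ r < 8 := by
    intro r hr
    rcases hε with h | h <;> subst h <;> simp [S1] at hr <;> omega
  have hS4 : ∀ r ∈ S4 ε, r % 2 = 1 ∧ r < 8 := by
    intro r hr
    rcases hε with h | h <;> subst h <;> simp [S4] at hr <;> omega
  rw [e1, e2, sum_union, sum_union]
  · have f1 := fam_sum X (r := 1) one_pos (S1 ε) (fun N => f (ε * (N:ℤ)))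
    have f4 := fam_sum X (r := 4) (by norm_num) (S4 ε) (fun N => f (ε * (N:ℤ)))
    have f8 := fam_sum X (r := 8) (by norm_num) S8 (fun N => f (ε * (N:ℤ)))
    rw [f1, f4, f8]
  · rw [disjoint_left]
    intro N h1 h2
    rw [mem_filter] at h1 h2
    obtain ⟨_, m, h3, _, h4⟩ := h1
    obtain ⟨_, m', h5, _, h6⟩ := h2
    have := (hS4 _ h4).1
    omega
  · rw [disjoint_left]
    intro N h1 h2
    rw [mem_filter] at h1
    rw [mem_union, mem_filter, mem_filter] at h2
    obtain ⟨_, m, h3, _, h4⟩ := h1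
    have := (hS1 _ h4).1
    rcases h2 with ⟨_, m', h5, _, _⟩ | ⟨_, m', h5, _, _⟩ <;> omega

end Pool.Agent.R313.QM
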