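import Pool.Agent.R313.QM.G

set_option autoImplicit false
set_option linter.all false

/-! Sums of the characters of the fundamental discriminants. -/

namespace Pool.Agent.R313.QM

open Finset

/-- the local sign at 2 -/
def s2 (D : ℤ) : ℤ := if D % 8 = 1 then 1 else if D % 8 = 5 then -1 else 0

lemma kron_eq (D : ℤ) {n v w : ℕ} (hn : n = 2 ^ v * w) (hw : Odd w) : kron D n = s2 D ^ v * jacobiSym D w := by
  have hw0 : w ≠ 0 := hw.pos.ne'
  have h2w : ¬ 2 ∣ w := by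
    rw [← even_iff_two_dvd, Nat.not_even_iff_odd]
    exact hw
  have h1 : n.factorization 2 = v := by
    rw [hn, Nat.factorization_mul (by positivity) hw0]
    simp [Nat.prime_two.factorization_pow, Nat.factorization_eq_zero_of_not_dvd h2w]
  have h2 : n / 2 ^ v = w := by
    rw [hn]
    exact Nat.mul_div_cancel_left w (by positivity)
  unfold kron s2
  rw [h1, h2]

lemma decomp {n : ℕ} (hn : n ≠ 0) : ∃ v w : ℕ, n = 2 ^ v * w ∧ Odd w := by
  obtain ⟨v, w, h1, h2⟩ := Nat.exists_eq_pow_mul_and_not_dvd hn 2 (by norm_num)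
  refine ⟨v, w, h2, ?_⟩
  rw [← Nat.not_even_iff_odd, even_iff_two_dvd]
  exact h1

lemma js_abs (a : ℤ) (n : ℕ) : |(jacobiSym a n : ℝ)| ≤ 1 := by
  rcases jacobiSym.trichotomy a n with h | h | h <;> rw [h] <;> norm_num

lemma s2_abs (D : ℤ) : |(s2 D : ℝ)| ≤ 1 := by
  unfold s2
  split_ifs <;> norm_num

lemma kron_abs (D : ℤ) {n : ℕ} (hn : n ≠ 0) : |(kron D n : ℝ)| ≤ 1 := by
  obtain ⟨v, w, h1, h2⟩ := decomp hn
  rw [kron_eq D h1 h2]
  push_cast
  rw [abs_mul, abs_pow]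
  exact mul_le_one₀ (pow_le_one₀ (abs_nonneg _) (s2_abs D)) (abs_nonneg _) (js_abs D w)

lemma F_bound {w : ℕ} (ho : Odd w) (hsq : ¬ IsSquare w) (S : Finset ℕ) (hS : ∀ s ∈ S, s < 8 ∧ s % 2 = 1) {X : ℝ} (hX : 0 ≤ X) {r : ℕ} (hr : 1 ≤ r) :
    |∑ d ∈ (range ⌈X / (r : ℕ)⌉₊).filter Squarefree, (if d % 8 ∈ S then (jacobiSym (d : ℤ) w : ℝ) else 0)| ≤
      5 * Real.sqrt (64 * √(w : ℝ) * (1 + Real.log w) * (X + 1)) := by
  refine (jac_bound ho hsq S hS _).trans ?_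
  have hr1 : (1:ℝ) ≤ r := by exact_mod_cast hr
  have h1 : ((⌈X / (r : ℝ)⌉₊ : ℕ) : ℝ) ≤ X + 1 := by
    have h2 := (Nat.ceil_lt_add_one (show 0 ≤ X / (r : ℝ) by positivity)).le
    have h3 : X / (r : ℝ) ≤ X := div_le_self hX hr1
    linarith
  have hw : (1:ℝ) ≤ w := by exact_mod_cast ho.pos
  have hlog := Real.log_nonneg hw
  gcongr

lemma term_r {ε : ℤ} {n v w : ℕ} (hn : n = 2 ^ v * w) (hw : Odd w) (r : ℕ) (hr : r = 4 ∨ r = 8) (S : Finset ℕ)
    (hS : ∀ s ∈ S, s < 8 ∧ s % 2 = 1) (M : ℕ) :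
    ∑ m ∈ (range M).filter Squarefree, (if m % 8 ∈ S then (kron (ε * ((r * m : ℕ) : ℤ)) n : ℝ) else 0) =
      (0:ℝ) ^ v * (jacobiSym (ε * r) w : ℝ) * ∑ m ∈ (range M).filter Squarefree, (if m % 8 ∈ S then (jacobiSym (m : ℤ) w : ℝ) else 0) := by
  rw [mul_sum]
  refine sum_congr rfl fun m _ => ?_
  by_cases hm : m % 8 ∈ S
  · rw [if_pos hm, if_pos hm, kron_eq _ hn hw]
    have h1 : s2 (ε * ((r * m : ℕ) : ℤ)) = 0 := by
      unfold s2
      have h2 : (ε * ((r * m : ℕ) : ℤ)) % 2 = 0 := by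
        rcases hr with h | h <;> subst h <;> push_cast
        · rw [show ε * (4 * (m:ℤ)) = 2 * (2 * ε * m) by ring]
          omega
        · rw [show ε * (8 * (m:ℤ)) = 2 * (4 * ε * m) by ring]
          omega
      rw [if_neg (by omega), if_neg (by omega)]
    have h2 : (ε * ((r * m : ℕ) : ℤ)) = (ε * (r : ℤ)) * (m : ℤ) := by push_cast; ring
    rw [h1, h2, jacobiSym.mul_left]
    push_cast
    ring
  · rw [if_neg hm, if_neg hm, mul_zero]

lemma term_1 {ε : ℤ} (hε : ε = 1 ∨ ε = -1) {n v w : ℕ} (hn : n = 2 ^ v * w) (hw : Odd w) {a : ℕ} (ha : a = if ε = 1 then 1 else 7) (M : ℕ) :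
    ∑ m ∈ (range M).filter Squarefree, (if m % 8 ∈ S1 ε then (kron (ε * ((1 * m : ℕ) : ℤ)) n : ℝ) else 0) =
      (jacobiSym ε w : ℝ) * (∑ m ∈ (range M).filter Squarefree, (if m % 8 ∈ ({a} : Finset ℕ) then (jacobiSym (m : ℤ) w : ℝ) else 0) +
        (-1) ^ v * ∑ m ∈ (range M).filter Squarefree, (if m % 8 ∈ ({(a + 4) % 8} : Finset ℕ) then (jacobiSym (m : ℤ) w : ℝ) else 0)) := by
  rw [mul_sum _ _ ((-1 : ℝ) ^ v), ← sum_add_distrib, mul_sum]
  refine sum_congr rfl fun m _ => ?_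
  rw [one_mul, kron_eq _ hn hw, jacobiSym.mul_left]
  simp only [mem_singleton]
  rcases hε with h | h
  · subst h
    rw [if_pos rfl] at ha
    subst ha
    have hS : m % 8 ∈ S1 1 ↔ m % 8 = 1 ∨ m % 8 = 5 := by simp [S1]
    by_cases h1 : m % 8 = 1
    · have e1 : s2 (1 * (m:ℤ)) = 1 := by
        unfold s2
        rw [if_pos (by omega)]
      rw [if_pos (hS.mpr (Or.inl h1)), if_pos h1, if_neg (by omega), e1]
      push_cast
      ring
    · by_cases h5 : m % 8 = 5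
      · have e1 : s2 (1 * (m:ℤ)) = -1 := by
          unfold s2
          rw [if_neg (by omega), if_pos (by omega)]
        rw [if_pos (hS.mpr (Or.inr h5)), if_neg h1, if_pos (by omega), e1]
        push_cast
        ring
      · rw [if_neg (fun q => (hS.mp q).elim h1 h5), if_neg h1, if_neg (by omega)]
        ring
  · subst h
    rw [if_neg (by norm_num)] at ha
    subst ha
    have hS : m % 8 ∈ S1 (-1) ↔ m % 8 = 3 ∨ m % 8 = 7 := by simp [S1]
    by_cases h1 : m % 8 = 7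
    · have e1 : s2 (-1 * (m:ℤ)) = 1 := by
        unfold s2
        rw [if_pos (by omega)]
      rw [if_pos (hS.mpr (Or.inr h1)), if_pos h1, if_neg (by omega), e1]
      push_cast
      ring
    · by_cases h5 : m % 8 = 3
      · have e1 : s2 (-1 * (m:ℤ)) = -1 := by
          unfold s2
          rw [if_neg (by omega), if_pos (by omega)]
        rw [if_pos (hS.mpr (Or.inl h5)), if_neg h1, if_pos (by omega), e1]
        push_cast
        ring
      · rw [if_neg (fun q => (hS.mp q).elim h5 h1), if_neg h1, if_neg (by omega)]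
        ring

lemma js_sq {m w : ℕ} (hw : w ≠ 0) : (jacobiSym (m : ℤ) (w ^ 2) : ℝ) = if m.Coprime w then 1 else 0 := by
  haveI : NeZero w := ⟨hw⟩
  rw [jacobiSym.pow_right]
  by_cases h : m.Coprime w
  · rw [if_pos h]
    have := jacobiSym.sq_one (a := (m:ℤ)) (b := w) (by rw [Int.gcd_natCast_natCast]; exact h)
    exact_mod_cast this
  · rw [if_neg h]
    have : jacobiSym (m:ℤ) w = 0 := by
      rw [jacobiSym.eq_zero_iff_not_coprime, Int.gcd_natCast_natCast]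
      exact h
    rw [this]
    norm_num

/-- the sum of the characters at a number which is not a square -/
theorem K0_bound {ε : ℤ} (hε : ε = 1 ∨ ε = -1) {X : ℝ} (hX : 0 ≤ X) {n : ℕ} (hn0 : n ≠ 0) (hsq : ¬ IsSquare n) :
    |∑ D ∈ SX0 ε X, (kron D n : ℝ)| ≤ 20 * Real.sqrt (64 * √(n : ℝ) * (1 + Real.log n) * (X + 1)) := by
  obtain ⟨v, w, hn, hw⟩ := decomp hn0
  have hw1 : (1:ℝ) ≤ w := by exact_mod_cast hw.pos
  have hwn : w ≤ n := by
    rw [hn]
    exact Nat.le_mul_of_pos_left w (by positivity)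
  have hwn' : (w:ℝ) ≤ n := by exact_mod_cast hwn
  have hn1 : (1:ℝ) ≤ n := hw1.trans hwn'
  have hlw := Real.log_nonneg hw1
  have hlog : Real.log w ≤ Real.log n := Real.log_le_log (by linarith) hwn'
  have hln : 0 ≤ Real.log n := hlw.trans hlog
  obtain ⟨a, ha⟩ : ∃ a : ℕ, a = if ε = 1 then 1 else 7 := ⟨_, rfl⟩
  have ha17 : a = 1 ∨ a = 7 := by
    rw [ha]
    split_ifs <;> simp
  rw [sum_SX0 hε X (fun D => (kron D n : ℝ))]
  have t1 := term_1 hε hn hw ha ⌈X / ((1:ℕ) : ℝ)⌉₊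
  have t4 := term_r (ε := ε) hn hw 4 (Or.inl rfl) (S4 ε) (by
    intro r hr
    rcases hε with h | h <;> subst h <;> simp [S4] at hr <;> omega) ⌈X / ((4:ℕ) : ℝ)⌉₊
  have t8 := term_r (ε := ε) hn hw 8 (Or.inr rfl) S8 (by
    intro r hr
    rw [mem_S8] at hr
    omega) ⌈X / ((8:ℕ) : ℝ)⌉₊
  rw [t1, t4, t8]
  have hj1 := js_abs ε w
  by_cases hws : IsSquare w
  · -- `w` is a square, `v` is odd
    obtain ⟨u, hu⟩ := hws
    have hu2 : w = u ^ 2 := by rw [hu]; ring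
    have hv : Odd v := by
      rw [← Nat.not_even_iff_odd]
      rintro ⟨v', hv'⟩
      apply hsq
      refine ⟨2 ^ v' * u, ?_⟩
      rw [hn, hv', hu]
      ring
    have huo : Odd u := by
      rw [hu] at hw
      exact (Nat.odd_mul.mp hw).1
    have hu0 : u ≠ 0 := huo.pos.ne'
    have hv0 : v ≠ 0 := by
      rintro rfl
      exact absurd hv (by decide)
    rw [zero_pow hv0, zero_mul, zero_mul, zero_mul, zero_mul, add_zero, add_zero, hv.neg_one_pow, abs_mul]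
    have e1 : ∑ m ∈ (range ⌈X / ((1:ℕ) : ℝ)⌉₊).filter Squarefree, (if m % 8 ∈ ({a} : Finset ℕ) then (jacobiSym (m : ℤ) w : ℝ) else 0) +
        (-1) * ∑ m ∈ (range ⌈X / ((1:ℕ) : ℝ)⌉₊).filter Squarefree, (if m % 8 ∈ ({(a + 4) % 8} : Finset ℕ) then (jacobiSym (m : ℤ) w : ℝ) else 0) =
        ∑ d ∈ (range ⌈X / ((1:ℕ) : ℝ)⌉₊).filter Squarefree, (if d.Coprime u then (if d % 8 = a then (1:ℝ) else if d % 8 = (a + 4) % 8 then -1 else 0) else 0) := by
      rw [mul_sum, ← sum_add_distrib]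
      refine sum_congr rfl fun m _ => ?_
      rw [hu2, js_sq hu0]
      simp only [mem_singleton]
      by_cases hc : m.Coprime u
      · rw [if_pos hc, if_pos hc]
        by_cases h1 : m % 8 = a
        · rw [if_pos h1, if_pos h1, if_neg (by omega)]
          norm_num
        · rw [if_neg h1, if_neg h1]
          split_ifs <;> norm_num
      · rw [if_neg hc, if_neg hc]
        simp
    rw [e1]
    have h1 := diff_bound huo ha17 ⌈X / ((1:ℕ) : ℝ)⌉₊
    have hun : (u:ℝ) ≤ √(n : ℝ) := by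
      apply Real.le_sqrt_of_sq_le
      have : ((u ^ 2 : ℕ) : ℝ) ≤ n := by rw [← hu2]; exact hwn'
      push_cast at this
      exact this
    have hce : ((⌈X / ((1:ℕ) : ℝ)⌉₊ : ℕ) : ℝ) ≤ X + 1 := by
      rw [Nat.cast_one, div_one]
      exact (Nat.ceil_lt_add_one hX).le
    have hsn : 0 ≤ √(n : ℝ) := Real.sqrt_nonneg _
    have h2 : Real.sqrt (8 * u * (⌈X / ((1:ℕ) : ℝ)⌉₊ : ℕ)) ≤ Real.sqrt (64 * √(n : ℝ) * (1 + Real.log n) * (X + 1)) := by
      apply Real.sqrt_le_sqrt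
      calc (8 : ℝ) * u * (⌈X / ((1:ℕ) : ℝ)⌉₊ : ℕ) ≤ 8 * √(n : ℝ) * (X + 1) := by gcongr
        _ ≤ 64 * √(n : ℝ) * (1 + Real.log n) * (X + 1) := by
            have : 8 * √(n : ℝ) ≤ 64 * √(n : ℝ) * (1 + Real.log n) := by nlinarith [mul_nonneg hsn hln]
            gcongr
    have h3 : 0 ≤ Real.sqrt (64 * √(n : ℝ) * (1 + Real.log n) * (X + 1)) := Real.sqrt_nonneg _
    calc _ ≤ 1 * (5 * Real.sqrt (8 * u * (⌈X / ((1:ℕ) : ℝ)⌉₊ : ℕ))) :=
          mul_le_mul hj1 h1 (abs_nonneg _) zero_le_one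
      _ ≤ 20 * Real.sqrt (64 * √(n : ℝ) * (1 + Real.log n) * (X + 1)) := by linarith
  · -- `w` is not a square
    obtain ⟨Bd, hBd⟩ : ∃ Bd : ℝ, Bd = 5 * Real.sqrt (64 * √(n : ℝ) * (1 + Real.log n) * (X + 1)) := ⟨_, rfl⟩
    have hBd0 : 0 ≤ Bd := by rw [hBd]; positivity
    have hmono : 5 * Real.sqrt (64 * √(w : ℝ) * (1 + Real.log w) * (X + 1)) ≤ Bd := by
      rw [hBd]
      have : √(w : ℝ) ≤ √(n : ℝ) := Real.sqrt_le_sqrt hwn'
      gcongr
    have b1 := (F_bound hw hws {a} (by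
      intro s hs
      rw [mem_singleton] at hs
      rcases ha17 with h | h <;> omega) hX (r := 1) le_rfl).trans hmono
    have b2 := (F_bound hw hws {(a + 4) % 8} (by
      intro s hs
      rw [mem_singleton] at hs
      rcases ha17 with h | h <;> omega) hX (r := 1) le_rfl).trans hmono
    have b4 := (F_bound hw hws (S4 ε) (by
      intro r hr
      rcases hε with h | h <;> subst h <;> simp [S4] at hr <;> omega) hX (r := 4) (by norm_num)).trans hmono
    have b8 := (F_bound hw hws S8 (by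
      intro r hr
      rw [mem_S8] at hr
      omega) hX (r := 8) (by norm_num)).trans hmono
    have hz : |(0:ℝ) ^ v| ≤ 1 := by
      rw [abs_pow, abs_zero]
      exact pow_le_one₀ le_rfl zero_le_one
    have hz1 : |(-1:ℝ) ^ v| ≤ 1 := by
      rw [abs_pow, abs_neg, abs_one, one_pow]
    have c1 : |(jacobiSym ε w : ℝ) * (∑ m ∈ (range ⌈X / ((1:ℕ) : ℝ)⌉₊).filter Squarefree, (if m % 8 ∈ ({a} : Finset ℕ) then (jacobiSym (m : ℤ) w : ℝ) else 0) +
        (-1) ^ v * ∑ m ∈ (range ⌈X / ((1:ℕ) : ℝ)⌉₊).filter Squarefree, (if m % 8 ∈ ({(a + 4) % 8} : Finset ℕ) then (jacobiSym (m : ℤ) w : ℝ) else 0))| ≤ 2 * Bd := by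
      rw [abs_mul]
      have h2 : |∑ m ∈ (range ⌈X / ((1:ℕ) : ℝ)⌉₊).filter Squarefree, (if m % 8 ∈ ({a} : Finset ℕ) then (jacobiSym (m : ℤ) w : ℝ) else 0) +
        (-1) ^ v * ∑ m ∈ (range ⌈X / ((1:ℕ) : ℝ)⌉₊).filter Squarefree, (if m % 8 ∈ ({(a + 4) % 8} : Finset ℕ) then (jacobiSym (m : ℤ) w : ℝ) else 0)| ≤ Bd + 1 * Bd := by
        refine (abs_add_le _ _).trans (add_le_add b1 ?_)
        rw [abs_mul]
        exact mul_le_mul hz1 b2 (abs_nonneg _) zero_le_one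
      calc _ ≤ 1 * (Bd + 1 * Bd) := mul_le_mul hj1 h2 (abs_nonneg _) zero_le_one
        _ = 2 * Bd := by ring
    have c4 : ∀ (r : ℕ) (S : Finset ℕ) (M : ℕ), |∑ m ∈ (range M).filter Squarefree, (if m % 8 ∈ S then (jacobiSym (m : ℤ) w : ℝ) else 0)| ≤ Bd →
        |(0:ℝ) ^ v * (jacobiSym (ε * r) w : ℝ) * ∑ m ∈ (range M).filter Squarefree, (if m % 8 ∈ S then (jacobiSym (m : ℤ) w : ℝ) else 0)| ≤ Bd := by
      intro r S M h
      rw [abs_mul, abs_mul]
      calc _ ≤ 1 * 1 * Bd := by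
            refine mul_le_mul (mul_le_mul hz (js_abs _ _) (abs_nonneg _) zero_le_one) h (abs_nonneg _) (by norm_num)
        _ = Bd := by ring
    refine (abs_add_le _ _).trans ?_
    have d2 := (abs_add_le ((0:ℝ) ^ v * (jacobiSym (ε * (4:ℕ)) w : ℝ) * ∑ m ∈ (range ⌈X / ((4:ℕ) : ℝ)⌉₊).filter Squarefree, (if m % 8 ∈ S4 ε then (jacobiSym (m : ℤ) w : ℝ) else 0))
      ((0:ℝ) ^ v * (jacobiSym (ε * (8:ℕ)) w : ℝ) * ∑ m ∈ (range ⌈X / ((8:ℕ) : ℝ)⌉₊).filter Squarefree, (if m % 8 ∈ S8 then (jacobiSym (m : ℤ) w : ℝ) else 0))).trans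
      (add_le_add (c4 4 _ _ b4) (c4 8 _ _ b8))
    have : 20 * Real.sqrt (64 * √(n : ℝ) * (1 + Real.log n) * (X + 1)) = 4 * Bd := by rw [hBd]; ring
    rw [this]
    linarith

/-- the value at a square -/
theorem kron_square {D : ℤ} (hD : IsFund D) {w : ℕ} (hw : w ≠ 0) : kron D (w ^ 2) = if Int.gcd D w = 1 then 1 else 0 := by
  obtain ⟨v, u, h1, h2⟩ := decomp hw
  have hu0 : u ≠ 0 := h2.pos.ne'
  haveI : NeZero u := ⟨hu0⟩
  have e1 : w ^ 2 = 2 ^ (2 * v) * u ^ 2 := by rw [h1]; ring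
  rw [kron_eq D e1 (h2.pow), jacobiSym.pow_right]
  have hgcd : Int.gcd D w = 1 ↔ (D.natAbs.Coprime (2 ^ v) ∧ D.natAbs.Coprime u) := by
    rw [h1]
    have : Int.gcd D ((2 ^ v * u : ℕ) : ℤ) = D.natAbs.gcd (2 ^ v * u) := rfl
    rw [this]
    exact Nat.coprime_mul_iff_right
  have hj : D.natAbs.Coprime u → jacobiSym D u ^ 2 = 1 := fun h => jacobiSym.sq_one h
  have hj0 : ¬ D.natAbs.Coprime u → jacobiSym D u = 0 := fun h => by
    rw [jacobiSym.eq_zero_iff_not_coprime]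
    exact h
  have hs : s2 D = 1 ∨ s2 D = -1 ∨ (s2 D = 0 ∧ D % 4 = 0) := by
    unfold s2
    rcases hD with ⟨h, _⟩ | ⟨m, hm, _⟩
    · have h8 : D % 8 = 1 ∨ D % 8 = 5 := by omega
      rcases h8 with h8 | h8
      · left; rw [if_pos h8]
      · right; left; rw [if_neg (by omega), if_pos h8]
    · right; right
      rw [if_neg (by omega), if_neg (by omega)]
      exact ⟨rfl, by omega⟩
  have hodd : (s2 D = 1 ∨ s2 D = -1) → D.natAbs.Coprime (2 ^ v) := by
    intro h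
    apply Nat.Coprime.pow_right
    rw [Nat.coprime_two_right, Nat.odd_iff]
    have h8 : D % 8 = 1 ∨ D % 8 = 5 := by
      by_contra hcon
      push Not at hcon
      unfold s2 at h
      rw [if_neg hcon.1, if_neg hcon.2] at h
      rcases h with h | h <;> norm_num at h
    omega
  by_cases hc : Int.gcd D w = 1
  · rw [if_pos hc, hj (hgcd.mp hc).2, mul_one, pow_mul]
    rcases hs with h | h | ⟨h, h4⟩
    · rw [h]; norm_num
    · rw [h]; norm_num
    · have hv : v = 0 := by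
        by_contra hv
        have h5 := (hgcd.mp hc).1
        have h6 : D.natAbs.Coprime 2 := Nat.Coprime.coprime_dvd_right (dvd_pow_self 2 hv) h5
        rw [Nat.coprime_two_right, Nat.odd_iff] at h6
        omega
      rw [hv, pow_zero]
  · rw [if_neg hc]
    by_cases hu : D.natAbs.Coprime u
    · have h2v : ¬ D.natAbs.Coprime (2 ^ v) := fun h => hc (hgcd.mpr ⟨h, hu⟩)
      rcases hs with h | h | ⟨h, _⟩
      · exact absurd (hodd (Or.inl h)) h2v
      · exact absurd (hodd (Or.inr h)) h2v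
      · have hv : v ≠ 0 := by
          rintro rfl
          apply h2v
          simp
        rw [h, zero_pow (by omega), zero_mul]
    · rw [hj0 hu]
      simp

end Pool.Agent.R313.QM
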