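import Pool.Agent.R313.QM.H
import Pool.Agent.R313.QM.C
import Pool.Agent.H423R2.RGL.CGF

set_option autoImplicit false
set_option linter.all false

/-! The L-functions of the fundamental discriminants. -/

namespace Pool.Agent.R313.QM

open Finset MeasureTheory
open Pool.Agent.H306R2.RG
open Pool.Agent.H306R2.RZ (js)
open Pool.Agent.W182.KO (dk P TF)

lemma fac_odd {n : ℕ} (hn : n ≠ 0) : Odd (n / 2 ^ (n.factorization 2)) := by
  rw [← Nat.not_even_iff_odd, even_iff_two_dvd]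
  exact Nat.not_dvd_ordCompl Nat.prime_two hn

lemma j4 (a : ℤ) {w : ℕ} (hw : Odd w) : jacobiSym (4 * a) w = jacobiSym a w := by
  rw [jacobiSym.mul_left, jacobiSym.at_four hw, one_mul]

lemma char_aux {D : ℤ} {φ : FD} (hφ : Fam φ) {d : ℕ} (hA : φ.A d) (hs : Squarefree d) (e : φ.r * d = D.natAbs)
    (hv : ∀ n : ℕ, n ≠ 0 → cf φ d n = (kron D n : ℝ)) :
    ∃ (_ : NeZero D.natAbs) (χ : DirichletCharacter ℂ D.natAbs), χ ≠ 1 ∧ ∀ n : ℕ, n ≠ 0 → χ (n : ZMod D.natAbs) = (kron D n : ℂ) := by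
  obtain ⟨h1, χ, h2, h3, h4, h5, h6⟩ := (LnkC.CGF φ hφ).chi d hA hs
  have key : ∃ (_ : NeZero (φ.r * d)) (χ : DirichletCharacter ℂ (φ.r * d)), χ ≠ 1 ∧ ∀ n : ℕ, n ≠ 0 → χ (n : ZMod (φ.r * d)) = (kron D n : ℂ) := by
    refine ⟨h1, χ, h4, fun n hn => ?_⟩
    rw [h5 n hn, hv n hn]
    push_cast
    rfl
  rw [e] at key
  exact key

theorem char_exists {D : ℤ} (hD : IsFund D) (h1 : D ≠ 1) :
    ∃ (_ : NeZero D.natAbs) (χ : DirichletCharacter ℂ D.natAbs), χ ≠ 1 ∧ ∀ n : ℕ, n ≠ 0 → χ (n : ZMod D.natAbs) = (kron D n : ℂ) := by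
  obtain ⟨ε, hε, hDε⟩ : ∃ ε : ℤ, (ε = 1 ∨ ε = -1) ∧ ε * (D.natAbs : ℤ) = D := by
    rcases le_total 0 D with h | h
    · exact ⟨1, Or.inl rfl, by omega⟩
    · exact ⟨-1, Or.inr rfl, by omega⟩
  obtain ⟨N, hN⟩ : ∃ N, N = D.natAbs := ⟨_, rfl⟩
  rw [← hN] at hDε
  have hD' := hD
  rw [← hDε, fund_iff hε] at hD'
  rcases hD' with ⟨m, h2, h3, h4⟩ | ⟨m, h2, h3, h4⟩ | ⟨m, h2, h3, h4⟩
  · rw [one_mul] at h2
    subst h2
    have hns : ¬ IsSquare (ε * (N : ℤ)) := by
      rintro ⟨t, ht⟩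
      have hsq : Squarefree (ε * (N:ℤ)) := (sqf_int hε N).mpr h3
      rw [ht] at hsq
      have hu := hsq t (dvd_refl _)
      rw [Int.isUnit_iff] at hu
      apply h1
      rw [← hDε, ht]
      rcases hu with h | h <;> rw [h] <;> norm_num
    have h8 : (ε * (N : ℤ)) % 8 = 1 ∨ (ε * (N : ℤ)) % 8 = 5 := by
      rcases hε with h | h <;> subst h <;> simp [S1] at h4 <;> omega
    rcases h8 with h8 | h8
    · refine char_aux (φ := F1 ε 1) ⟨ε, hε, Or.inr (Or.inr (Or.inl rfl))⟩ (d := N) ⟨h8, hns⟩ h3 ?_ ?_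
      · show 1 * N = D.natAbs
        rw [one_mul, hN]
      · intro n hn
        have ho := fac_odd hn
        show (if (1:ℤ) = 1 then (1:ℝ) else -1) ^ (n.factorization 2) * (if Odd (n / 2 ^ (n.factorization 2)) then js (ε * (N : ℤ)) (n / 2 ^ (n.factorization 2)) else 0) = _
        rw [if_pos rfl, if_pos ho]
        unfold kron js
        rw [← hDε, if_pos h8]
        push_cast
        ring
    · refine char_aux (φ := F1 ε 5) ⟨ε, hε, Or.inr (Or.inr (Or.inr rfl))⟩ (d := N) ⟨h8, hns⟩ h3 ?_ ?_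
      · show 1 * N = D.natAbs
        rw [one_mul, hN]
      · intro n hn
        have ho := fac_odd hn
        show (if (5:ℤ) = 1 then (1:ℝ) else -1) ^ (n.factorization 2) * (if Odd (n / 2 ^ (n.factorization 2)) then js (ε * (N : ℤ)) (n / 2 ^ (n.factorization 2)) else 0) = _
        rw [if_neg (by norm_num), if_pos ho]
        unfold kron js
        rw [← hDε, if_neg (by omega), if_pos h8]
        push_cast
        ring
  · have h3' : (ε * (m : ℤ)) % 4 = 3 := by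
      rcases hε with h | h <;> subst h <;> simp [S4] at h4 <;> omega
    refine char_aux (φ := F4 ε) ⟨ε, hε, Or.inr (Or.inl rfl)⟩ (d := m) h3' h3 ?_ ?_
    · show 4 * m = D.natAbs
      rw [← hN, h2]
    · intro n hn
      have ho := fac_odd hn
      show (0:ℝ) ^ (n.factorization 2) * (if Odd (n / 2 ^ (n.factorization 2)) then js (ε * (m : ℤ)) (n / 2 ^ (n.factorization 2)) else 0) = _
      rw [if_pos ho]
      have hDm : D = 4 * (ε * (m:ℤ)) := by rw [← hDε, h2]; push_cast; ring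
      unfold kron js
      rw [if_neg (by omega), if_neg (by omega), hDm, j4 _ ho]
      push_cast
      ring
  · rw [mem_S8] at h4
    have hod : Odd m := by rw [Nat.odd_iff]; omega
    refine char_aux (φ := F8 ε) ⟨ε, hε, Or.inl rfl⟩ (d := m) hod h3 ?_ ?_
    · show 8 * m = D.natAbs
      rw [← hN, h2]
    · intro n hn
      have ho := fac_odd hn
      show (0:ℝ) ^ (n.factorization 2) * (if Odd (n / 2 ^ (n.factorization 2)) then js (2 * ε * (m : ℤ)) (n / 2 ^ (n.factorization 2)) else 0) = _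
      rw [if_pos ho]
      have hDm : D = 4 * (2 * ε * (m:ℤ)) := by rw [← hDε, h2]; push_cast; ring
      unfold kron js
      rw [if_neg (by omega), if_neg (by omega), hDm, j4 _ ho]
      push_cast
      ring

/-- the L-function of the fundamental discriminant `D` -/
noncomputable def LD (D : ℤ) (s : ℂ) : ℂ :=
  if h : D.natAbs ≠ 0 then
    (haveI : NeZero D.natAbs := ⟨h⟩
     ZMod.LFunction (fun a : ZMod D.natAbs => (kron D (a.val + D.natAbs) : ℂ)) s)
  else 0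

lemma LD_eq {D : ℤ} [hne : NeZero D.natAbs] (χ : DirichletCharacter ℂ D.natAbs)
    (hχ : ∀ n : ℕ, n ≠ 0 → χ (n : ZMod D.natAbs) = (kron D n : ℂ)) (s : ℂ) : LD D s = DirichletCharacter.LFunction χ s := by
  unfold LD
  rw [dif_pos hne.out]
  have e1 : (fun a : ZMod D.natAbs => (kron D (a.val + D.natAbs) : ℂ)) = fun a => χ a := by
    funext a
    have h1 : a.val + D.natAbs ≠ 0 := by
      have := hne.out
      omega
    rw [← hχ _ h1]
    congr 1
    rw [Nat.cast_add, ZMod.natCast_self, add_zero, ZMod.natCast_zmod_val]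
  rw [e1]
  rfl

/-- the exact formula for one discriminant -/
theorem exact_D {ξ1 : ℝ} {ψ : ℝ → ℂ} (h : TF ξ1 ψ) {D : ℤ} (hD : IsFund D) (h1 : D ≠ 1) (k : ℕ) {L : ℝ} (hL : 1 ≤ L) :
    Integrable (fun y : ℝ => P ψ (L * y * Complex.I) * LD D (1 / 2 + y * Complex.I) ^ k) ∧
    ∫ y : ℝ, P ψ (L * y * Complex.I) * LD D (1 / 2 + y * Complex.I) ^ k =
      (2 * Real.pi / L : ℝ) * ∑' n : ℕ, (dk k n : ℂ) * (kron D n : ℂ) / (Real.sqrt n : ℂ) * ψ (Real.log n / L) := by
  obtain ⟨hne, χ, hχ1, hχ⟩ := char_exists hD h1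
  have e1 : ∀ s, LD D s = DirichletCharacter.LFunction χ s := fun s => LD_eq χ hχ s
  simp_rw [e1]
  obtain ⟨i1, i2⟩ := exact_pow h χ hχ1 k hL
  refine ⟨i1, ?_⟩
  rw [i2]
  congr 1
  refine tsum_congr fun n => ?_
  rcases Nat.eq_zero_or_pos n with h0 | h0
  · subst h0
    simp
  · unfold ac
    rw [hχ n h0.ne']

end Pool.Agent.R313.QM
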