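import Pool.Agent.R313.QM.I
import Pool.Agent.W182.KO.Fin1

set_option autoImplicit false
set_option linter.all false

/-! The average over the fundamental discriminants: explicit form. -/

namespace Pool.Agent.R313.QM

open Finset MeasureTheory
open Pool.Agent.W182.KO (dk P TF tau tau_ptw tau_neg_zero)

lemma sum_rpow (Y : ℕ) : ∑ n ∈ Icc 1 Y, (n : ℝ) ^ (-(1 / 4 : ℝ)) ≤ 4 / 3 * (Y : ℝ) ^ (3 / 4 : ℝ) := by
  induction Y with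
  | zero => simp
  | succ Y ih =>
    rw [Finset.sum_Icc_succ_top (by omega)]
    have hY : (0:ℝ) < ((Y + 1 : ℕ) : ℝ) := by positivity
    have h1 : (Y : ℝ) ^ (3 / 4 : ℝ) ≤ ((Y + 1 : ℕ) : ℝ) ^ (3 / 4 : ℝ) - 3 / 4 * ((Y + 1 : ℕ) : ℝ) ^ (-(1 / 4 : ℝ)) := by
      have e1 : (Y : ℝ) = ((Y + 1 : ℕ) : ℝ) * (1 + -(1 / ((Y + 1 : ℕ) : ℝ))) := by
        push_cast
        have : (Y : ℝ) + 1 ≠ 0 := by positivity
        field_simp
        ring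
      have h0 : 0 ≤ 1 + -(1 / ((Y + 1 : ℕ) : ℝ)) := by
        have : 1 / ((Y + 1 : ℕ) : ℝ) ≤ 1 := by
          rw [div_le_one hY]
          push_cast
          linarith [Nat.cast_nonneg (α := ℝ) Y]
        linarith
      have h2 := rpow_one_add_le_one_add_mul_self (s := -(1 / ((Y + 1 : ℕ) : ℝ))) (by linarith) (p := 3 / 4) (by norm_num) (by norm_num)
      have h3 : ((Y + 1 : ℕ) : ℝ) ^ (-(1 / 4 : ℝ)) = ((Y + 1 : ℕ) : ℝ) ^ (3 / 4 : ℝ) * (1 / ((Y + 1 : ℕ) : ℝ)) := by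
        rw [one_div ((Y + 1 : ℕ) : ℝ), ← Real.rpow_neg_one, ← Real.rpow_add hY]
        norm_num
      calc (Y : ℝ) ^ (3 / 4 : ℝ) = (((Y + 1 : ℕ) : ℝ) * (1 + -(1 / ((Y + 1 : ℕ) : ℝ)))) ^ (3 / 4 : ℝ) := by rw [← e1]
        _ = ((Y + 1 : ℕ) : ℝ) ^ (3 / 4 : ℝ) * (1 + -(1 / ((Y + 1 : ℕ) : ℝ))) ^ (3 / 4 : ℝ) := Real.mul_rpow hY.le h0
        _ ≤ ((Y + 1 : ℕ) : ℝ) ^ (3 / 4 : ℝ) * (1 + 3 / 4 * -(1 / ((Y + 1 : ℕ) : ℝ))) := by gcongr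
        _ = _ := by rw [h3]; ring
    have h4 : ∑ n ∈ Icc 1 Y, (n : ℝ) ^ (-(1 / 4 : ℝ)) ≤ 4 / 3 * (((Y + 1 : ℕ) : ℝ) ^ (3 / 4 : ℝ) - 3 / 4 * ((Y + 1 : ℕ) : ℝ) ^ (-(1 / 4 : ℝ))) :=
      ih.trans (mul_le_mul_of_nonneg_left h1 (by norm_num))
    linarith

/-- the fundamental discriminants `D ≠ 1` of sign `ε` with `|D| < X` -/
noncomputable def SX (ε : ℤ) (X : ℝ) : Finset ℤ := (SX0 ε X).erase 1

lemma mem_SX {ε : ℤ} {X : ℝ} {D : ℤ} (h : D ∈ SX ε X) : IsFund D ∧ D ≠ 1 := by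
  unfold SX at h
  rw [mem_erase] at h
  have h2 := h.2
  unfold SX0 at h2
  exact ⟨(@mem_filter _ _ (_) _ _).mp h2 |>.2.1, h.1⟩

lemma K_bound {κ : ℝ} (hκ : 0 < κ) : ∃ C : ℝ, 0 ≤ C ∧ ∀ ε : ℤ, (ε = 1 ∨ ε = -1) → ∀ X : ℝ, 1 ≤ X → ∀ n : ℕ, n ≠ 0 → ¬ IsSquare n →
    |∑ D ∈ SX ε X, (kron D n : ℝ)| ≤ C * (X ^ (1 / 2 : ℝ) * (n : ℝ) ^ (1 / 4 + κ)) := by
  refine ⟨20 * 8 * Real.sqrt ((1 + 1 / (2 * κ)) * 2) + 1, by positivity, fun ε hε X hX n hn hsq => ?_⟩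
  have hX0 : 0 < X := by linarith
  have hn1 : (1:ℝ) ≤ n := by exact_mod_cast Nat.pos_of_ne_zero hn
  have hn0 : (0:ℝ) < n := by linarith
  have h1 := K0_bound hε hX0.le hn hsq
  have h2 : |∑ D ∈ SX ε X, (kron D n : ℝ)| ≤ |∑ D ∈ SX0 ε X, (kron D n : ℝ)| + 1 := by
    unfold SX
    by_cases hm : (1:ℤ) ∈ SX0 ε X
    · have h3 := add_sum_erase _ (fun D => (kron D n : ℝ)) hm
      have h4 := kron_abs 1 hn
      have h5 : ∑ D ∈ (SX0 ε X).erase 1, (kron D n : ℝ) = ∑ D ∈ SX0 ε X, (kron D n : ℝ) - (kron 1 n : ℝ) := by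
        rw [← h3]; ring
      rw [h5]
      exact (abs_sub _ _).trans (by linarith)
    · rw [erase_eq_of_notMem hm]
      linarith
  have h3 : 1 + Real.log n ≤ (1 + 1 / (2 * κ)) * (n : ℝ) ^ (2 * κ) := by
    have a1 := Real.log_le_rpow_div hn0.le (show 0 < 2 * κ by positivity)
    have a2 : 1 ≤ (n : ℝ) ^ (2 * κ) := Real.one_le_rpow hn1 (by positivity)
    calc 1 + Real.log n ≤ (n : ℝ) ^ (2 * κ) + (n : ℝ) ^ (2 * κ) / (2 * κ) := add_le_add a2 a1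
      _ = _ := by ring
  have h4 : Real.sqrt (64 * √(n : ℝ) * (1 + Real.log n) * (X + 1)) ≤
      8 * Real.sqrt ((1 + 1 / (2 * κ)) * 2) * (X ^ (1 / 2 : ℝ) * (n : ℝ) ^ (1 / 4 + κ)) := by
    apply Real.sqrt_le_iff.mpr
    refine ⟨by positivity, ?_⟩
    have e1 : (8 * Real.sqrt ((1 + 1 / (2 * κ)) * 2) * (X ^ (1 / 2 : ℝ) * (n : ℝ) ^ (1 / 4 + κ))) ^ 2 =
        64 * ((1 + 1 / (2 * κ)) * 2) * (X * ((n : ℝ) ^ (1 / 2 : ℝ) * (n : ℝ) ^ (2 * κ))) := by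
      rw [mul_pow, mul_pow, mul_pow, Real.sq_sqrt (by positivity), ← Real.rpow_natCast (X ^ (1 / 2 : ℝ)), ← Real.rpow_mul hX0.le,
        ← Real.rpow_natCast ((n:ℝ) ^ (1 / 4 + κ)), ← Real.rpow_mul hn0.le, ← Real.rpow_add hn0]
      have b1 : (1 / 2 : ℝ) * ((2 : ℕ) : ℝ) = 1 := by norm_num
      have b2 : (1 / 4 + κ) * ((2 : ℕ) : ℝ) = 1 / 2 + 2 * κ := by push_cast; ring
      rw [b1, b2, Real.rpow_one]
      norm_num
    rw [e1, Real.sqrt_eq_rpow]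
    calc 64 * (n : ℝ) ^ (1 / 2 : ℝ) * (1 + Real.log n) * (X + 1) ≤
          64 * (n : ℝ) ^ (1 / 2 : ℝ) * ((1 + 1 / (2 * κ)) * (n : ℝ) ^ (2 * κ)) * (2 * X) := by
          have : X + 1 ≤ 2 * X := by linarith
          have hl : 0 ≤ Real.log n := Real.log_nonneg hn1
          gcongr
      _ = _ := by ring
  have h5 : 1 ≤ X ^ (1 / 2 : ℝ) * (n : ℝ) ^ (1 / 4 + κ) :=
    one_le_mul_of_one_le_of_one_le (Real.one_le_rpow hX (by norm_num)) (Real.one_le_rpow hn1 (by positivity))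
  calc |∑ D ∈ SX ε X, (kron D n : ℝ)| ≤ 20 * (8 * Real.sqrt ((1 + 1 / (2 * κ)) * 2) * (X ^ (1 / 2 : ℝ) * (n : ℝ) ^ (1 / 4 + κ))) + 1 * (X ^ (1 / 2 : ℝ) * (n : ℝ) ^ (1 / 4 + κ)) := by
        rw [one_mul]
        refine h2.trans (add_le_add (h1.trans ?_) h5)
        exact mul_le_mul_of_nonneg_left h4 (by norm_num)
    _ = _ := by ring

/-- the main term -/
noncomputable def MT (k : ℕ) (ψ : ℝ → ℂ) (ε : ℤ) (X : ℝ) : ℂ :=
  ∑' m : ℕ, (dk k (m ^ 2) : ℂ) / m * ψ (2 * Real.log m / Real.log X) * (((SX ε X).filter (fun D => Int.gcd D m = 1)).card : ℂ)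

/-- **the explicit form** -/
theorem explicit {θ : ℝ} {ψ : ℝ → ℂ} (h : TF θ ψ) (hθ : 0 ≤ θ) (k : ℕ) {η : ℝ} (hη : 0 < η) :
    ∃ C : ℝ, 0 ≤ C ∧ ∀ ε : ℤ, (ε = 1 ∨ ε = -1) → ∀ X : ℝ, Real.exp 1 ≤ X →
      ‖(Real.log X : ℂ) * ∑ D ∈ SX ε X, (∫ y : ℝ, P ψ (Real.log X * y * Complex.I) * LD D (1 / 2 + y * Complex.I) ^ k) -
        2 * Real.pi * MT k ψ ε X‖ ≤ C * X ^ (1 / 2 + 3 / 4 * θ + η) := by
  obtain ⟨κ, hκ⟩ : ∃ κ : ℝ, κ = η / (2 * (θ + 1)) := ⟨_, rfl⟩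
  have hκ0 : 0 < κ := by rw [hκ]; positivity
  have hκη : 2 * κ * θ ≤ η := by
    rw [hκ]
    have : 2 * (η / (2 * (θ + 1))) * θ = η * (θ / (θ + 1)) := by field_simp
    rw [this]
    have h1 : θ / (θ + 1) ≤ 1 := by rw [div_le_one (by linarith)]; linarith
    nlinarith
  obtain ⟨CK, hCK, hK⟩ := K_bound hκ0
  obtain ⟨CD, hCD, hDv⟩ := tau_ptw k hκ0
  obtain ⟨Mψ, hMψ⟩ := h.cs.exists_bound_of_continuous h.cont
  have hM0 : 0 ≤ Mψ := (norm_nonneg _).trans (hMψ 0)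
  refine ⟨2 * Real.pi * (CD * Mψ * CK * (4 / 3)), by positivity, fun ε hε X hX => ?_⟩
  have hX1 : 1 ≤ X := by have := Real.add_one_le_exp 1; linarith
  have hX0 : 0 < X := by linarith
  have hL : 1 ≤ Real.log X := by
    rw [Real.le_log_iff_exp_le hX0]; exact hX
  obtain ⟨L, hLd⟩ : ∃ L, L = Real.log X := ⟨_, rfl⟩
  have hLM : ∀ (D : ℤ), D ∈ SX ε X → ∫ y : ℝ, P ψ (Real.log X * y * Complex.I) * LD D (1 / 2 + y * Complex.I) ^ k =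
      (2 * Real.pi / Real.log X : ℝ) * ∑' n : ℕ, (dk k n : ℂ) * (kron D n : ℂ) / (Real.sqrt n : ℂ) * ψ (Real.log n / Real.log X) := by
    intro D hD
    obtain ⟨h1, h2⟩ := mem_SX hD
    exact (exact_D h h1 h2 k hL).2
  obtain ⟨Y, hY⟩ : ∃ Y : ℕ, Y = ⌊X ^ θ⌋₊ := ⟨_, rfl⟩
  have hXθ : 0 < X ^ θ := by positivity
  have hYle : (Y : ℝ) ≤ X ^ θ := by rw [hY]; exact Nat.floor_le hXθ.le
  -- the weight vanishes for `n > Y`
  have hψ0 : ∀ n : ℕ, Y < n → ψ (Real.log n / Real.log X) = 0 := by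
    intro n hn
    apply h.sp
    rw [lt_div_iff₀ (by linarith)]
    have h1 : X ^ θ < n := by
      rw [hY] at hn
      exact (Nat.floor_lt hXθ.le).mp hn
    have h2 := Real.log_lt_log hXθ h1
    rwa [Real.log_rpow hX0] at h2
  obtain ⟨w, hw⟩ : ∃ w : ℕ → ℂ, ∀ n, w n = (dk k n : ℂ) / (Real.sqrt n : ℂ) * ψ (Real.log n / Real.log X) := ⟨_, fun _ => rfl⟩
  have hts : ∀ D : ℤ, ∑' n : ℕ, (dk k n : ℂ) * (kron D n : ℂ) / (Real.sqrt n : ℂ) * ψ (Real.log n / Real.log X) =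
      ∑ n ∈ Icc 1 Y, w n * (kron D n : ℂ) := by
    intro D
    rw [tsum_eq_sum (s := Icc 1 Y)]
    · refine sum_congr rfl fun n _ => ?_
      rw [hw]; ring
    · intro n hn
      rw [mem_Icc, not_and_or, not_le, not_le] at hn
      rcases hn with hn | hn
      · have : n = 0 := by omega
        subst this
        simp
      · rw [hψ0 n hn, mul_zero]
  have hLc : (L : ℂ) ≠ 0 := by
    have : L ≠ 0 := by rw [hLd]; linarith
    exact_mod_cast this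
  have e1 : (Real.log X : ℂ) * ∑ D ∈ SX ε X, (∫ y : ℝ, P ψ (Real.log X * y * Complex.I) * LD D (1 / 2 + y * Complex.I) ^ k) =
      2 * Real.pi * ∑ n ∈ Icc 1 Y, w n * ∑ D ∈ SX ε X, (kron D n : ℂ) := by
    rw [sum_congr rfl hLM]
    simp_rw [hts]
    rw [← mul_sum, sum_comm]
    simp_rw [← mul_sum]
    rw [← hLd, ← mul_assoc]
    congr 1
    push_cast
    field_simp
  -- squares
  obtain ⟨c, hc⟩ : ∃ c : ℕ → ℂ, ∀ m, c m = (((SX ε X).filter (fun D => Int.gcd D m = 1)).card : ℂ) := ⟨_, fun _ => rfl⟩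
  have hKsq : ∀ m : ℕ, m ≠ 0 → ∑ D ∈ SX ε X, (kron D (m ^ 2) : ℂ) = c m := by
    intro m hm
    rw [hc, card_filter]
    push_cast
    refine sum_congr rfl fun D hD => ?_
    rw [kron_square (mem_SX hD).1 hm]
    split_ifs <;> simp
  have e2 : MT k ψ ε X = ∑ m ∈ Icc 1 (Nat.sqrt Y), w (m ^ 2) * ∑ D ∈ SX ε X, (kron D (m ^ 2) : ℂ) := by
    unfold MT
    rw [tsum_eq_sum (s := Icc 1 (Nat.sqrt Y))]
    · refine sum_congr rfl fun m hm => ?_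
      have hm0 : m ≠ 0 := by rw [mem_Icc] at hm; omega
      rw [hKsq m hm0, hw, hc]
      have a1 : Real.sqrt ((m ^ 2 : ℕ) : ℝ) = m := by
        push_cast
        exact Real.sqrt_sq (Nat.cast_nonneg m)
      have a2 : Real.log ((m ^ 2 : ℕ) : ℝ) = 2 * Real.log m := by
        push_cast
        rw [Real.log_pow]
        norm_num
      rw [a1, a2]
      push_cast
      rfl
    · intro m hm
      rw [mem_Icc, not_and_or, not_le, not_le] at hm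
      rcases hm with hm | hm
      · have : m = 0 := by omega
        subst this
        simp
      · have h1 : Y < m ^ 2 := by
          rw [sq]
          exact Nat.sqrt_lt.1 hm
        have h2 := hψ0 (m ^ 2) h1
        have a2 : Real.log ((m ^ 2 : ℕ) : ℝ) = 2 * Real.log m := by
          push_cast
          rw [Real.log_pow]
          norm_num
        rw [a2] at h2
        rw [h2, mul_zero, zero_mul]
  have e3 : ∑ n ∈ (Icc 1 Y).filter (fun n => IsSquare n), w n * ∑ D ∈ SX ε X, (kron D n : ℂ) =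
      ∑ m ∈ Icc 1 (Nat.sqrt Y), w (m ^ 2) * ∑ D ∈ SX ε X, (kron D (m ^ 2) : ℂ) := by
    have e4 : (Icc 1 Y).filter (fun n => IsSquare n) = (Icc 1 (Nat.sqrt Y)).image (fun m => m ^ 2) := by
      ext n
      rw [mem_filter, mem_Icc, mem_image]
      constructor
      · rintro ⟨⟨h1, h2⟩, m, rfl⟩
        refine ⟨m, ?_, by ring⟩
        rw [mem_Icc]
        constructor
        · rcases Nat.eq_zero_or_pos m with h0 | h0
          · subst h0; omega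
          · exact h0
        · rw [Nat.le_sqrt]
          exact h2
      · rintro ⟨m, hm, rfl⟩
        rw [mem_Icc] at hm
        have h1 := hm.1
        have h2 := hm.2
        rw [Nat.le_sqrt] at h2
        refine ⟨⟨?_, by rw [sq]; exact h2⟩, m, by ring⟩
        exact Nat.one_le_pow _ _ h1
    rw [e4, sum_image]
    intro a _ b _ hab
    exact Nat.pow_left_injective (n := 2) (by norm_num) hab
  rw [e1, e2, ← e3, ← sum_filter_add_sum_filter_not (Icc 1 Y) (fun n => IsSquare n)]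
  rw [mul_add, add_sub_cancel_left, norm_mul]
  -- the non-squares
  have hterm : ∀ n ∈ (Icc 1 Y).filter (fun n => ¬ IsSquare n), ‖w n * ∑ D ∈ SX ε X, (kron D n : ℂ)‖ ≤
      (CD * Mψ * CK) * (X ^ (1 / 2 : ℝ) * (X ^ θ) ^ (2 * κ)) * (n : ℝ) ^ (-(1 / 4 : ℝ)) := by
    intro n hn
    rw [mem_filter, mem_Icc] at hn
    obtain ⟨⟨h1, h2⟩, h3⟩ := hn
    have hn0 : n ≠ 0 := by omega
    have hnr : (0:ℝ) < n := by exact_mod_cast Nat.pos_of_ne_zero hn0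
    have b1 : ‖(dk k n : ℂ)‖ ≤ CD * (n : ℝ) ^ κ := by
      have := hDv (fun _ => 0) n
      rw [tau_neg_zero] at this
      exact this
    have b2 : ‖∑ D ∈ SX ε X, (kron D n : ℂ)‖ ≤ CK * (X ^ (1 / 2 : ℝ) * (n : ℝ) ^ (1 / 4 + κ)) := by
      have h4 := hK ε hε X hX1 n hn0 h3
      have e5 : ∑ D ∈ SX ε X, (kron D n : ℂ) = ((∑ D ∈ SX ε X, (kron D n : ℝ) : ℝ) : ℂ) := by push_cast; rfl
      rw [e5, Complex.norm_real, Real.norm_eq_abs]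
      exact h4
    have b3 : ‖((Real.sqrt n : ℝ) : ℂ)‖ = (n : ℝ) ^ (1 / 2 : ℝ) := by
      rw [Complex.norm_real, Real.norm_of_nonneg (Real.sqrt_nonneg _), Real.sqrt_eq_rpow]
    have b4 : (n : ℝ) ^ (2 * κ) ≤ (X ^ θ) ^ (2 * κ) := by
      have : (n : ℝ) ≤ X ^ θ := le_trans (by exact_mod_cast h2) hYle
      gcongr
    rw [norm_mul, hw, norm_mul, norm_div, b3]
    calc ‖(dk k n : ℂ)‖ / (n : ℝ) ^ (1 / 2 : ℝ) * ‖ψ (Real.log n / Real.log X)‖ * ‖∑ D ∈ SX ε X, (kron D n : ℂ)‖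
        ≤ (CD * (n : ℝ) ^ κ) / (n : ℝ) ^ (1 / 2 : ℝ) * Mψ * (CK * (X ^ (1 / 2 : ℝ) * (n : ℝ) ^ (1 / 4 + κ))) := by
          gcongr
          exact hMψ _
      _ = (CD * Mψ * CK) * (X ^ (1 / 2 : ℝ) * ((n : ℝ) ^ κ / (n : ℝ) ^ (1 / 2 : ℝ) * (n : ℝ) ^ (1 / 4 + κ))) := by ring
      _ = (CD * Mψ * CK) * (X ^ (1 / 2 : ℝ) * ((n : ℝ) ^ (2 * κ) * (n : ℝ) ^ (-(1 / 4 : ℝ)))) := by
          rw [← Real.rpow_sub hnr, ← Real.rpow_add hnr, ← Real.rpow_add hnr]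
          congr 3
          ring
      _ ≤ (CD * Mψ * CK) * (X ^ (1 / 2 : ℝ) * ((X ^ θ) ^ (2 * κ) * (n : ℝ) ^ (-(1 / 4 : ℝ)))) := by gcongr
      _ = _ := by ring
  have hsum : ‖∑ n ∈ (Icc 1 Y).filter (fun n => ¬ IsSquare n), w n * ∑ D ∈ SX ε X, (kron D n : ℂ)‖ ≤
      (CD * Mψ * CK) * (X ^ (1 / 2 : ℝ) * (X ^ θ) ^ (2 * κ)) * (4 / 3 * (X ^ θ) ^ (3 / 4 : ℝ)) := by
    refine (norm_sum_le_of_le _ hterm).trans ?_
    rw [← mul_sum]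
    refine mul_le_mul_of_nonneg_left ?_ (by positivity)
    calc ∑ n ∈ (Icc 1 Y).filter (fun n => ¬ IsSquare n), (n : ℝ) ^ (-(1 / 4 : ℝ)) ≤ ∑ n ∈ Icc 1 Y, (n : ℝ) ^ (-(1 / 4 : ℝ)) :=
          sum_le_sum_of_subset_of_nonneg (filter_subset _ _) fun n _ _ => by positivity
      _ ≤ 4 / 3 * (Y : ℝ) ^ (3 / 4 : ℝ) := sum_rpow Y
      _ ≤ 4 / 3 * (X ^ θ) ^ (3 / 4 : ℝ) := by gcongr
  have hexp : X ^ (1 / 2 : ℝ) * (X ^ θ) ^ (2 * κ) * (X ^ θ) ^ (3 / 4 : ℝ) ≤ X ^ (1 / 2 + 3 / 4 * θ + η) := by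
    rw [← Real.rpow_mul hX0.le, ← Real.rpow_mul hX0.le, ← Real.rpow_add hX0, ← Real.rpow_add hX0]
    apply Real.rpow_le_rpow_of_exponent_le hX1
    nlinarith
  have hnpi : ‖(2 * Real.pi : ℂ)‖ = 2 * Real.pi := by
    rw [norm_mul, Complex.norm_ofNat, Complex.norm_real, Real.norm_of_nonneg Real.pi_pos.le]
  rw [hnpi]
  calc 2 * Real.pi * ‖∑ n ∈ (Icc 1 Y).filter (fun n => ¬ IsSquare n), w n * ∑ D ∈ SX ε X, (kron D n : ℂ)‖
      ≤ 2 * Real.pi * ((CD * Mψ * CK) * (X ^ (1 / 2 : ℝ) * (X ^ θ) ^ (2 * κ)) * (4 / 3 * (X ^ θ) ^ (3 / 4 : ℝ))) := by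
        gcongr
    _ = 2 * Real.pi * (CD * Mψ * CK * (4 / 3)) * (X ^ (1 / 2 : ℝ) * (X ^ θ) ^ (2 * κ) * (X ^ θ) ^ (3 / 4 : ℝ)) := by ring
    _ ≤ _ := by gcongr

end Pool.Agent.R313.QM
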