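import Pool.Agent.R313.QM.N

set_option autoImplicit false
set_option linter.all false

/-! The average over the fundamental discriminants: the main term in closed form. -/

namespace Pool.Agent.R313.QM

open Finset MeasureTheory
open Pool.Agent.W182.KO (dk P TF tau tau_ptw tau_neg_zero)

lemma count_bd {ε : ℤ} (hε : ε = 1 ∨ ε = -1) {m : ℕ} (hm : m ≠ 0) {X : ℝ} (hX : 1 ≤ X) :
    |(((SX ε X).filter (fun D => Int.gcd D m = 1)).card : ℝ) - dens m * X| ≤ 200 * (Real.sqrt m * Real.sqrt X) := by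
  classical
  have h2 := fund_count hε hm (show 0 ≤ X by linarith)
  have h3 : |∑ D ∈ SX ε X, (if Int.gcd D m = 1 then (1:ℝ) else 0) - ∑ D ∈ SX0 ε X, (if Int.gcd D m = 1 then (1:ℝ) else 0)| ≤ 1 := by
    unfold SX
    by_cases hmem : (1:ℤ) ∈ SX0 ε X
    · have h3 := add_sum_erase _ (fun D : ℤ => if Int.gcd D m = 1 then (1:ℝ) else 0) hmem
      rw [← h3, sub_add_cancel_right, abs_neg]
      split_ifs <;> simp
    · rw [erase_eq_of_notMem hmem]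
      simp
  have h1 : ((((SX ε X).filter (fun D => Int.gcd D m = 1)).card : ℕ) : ℝ) = ∑ D ∈ SX ε X, (if Int.gcd D m = 1 then (1:ℝ) else 0) := by
    rw [card_filter]
    push_cast
    rfl
  have h4 := card_div_le m
  have h5 : Real.sqrt (X + 1) ≤ 2 * Real.sqrt X := by
    apply Real.sqrt_le_iff.mpr
    refine ⟨by positivity, ?_⟩
    rw [mul_pow, Real.sq_sqrt (by linarith)]
    linarith
  have h6 : 1 ≤ Real.sqrt X := by rw [Real.one_le_sqrt]; exact hX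
  have h7 : 1 ≤ Real.sqrt m := by
    rw [Real.one_le_sqrt]
    exact_mod_cast Nat.pos_of_ne_zero hm
  rw [h1]
  have e : ∑ D ∈ SX ε X, (if Int.gcd D m = 1 then (1:ℝ) else 0) - dens m * X =
      (∑ D ∈ SX ε X, (if Int.gcd D m = 1 then (1:ℝ) else 0) - ∑ D ∈ SX0 ε X, (if Int.gcd D m = 1 then (1:ℝ) else 0)) +
      (∑ D ∈ SX0 ε X, (if Int.gcd D m = 1 then (1:ℝ) else 0) - dens m * X) := by ring
  rw [e]
  refine (abs_add_le _ _).trans ((add_le_add h3 h2).trans ?_)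
  have h8 : 48 * (m.divisors.card : ℝ) * Real.sqrt (X + 1) ≤ 48 * (2 * Real.sqrt m) * (2 * Real.sqrt X) := by gcongr
  have h9 : (1:ℝ) ≤ Real.sqrt m * Real.sqrt X := one_le_mul_of_one_le_of_one_le h7 h6
  nlinarith

/-- the main term, with the density -/
noncomputable def MT2 (k : ℕ) (ψ : ℝ → ℂ) (X : ℝ) : ℂ :=
  ∑' m : ℕ, (dk k (m ^ 2) : ℂ) / m * ψ (2 * Real.log m / Real.log X) * (((3 / Real.pi ^ 2 * ∏ p ∈ m.primeFactors, ((p : ℝ) / (p + 1))) * X : ℝ) : ℂ)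

theorem MT_MT2 {θ : ℝ} {ψ : ℝ → ℂ} (h : TF θ ψ) (hθ : 0 ≤ θ) (k : ℕ) {η : ℝ} (hη : 0 < η) :
    ∃ C : ℝ, 0 ≤ C ∧ ∀ ε : ℤ, (ε = 1 ∨ ε = -1) → ∀ X : ℝ, Real.exp 1 ≤ X →
      ‖MT k ψ ε X - MT2 k ψ X‖ ≤ C * X ^ (1 / 2 + 3 / 4 * θ + η) := by
  obtain ⟨κ, hκ⟩ : ∃ κ : ℝ, κ = η / (2 * (θ + 1)) := ⟨_, rfl⟩
  have hκ0 : 0 < κ := by rw [hκ]; positivity
  have hκη : 2 * κ * θ ≤ η := by
    rw [hκ]
    have : 2 * (η / (2 * (θ + 1))) * θ = η * (θ / (θ + 1)) := by field_simp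
    rw [this]
    have h1 : θ / (θ + 1) ≤ 1 := by rw [div_le_one (by linarith)]; linarith
    nlinarith
  obtain ⟨CD, hCD, hDv⟩ := tau_ptw k hκ0
  obtain ⟨Mψ, hMψ⟩ := h.cs.exists_bound_of_continuous h.cont
  have hM0 : 0 ≤ Mψ := (norm_nonneg _).trans (hMψ 0)
  refine ⟨CD * Mψ * 200, by positivity, fun ε hε X hX => ?_⟩
  have hX1 : 1 ≤ X := by have := Real.add_one_le_exp 1; linarith
  have hX0 : 0 < X := by linarith
  have hL : 1 ≤ Real.log X := by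
    rw [Real.le_log_iff_exp_le hX0]; exact hX
  obtain ⟨Y, hY⟩ : ∃ Y : ℕ, Y = ⌊X ^ (θ / 2)⌋₊ := ⟨_, rfl⟩
  have hXθ : 0 < X ^ (θ / 2) := by positivity
  have hYle : (Y : ℝ) ≤ X ^ (θ / 2) := by rw [hY]; exact Nat.floor_le hXθ.le
  have hψ0 : ∀ m : ℕ, Y < m → ψ (2 * Real.log m / Real.log X) = 0 := by
    intro n hn
    apply h.sp
    rw [lt_div_iff₀ (by linarith)]
    have h1 : X ^ (θ / 2) < n := by
      rw [hY] at hn
      exact (Nat.floor_lt hXθ.le).mp hn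
    have h2 := Real.log_lt_log hXθ h1
    rw [Real.log_rpow hX0] at h2
    linarith
  have hz : ∀ m ∉ Icc 1 Y, (dk k (m ^ 2) : ℂ) / m * ψ (2 * Real.log m / Real.log X) = 0 := by
    intro m hm
    rw [mem_Icc, not_and_or, not_le, not_le] at hm
    rcases hm with hm | hm
    · have : m = 0 := by omega
      subst this
      simp
    · rw [hψ0 m hm, mul_zero]
  have e1 : MT k ψ ε X = ∑ m ∈ Icc 1 Y, (dk k (m ^ 2) : ℂ) / m * ψ (2 * Real.log m / Real.log X) * (((SX ε X).filter (fun D => Int.gcd D m = 1)).card : ℂ) := by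
    unfold MT
    rw [tsum_eq_sum (s := Icc 1 Y)]
    intro m hm
    rw [hz m hm, zero_mul]
  have e2 : MT2 k ψ X = ∑ m ∈ Icc 1 Y, (dk k (m ^ 2) : ℂ) / m * ψ (2 * Real.log m / Real.log X) *
      (((3 / Real.pi ^ 2 * ∏ p ∈ m.primeFactors, ((p : ℝ) / (p + 1))) * X : ℝ) : ℂ) := by
    unfold MT2
    rw [tsum_eq_sum (s := Icc 1 Y)]
    intro m hm
    rw [hz m hm, zero_mul]
  rw [e1, e2, ← sum_sub_distrib]
  have hterm : ∀ m ∈ Icc 1 Y, ‖(dk k (m ^ 2) : ℂ) / m * ψ (2 * Real.log m / Real.log X) * (((SX ε X).filter (fun D => Int.gcd D m = 1)).card : ℂ) -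
      (dk k (m ^ 2) : ℂ) / m * ψ (2 * Real.log m / Real.log X) * (((3 / Real.pi ^ 2 * ∏ p ∈ m.primeFactors, ((p : ℝ) / (p + 1))) * X : ℝ) : ℂ)‖ ≤
      CD * Mψ * 200 * (X ^ (κ * θ) * X ^ (1 / 2 : ℝ)) := by
    intro m hm
    rw [mem_Icc] at hm
    have hm0 : m ≠ 0 := by omega
    have hmr : (0:ℝ) < m := by exact_mod_cast Nat.pos_of_ne_zero hm0
    have hm1 : (1:ℝ) ≤ m := by exact_mod_cast hm.1
    have hmY : (m : ℝ) ≤ X ^ (θ / 2) := le_trans (by exact_mod_cast hm.2) hYle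
    have h1 := count_bd hε hm0 hX1
    rw [dens_eq hm0] at h1
    have b1 : ‖(dk k (m ^ 2) : ℂ)‖ ≤ CD * X ^ (κ * θ) := by
      have h2 := hDv (fun _ => 0) (m ^ 2)
      rw [tau_neg_zero] at h2
      refine h2.trans ?_
      have h3 : ((m ^ 2 : ℕ) : ℝ) ^ κ ≤ X ^ (κ * θ) := by
        push_cast
        calc ((m : ℝ) ^ 2) ^ κ ≤ ((X ^ (θ / 2)) ^ 2) ^ κ := by gcongr
          _ = X ^ (κ * θ) := by
              rw [← Real.rpow_natCast, ← Real.rpow_mul hX0.le, ← Real.rpow_mul hX0.le]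
              congr 1
              push_cast
              ring
      gcongr
    rw [← mul_sub, norm_mul, norm_mul, norm_div, Complex.norm_natCast m]
    have e3 : ((((SX ε X).filter (fun D => Int.gcd D m = 1)).card : ℂ) - (((3 / Real.pi ^ 2 * ∏ p ∈ m.primeFactors, ((p : ℝ) / (p + 1))) * X : ℝ) : ℂ)) =
        (((((SX ε X).filter (fun D => Int.gcd D m = 1)).card : ℝ) - (3 / Real.pi ^ 2 * ∏ p ∈ m.primeFactors, ((p : ℝ) / (p + 1))) * X : ℝ) : ℂ) := by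
      push_cast
      ring
    rw [e3, Complex.norm_real, Real.norm_eq_abs]
    have b2 : Real.sqrt m / m ≤ 1 := by
      rw [div_le_one hmr]
      apply Real.sqrt_le_iff.mpr
      exact ⟨hmr.le, by nlinarith⟩
    calc ‖(dk k (m ^ 2) : ℂ)‖ / m * ‖ψ (2 * Real.log m / Real.log X)‖ * |(((SX ε X).filter (fun D => Int.gcd D m = 1)).card : ℝ) - (3 / Real.pi ^ 2 * ∏ p ∈ m.primeFactors, ((p : ℝ) / (p + 1))) * X|
        ≤ (CD * X ^ (κ * θ)) / m * Mψ * (200 * (Real.sqrt m * Real.sqrt X)) := by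
          gcongr
          exact hMψ _
      _ = CD * Mψ * 200 * (X ^ (κ * θ) * Real.sqrt X) * (Real.sqrt m / m) := by ring
      _ ≤ CD * Mψ * 200 * (X ^ (κ * θ) * Real.sqrt X) * 1 := by gcongr
      _ = _ := by rw [mul_one, Real.sqrt_eq_rpow]
  refine (norm_sum_le_of_le _ hterm).trans ?_
  rw [sum_const, Nat.card_Icc, nsmul_eq_mul]
  have e4 : ((Y + 1 - 1 : ℕ) : ℝ) = Y := by simp
  rw [e4]
  calc (Y : ℝ) * (CD * Mψ * 200 * (X ^ (κ * θ) * X ^ (1 / 2 : ℝ))) ≤ X ^ (θ / 2) * (CD * Mψ * 200 * (X ^ (κ * θ) * X ^ (1 / 2 : ℝ))) := by gcongr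
    _ = CD * Mψ * 200 * (X ^ (θ / 2) * X ^ (κ * θ) * X ^ (1 / 2 : ℝ)) := by ring
    _ ≤ CD * Mψ * 200 * X ^ (1 / 2 + 3 / 4 * θ + η) := by
        rw [← Real.rpow_add hX0, ← Real.rpow_add hX0]
        have : θ / 2 + κ * θ + 1 / 2 ≤ 1 / 2 + 3 / 4 * θ + η := by nlinarith
        gcongr

theorem explicit2 {θ : ℝ} {ψ : ℝ → ℂ} (h : TF θ ψ) (hθ : 0 ≤ θ) (k : ℕ) {η : ℝ} (hη : 0 < η) :
    ∃ C : ℝ, 0 ≤ C ∧ ∀ ε : ℤ, (ε = 1 ∨ ε = -1) → ∀ X : ℝ, Real.exp 1 ≤ X →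
      ‖(Real.log X : ℂ) * ∑ D ∈ SX ε X, (∫ y : ℝ, P ψ (Real.log X * y * Complex.I) * LD D (1 / 2 + y * Complex.I) ^ k) -
        2 * Real.pi * MT2 k ψ X‖ ≤ C * X ^ (1 / 2 + 3 / 4 * θ + η) := by
  obtain ⟨C1, hC1, h1⟩ := explicit h hθ k hη
  obtain ⟨C2, hC2, h2⟩ := MT_MT2 h hθ k hη
  refine ⟨C1 + 2 * Real.pi * C2, by positivity, fun ε hε X hX => ?_⟩
  have hnpi : ‖(2 * Real.pi : ℂ)‖ = 2 * Real.pi := by
    rw [norm_mul, Complex.norm_ofNat, Complex.norm_real, Real.norm_of_nonneg Real.pi_pos.le]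
  have e : (Real.log X : ℂ) * ∑ D ∈ SX ε X, (∫ y : ℝ, P ψ (Real.log X * y * Complex.I) * LD D (1 / 2 + y * Complex.I) ^ k) -
        2 * Real.pi * MT2 k ψ X = ((Real.log X : ℂ) * ∑ D ∈ SX ε X, (∫ y : ℝ, P ψ (Real.log X * y * Complex.I) * LD D (1 / 2 + y * Complex.I) ^ k) -
        2 * Real.pi * MT k ψ ε X) + 2 * Real.pi * (MT k ψ ε X - MT2 k ψ X) := by ring
  rw [e]
  have h3 : ‖(2 * Real.pi * (MT k ψ ε X - MT2 k ψ X) : ℂ)‖ ≤ 2 * Real.pi * (C2 * X ^ (1 / 2 + 3 / 4 * θ + η)) := by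
    rw [norm_mul, hnpi]
    have := h2 ε hε X hX
    gcongr
  refine (norm_add_le _ _).trans ((add_le_add (h1 ε hε X hX) h3).trans (le_of_eq ?_))
  ring

end Pool.Agent.R313.QM
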