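import Pool.Agent.R313.QM.J

set_option autoImplicit false
set_option linter.all false

/-! Counting squarefree numbers with a main term. -/

namespace Pool.Agent.R313.QM

open Finset
open Pool.Agent.H66R2.RZFI1 (mu mu_abs mu_sq_eq)

lemma tail_bd {f : ℕ → ℝ} (hf : ∀ b, |f b| ≤ ((b : ℝ) ^ 2)⁻¹) (h0 : f 0 = 0) (hs : Summable f) (K : ℕ) :
    |∑' b, f b - ∑ b ∈ Icc 1 K, f b| ≤ 2 / ((K : ℝ) + 1) := by
  have h1 : Filter.Tendsto (fun n : ℕ => |∑ b ∈ range n, f b - ∑ b ∈ Icc 1 K, f b|) Filter.atTop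
      (nhds |∑' b, f b - ∑ b ∈ Icc 1 K, f b|) :=
    ((hs.hasSum.tendsto_sum_nat).sub_const _).abs
  refine le_of_tendsto h1 ?_
  filter_upwards [Filter.eventually_gt_atTop (K + 1)] with n hn
  have h2 : ∑ b ∈ range n, f b = ∑ b ∈ Icc 1 K, f b + ∑ b ∈ Ioo K n, f b := by
    have h3 : range n = insert 0 (Icc 1 K ∪ Ioo K n) := by
      ext x
      rw [mem_insert, mem_union, mem_range, mem_Icc, mem_Ioo]
      omega
    rw [h3, sum_insert, h0, zero_add, sum_union]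
    · rw [disjoint_left]
      intro x hx hx'
      rw [mem_Icc] at hx
      rw [mem_Ioo] at hx'
      omega
    · rw [mem_union, mem_Icc, mem_Ioo]
      omega
  rw [h2, add_sub_cancel_left]
  refine (abs_sum_le_sum_abs _ _).trans ((sum_le_sum fun b _ => hf b).trans ?_)
  exact sum_Ioo_inv_sq_le (α := ℝ) K n

theorem sqf_main {h : ℕ → ℝ} {c : ℕ → ℝ} {B ρ : ℝ} (hB : 1 ≤ B) (h0 : h 0 = 0) (hc : ∀ b, |c b| ≤ 1) (hρ : |ρ| ≤ 1)
    (hbe : ∀ b e, b ≠ 0 → h (b ^ 2 * e) = c b * h e) (hs : ∀ M : ℕ, |∑ e ∈ range M, h e - ρ * M| ≤ B) (N : ℕ) :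
    |∑ d ∈ (range N).filter Squarefree, h d - ρ * (∑' b : ℕ, mu b * c b / (b : ℝ) ^ 2) * N| ≤ 4 * B * Real.sqrt N := by
  classical
  rcases Nat.eq_zero_or_pos N with hN | hN
  · subst hN
    simp
  have hN0 : (0:ℝ) < N := by exact_mod_cast hN
  obtain ⟨K, hK⟩ : ∃ K, K = Nat.sqrt N := ⟨_, rfl⟩
  obtain ⟨S, hS⟩ : ∃ S : ℕ → ℝ, ∀ b, S b = ∑ d ∈ range N, (if b ^ 2 ∣ d then h d else 0) := ⟨_, fun _ => rfl⟩
  have e1 : ∑ d ∈ (range N).filter Squarefree, h d = ∑ b ∈ Icc 1 K, mu b * S b := by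
    have e2 : ∀ d ∈ range N, (if Squarefree d then h d else 0) = ∑ b ∈ Icc 1 K, mu b * (if b ^ 2 ∣ d then h d else 0) := by
      intro d hd
      rw [mem_range] at hd
      rcases Nat.eq_zero_or_pos d with hd0 | hd0
      · subst hd0
        rw [h0]
        simp
      · have h2 := mu_sq_eq d hd0.ne'
        rw [tsum_eq_sum (s := Icc 1 K)] at h2
        · have h3 : (if Squarefree d then h d else 0) = (if Squarefree d then (1 : ℝ) else 0) * h d := by
            split_ifs <;> simp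
          rw [h3, h2, sum_mul]
          refine sum_congr rfl fun b _ => ?_
          by_cases hb : b ^ 2 ∣ d
          · rw [if_pos hb, if_pos hb]
          · rw [if_neg hb, if_neg hb, zero_mul, mul_zero]
        · intro b hb
          rw [mem_Icc, not_and_or, not_le, not_le] at hb
          rw [if_neg]
          intro hdvd
          rcases hb with hb | hb
          · have : b = 0 := by omega
            subst this
            rw [zero_pow two_ne_zero, zero_dvd_iff] at hdvd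
            omega
          · have h4 := Nat.le_of_dvd hd0 hdvd
            have h5 : N < b ^ 2 := by
              rw [sq]
              exact Nat.sqrt_lt.1 (by omega)
            omega
    rw [sum_filter, sum_congr rfl e2, sum_comm]
    refine sum_congr rfl fun b _ => ?_
    rw [hS, mul_sum]
  have e2 : ∀ b, b ≠ 0 → S b = c b * ∑ e ∈ range ((N + b ^ 2 - 1) / b ^ 2), h e := by
    intro b hb
    have hb2 : 0 < b ^ 2 := by positivity
    rw [hS, ← sum_filter, mul_sum]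
    have h3 : (range N).filter (fun d => b ^ 2 ∣ d) = (range ((N + b ^ 2 - 1) / b ^ 2)).image (fun m => b ^ 2 * m) := by
      ext d
      rw [mem_filter, mem_range, mem_image]
      constructor
      · rintro ⟨q1, m, rfl⟩
        refine ⟨m, ?_, rfl⟩
        rw [mem_range, Nat.lt_iff_add_one_le, Nat.le_div_iff_mul_le hb2]
        have : (m + 1) * b ^ 2 = b ^ 2 * m + b ^ 2 := by ring
        omega
      · rintro ⟨m, hm, rfl⟩
        rw [mem_range, Nat.lt_iff_add_one_le, Nat.le_div_iff_mul_le hb2] at hm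
        have : (m + 1) * b ^ 2 = b ^ 2 * m + b ^ 2 := by ring
        exact ⟨by omega, m, rfl⟩
    rw [h3, sum_image]
    · exact sum_congr rfl fun m _ => hbe b m hb
    · intro a _ c _ hac
      exact Nat.eq_of_mul_eq_mul_left hb2 hac
  have hterm : ∀ b ∈ Icc 1 K, |mu b * S b - ρ * N * (mu b * c b / (b : ℝ) ^ 2)| ≤ B + 1 := by
    intro b hb
    rw [mem_Icc] at hb
    have hb0 : b ≠ 0 := by omega
    have hb2 : 0 < b ^ 2 := by positivity
    have hbr : (0:ℝ) < (b : ℝ) ^ 2 := by exact_mod_cast hb2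
    obtain ⟨Q, hQ⟩ : ∃ Q : ℕ, Q = (N + b ^ 2 - 1) / b ^ 2 := ⟨_, rfl⟩
    rw [e2 b hb0, ← hQ]
    have q1 : Q * b ^ 2 ≤ N + b ^ 2 - 1 := by rw [hQ]; exact Nat.div_mul_le_self _ _
    have q2 : N + b ^ 2 - 1 < (Q + 1) * b ^ 2 := by
      have h := Nat.lt_div_mul_add (a := N + b ^ 2 - 1) hb2
      rw [← hQ] at h
      have : (Q + 1) * b ^ 2 = Q * b ^ 2 + b ^ 2 := by ring
      omega
    have q3 : (Q : ℝ) * (b:ℝ) ^ 2 ≤ N + (b:ℝ) ^ 2 := by
      have : Q * b ^ 2 ≤ N + b ^ 2 := by omega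
      exact_mod_cast this
    have q4 : (N : ℝ) ≤ Q * (b:ℝ) ^ 2 := by
      have h5 : (Q + 1) * b ^ 2 = Q * b ^ 2 + b ^ 2 := by ring
      have : N ≤ Q * b ^ 2 := by omega
      exact_mod_cast this
    have q5 : |(Q : ℝ) - N / (b:ℝ) ^ 2| ≤ 1 := by
      rw [abs_le]
      constructor
      · have : (N : ℝ) / (b:ℝ) ^ 2 ≤ Q := by rw [div_le_iff₀ hbr]; exact q4
        linarith
      · have : (Q : ℝ) - 1 ≤ N / (b:ℝ) ^ 2 := by
          rw [le_div_iff₀ hbr]
          linarith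
        linarith
    have e5 : mu b * (c b * ∑ e ∈ range Q, h e) - ρ * N * (mu b * c b / (b : ℝ) ^ 2) =
        mu b * c b * ((∑ e ∈ range Q, h e - ρ * Q) + ρ * (Q - N / (b:ℝ) ^ 2)) := by
      field_simp
      ring
    rw [e5, abs_mul, abs_mul]
    have a3 : |(∑ e ∈ range Q, h e - ρ * Q) + ρ * (Q - N / (b:ℝ) ^ 2)| ≤ B + 1 := by
      refine (abs_add_le _ _).trans (add_le_add (hs Q) ?_)
      rw [abs_mul]
      exact mul_le_one₀ hρ (abs_nonneg _) q5
    calc |mu b| * |c b| * |(∑ e ∈ range Q, h e - ρ * Q) + ρ * (Q - N / (b:ℝ) ^ 2)| ≤ 1 * 1 * (B + 1) := by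
          have := mu_abs b
          have := hc b
          gcongr
      _ = B + 1 := by ring
  have hf : ∀ b : ℕ, |mu b * c b / (b : ℝ) ^ 2| ≤ ((b : ℝ) ^ 2)⁻¹ := by
    intro b
    rw [div_eq_mul_inv, abs_mul, abs_mul, abs_of_nonneg (by positivity : (0:ℝ) ≤ ((b : ℝ) ^ 2)⁻¹)]
    have := mu_abs b
    have := hc b
    calc |mu b| * |c b| * ((b : ℝ) ^ 2)⁻¹ ≤ 1 * 1 * ((b : ℝ) ^ 2)⁻¹ := by gcongr
      _ = _ := by ring
  have hsum : Summable fun b : ℕ => mu b * c b / (b : ℝ) ^ 2 := by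
    refine Summable.of_norm_bounded (g := fun b : ℕ => ((b : ℝ) ^ 2)⁻¹) ?_ hf
    simpa using Real.summable_one_div_nat_pow.mpr (by norm_num : 1 < 2)
  have ht := tail_bd hf (by simp) hsum K
  have hKs : (K : ℝ) ≤ Real.sqrt N := by
    rw [hK]
    exact Real.nat_sqrt_le_real_sqrt
  have hKs2 : Real.sqrt N ≤ (K : ℝ) + 1 := by
    rw [hK]
    exact Real.real_sqrt_le_nat_sqrt_succ
  have hsp : 0 < Real.sqrt N := Real.sqrt_pos.mpr hN0
  have e6 : ∑ d ∈ (range N).filter Squarefree, h d - ρ * (∑' b : ℕ, mu b * c b / (b : ℝ) ^ 2) * N =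
      ∑ b ∈ Icc 1 K, (mu b * S b - ρ * N * (mu b * c b / (b : ℝ) ^ 2)) -
        ρ * N * (∑' b : ℕ, mu b * c b / (b : ℝ) ^ 2 - ∑ b ∈ Icc 1 K, mu b * c b / (b : ℝ) ^ 2) := by
    rw [e1, sum_sub_distrib, ← mul_sum]
    ring
  rw [e6]
  have h7 : |∑ b ∈ Icc 1 K, (mu b * S b - ρ * N * (mu b * c b / (b : ℝ) ^ 2))| ≤ Real.sqrt N * (B + 1) := by
    refine (abs_sum_le_sum_abs _ _).trans ((sum_le_sum hterm).trans ?_)
    rw [sum_const, Nat.card_Icc, nsmul_eq_mul]
    have : ((K + 1 - 1 : ℕ) : ℝ) = K := by simp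
    rw [this]
    gcongr
  have h8 : |ρ * N * (∑' b : ℕ, mu b * c b / (b : ℝ) ^ 2 - ∑ b ∈ Icc 1 K, mu b * c b / (b : ℝ) ^ 2)| ≤ 2 * Real.sqrt N := by
    rw [abs_mul, abs_mul, abs_of_pos hN0]
    have h9 : 2 / ((K : ℝ) + 1) ≤ 2 / Real.sqrt N := div_le_div_of_nonneg_left (by norm_num) hsp hKs2
    have h10 : (N : ℝ) = Real.sqrt N * Real.sqrt N := (Real.mul_self_sqrt hN0.le).symm
    calc |ρ| * N * _ ≤ 1 * N * (2 / Real.sqrt N) := by
          gcongr
          exact ht.trans h9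
      _ = 2 * Real.sqrt N := by
          rw [one_mul, mul_div_assoc', div_eq_iff hsp.ne']
          linarith
  refine (abs_sub _ _).trans ((add_le_add h7 h8).trans ?_)
  nlinarith

end Pool.Agent.R313.QM
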