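import Pool.Agent.R313.QM.X

set_option autoImplicit false
set_option linter.all false

/-! The main term: factorisation through the zeta function. -/

namespace Pool.Agent.R313.QM

open Finset
open Pool.Agent.W182.KO (dk dk_succ)

noncomputable def muA : ArithmeticFunction ℂ := ((ArithmeticFunction.moebius : ArithmeticFunction ℤ) : ArithmeticFunction ℂ)

noncomputable def zeA : ArithmeticFunction ℂ := ((ArithmeticFunction.zeta : ArithmeticFunction ℕ) : ArithmeticFunction ℂ)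

lemma muA_mult (K : ℕ) : (muA ^ K).IsMultiplicative := (ArithmeticFunction.isMultiplicative_moebius.intCast).pow

lemma mul_prime (f g : ArithmeticFunction ℂ) {p : ℕ} (hp : p.Prime) : (f * g) p = f 1 * g p + f p * g 1 := by
  rw [ArithmeticFunction.mul_apply, Nat.sum_divisorsAntidiagonal (f := fun a b => f a * g b), hp.divisors, sum_pair hp.one_lt.ne,
    Nat.div_one, Nat.div_self hp.pos]

lemma muA_prime (K : ℕ) {p : ℕ} (hp : p.Prime) : (muA ^ K) p = -(K : ℂ) := by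
  induction K with
  | zero =>
    rw [pow_zero, ArithmeticFunction.one_apply, if_neg hp.one_lt.ne']
    simp
  | succ K ih =>
    rw [pow_succ', mul_prime _ _ hp, ih, (muA_mult K).1]
    have h1 : muA p = -1 := by
      unfold muA
      rw [ArithmeticFunction.intCoe_apply, ArithmeticFunction.moebius_apply_prime hp]
      simp
    have h2 : muA 1 = 1 := by
      unfold muA
      rw [ArithmeticFunction.intCoe_apply, ArithmeticFunction.moebius_apply_one]
      simp
    rw [h1, h2]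
    push_cast
    ring

lemma muA_le (K : ℕ) {n : ℕ} (hn : n ≠ 0) : ‖(muA ^ K) n‖ ≤ dk K n := by
  induction K generalizing n with
  | zero =>
    rw [pow_zero]
    have h := dkA_eq 0 n hn
    unfold dkA at h
    rw [pow_zero] at h
    rw [h, Complex.norm_natCast]
  | succ K ih =>
    have h1 : ((dk (K + 1) n : ℕ) : ℝ) = ∑ p ∈ n.divisorsAntidiagonal, (dk K p.2 : ℝ) := dk_succ K n
    rw [pow_succ', ArithmeticFunction.mul_apply, h1]
    refine norm_sum_le_of_le _ fun p hp => ?_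
    rw [Nat.mem_divisorsAntidiagonal] at hp
    have hp2 : p.2 ≠ 0 := fun h => hp.2 (by rw [← hp.1, h, mul_zero])
    rw [norm_mul]
    have h2 : ‖muA p.1‖ ≤ 1 := by
      unfold muA
      rw [ArithmeticFunction.intCoe_apply, Complex.norm_intCast]
      exact_mod_cast ArithmeticFunction.abs_moebius_le_one
    calc ‖muA p.1‖ * ‖(muA ^ K) p.2‖ ≤ 1 * dk K p.2 := by
          have := ih hp2
          gcongr
      _ = _ := one_mul _

/-- the correction factor -/
noncomputable def hM' (k M M1 : ℕ) : ArithmeticFunction ℂ := fM k M M1 * muA ^ (KK k)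

lemma hM_mult {k M M1 : ℕ} (hk : k ≠ 0) (hM : M ≠ 0) (hM1 : M1 ≠ 0) : (hM' k M M1).IsMultiplicative :=
  (fM_mult hk hM hM1).mul (muA_mult _)

lemma hM_conv (k M M1 : ℕ) : fM k M M1 = hM' k M M1 * zeA ^ (KK k) := by
  unfold hM'
  rw [mul_assoc, ← mul_pow]
  have : muA * zeA = 1 := ArithmeticFunction.coe_moebius_mul_coe_zeta
  rw [this, one_pow, mul_one]

lemma fM_bd {k M M1 : ℕ} (hk : k ≠ 0) (hM : M ≠ 0) (hM1 : M1 ≠ 0) {ε : ℝ} (hε : 0 < ε) :
    ∃ C : ℝ, 0 ≤ C ∧ ∀ n : ℕ, ‖fM k M M1 n‖ ≤ C * (n : ℝ) ^ ε := by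
  obtain ⟨CD, hCD, hD⟩ := dk_bd k (show 0 < ε / 2 by positivity)
  have hd : dkA k M1 ≠ 0 := dkA_ne hk hM1
  have hap := aa_pos M
  refine ⟨1 / aa M * (CD * (M1 : ℝ) ^ (ε / 2) / ‖dkA k M1‖), by positivity, fun n => ?_⟩
  rcases Nat.eq_zero_or_pos n with h | h
  · subst h
    rw [ArithmeticFunction.map_zero, norm_zero]
    positivity
  · rw [fM_apply k M M1 h.ne', norm_mul, norm_div, norm_div, aaA_apply hM, aaA_apply (Nat.mul_ne_zero hM h.ne'),
      dkA_eq k (M1 * n ^ 2) (by positivity), Complex.norm_real, Complex.norm_real, Real.norm_of_nonneg (aa_pos _).le, Real.norm_of_nonneg (aa_pos _).le]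
    have h1 := hD (M1 * n ^ 2)
    have e1 : ((M1 * n ^ 2 : ℕ) : ℝ) ^ (ε / 2) = (M1 : ℝ) ^ (ε / 2) * (n : ℝ) ^ ε := by
      push_cast
      rw [Real.mul_rpow (Nat.cast_nonneg M1) (by positivity), ← Real.rpow_natCast, ← Real.rpow_mul (Nat.cast_nonneg n)]
      congr 2
      push_cast
      ring
    rw [e1] at h1
    calc aa (M * n) / aa M * (‖(dk k (M1 * n ^ 2) : ℂ)‖ / ‖dkA k M1‖) ≤ 1 / aa M * ((CD * ((M1 : ℝ) ^ (ε / 2) * (n : ℝ) ^ ε)) / ‖dkA k M1‖) := by
          have := aa_le (M * n)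
          gcongr
      _ = _ := by ring

lemma hM_bd {k M M1 : ℕ} (hk : k ≠ 0) (hM : M ≠ 0) (hM1 : M1 ≠ 0) {ε : ℝ} (hε : 0 < ε) :
    ∃ C : ℝ, 0 ≤ C ∧ ∀ n : ℕ, ‖hM' k M M1 n‖ ≤ C * (n : ℝ) ^ ε := by
  obtain ⟨C1, hC1, h1⟩ := fM_bd hk hM hM1 (show 0 < ε / 2 by positivity)
  obtain ⟨CD, hCD, hD⟩ := dk_bd (KK k + 1) (show 0 < ε / 2 by positivity)
  refine ⟨C1 * CD, by positivity, fun n => ?_⟩
  rcases Nat.eq_zero_or_pos n with h | h
  · subst h
    rw [ArithmeticFunction.map_zero, norm_zero]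
    positivity
  have hn0 : (0:ℝ) < n := by exact_mod_cast h
  unfold hM'
  rw [ArithmeticFunction.mul_apply]
  have h3 : ∀ p ∈ n.divisorsAntidiagonal, ‖fM k M M1 p.1 * (muA ^ (KK k)) p.2‖ ≤ (C1 * (n : ℝ) ^ (ε / 2)) * (dk (KK k) p.2 : ℝ) := by
    intro p hp
    rw [Nat.mem_divisorsAntidiagonal] at hp
    have hp2 : p.2 ≠ 0 := fun h => hp.2 (by rw [← hp.1, h, mul_zero])
    have hp1 : p.1 ≤ n := by
      rw [← hp.1]
      exact Nat.le_mul_of_pos_right p.1 (Nat.pos_of_ne_zero hp2)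
    rw [norm_mul]
    have h4 := h1 p.1
    have h5 : (p.1 : ℝ) ^ (ε / 2) ≤ (n : ℝ) ^ (ε / 2) := by
      have : (p.1 : ℝ) ≤ n := by exact_mod_cast hp1
      gcongr
    calc ‖fM k M M1 p.1‖ * ‖(muA ^ (KK k)) p.2‖ ≤ (C1 * (n : ℝ) ^ (ε / 2)) * (dk (KK k) p.2 : ℝ) := by
          have h6 := muA_le (KK k) hp2
          have h7 : ‖fM k M M1 p.1‖ ≤ C1 * (n : ℝ) ^ (ε / 2) := h4.trans (by gcongr)
          gcongr
      _ = _ := rfl
  refine (norm_sum_le_of_le _ h3).trans ?_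
  rw [← mul_sum, ← dk_succ]
  have h8 := hD n
  rw [Complex.norm_natCast] at h8
  calc C1 * (n : ℝ) ^ (ε / 2) * (dk (KK k + 1) n : ℝ) ≤ C1 * (n : ℝ) ^ (ε / 2) * (CD * (n : ℝ) ^ (ε / 2)) := by gcongr
    _ = C1 * CD * ((n : ℝ) ^ (ε / 2) * (n : ℝ) ^ (ε / 2)) := by ring
    _ = _ := by
        rw [← Real.rpow_add hn0]
        congr 2
        ring

lemma hM_prime {k M M1 : ℕ} (hk : k ≠ 0) (hM : M ≠ 0) (hM1 : M1 ∣ M) {σ : ℝ} (hσ : 1 / 2 < σ) :
    Summable (fun p : ℕ => if p.Prime then ‖hM' k M M1 p‖ * (p : ℝ) ^ (-σ) else 0) := by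
  classical
  have hM10 : M1 ≠ 0 := fun h => hM (by rw [h] at hM1; exact Nat.eq_zero_of_zero_dvd hM1)
  obtain ⟨F, hF⟩ : ∃ F : ℕ → ℝ, ∀ p, F p = if p ∈ range (M + 1) then ‖hM' k M M1 p‖ * (p : ℝ) ^ (-σ) else 0 := ⟨_, fun _ => rfl⟩
  have hFs : Summable F := by
    refine summable_of_ne_finset_zero (s := range (M + 1)) fun p hp => ?_
    rw [hF, if_neg hp]
  have hGs : Summable fun p : ℕ => (KK k : ℝ) * (p : ℝ) ^ (-(1 + σ)) := (Real.summable_nat_rpow.mpr (by linarith)).mul_left _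
  refine Summable.of_nonneg_of_le (fun p => by split_ifs <;> positivity) (fun p => ?_) (hFs.add hGs)
  split_ifs with hp
  · by_cases hpM : p ∈ range (M + 1)
    · rw [hF, if_pos hpM]
      have : 0 ≤ (KK k : ℝ) * (p : ℝ) ^ (-(1 + σ)) := by positivity
      linarith
    · rw [hF, if_neg hpM, zero_add]
      have hpM' : ¬ p ∣ M := by
        intro hd
        apply hpM
        rw [mem_range]
        have := Nat.le_of_dvd (Nat.pos_of_ne_zero hM) hd
        omega
      have hp0 : (0:ℝ) < p := by exact_mod_cast hp.pos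
      have e1 : hM' k M M1 p = -((KK k : ℂ) / (p + 1)) := by
        unfold hM'
        rw [mul_prime _ _ hp, muA_prime _ hp, (fM_mult hk hM hM10).1, (muA_mult _).1, fM_prime hk hM hM1 hp hpM']
        have : (p : ℂ) + 1 ≠ 0 := by
          have : ((p : ℂ) + 1) = ((p + 1 : ℕ) : ℂ) := by push_cast; rfl
          rw [this, Nat.cast_ne_zero]
          omega
        field_simp
        ring
      have e2 : ‖hM' k M M1 p‖ ≤ (KK k : ℝ) * (p : ℝ) ^ (-(1:ℝ)) := by
        rw [e1, norm_neg, norm_div, Complex.norm_natCast]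
        have : ‖(p : ℂ) + 1‖ = (p : ℝ) + 1 := by
          have h : ((p : ℂ) + 1) = ((p + 1 : ℕ) : ℂ) := by push_cast; rfl
          rw [h, Complex.norm_natCast]
          push_cast
          rfl
        rw [this, Real.rpow_neg_one, div_eq_mul_inv]
        gcongr
        linarith
      calc ‖hM' k M M1 p‖ * (p : ℝ) ^ (-σ) ≤ ((KK k : ℝ) * (p : ℝ) ^ (-(1:ℝ))) * (p : ℝ) ^ (-σ) := by gcongr
        _ = (KK k : ℝ) * (p : ℝ) ^ (-(1 + σ)) := by
            rw [mul_assoc, ← Real.rpow_add hp0]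
            congr 2
            ring
  · have h1 : 0 ≤ F p := by
      rw [hF]
      split_ifs <;> positivity
    have h2 : 0 ≤ (KK k : ℝ) * (p : ℝ) ^ (-(1 + σ)) := by positivity
    linarith

lemma hM_LS {k M M1 : ℕ} (hk : k ≠ 0) (hM : M ≠ 0) (hM1 : M1 ∣ M) {z : ℂ} (hz : 1 / 2 < z.re) :
    LSeriesSummable (fun n => hM' k M M1 n) z := by
  have hM10 : M1 ≠ 0 := fun h => hM (by rw [h] at hM1; exact Nat.eq_zero_of_zero_dvd hM1)
  have h := mult_sum (hM_mult hk hM hM10) (fun ε hε => hM_bd hk hM hM10 hε) (fun σ hσ => hM_prime hk hM hM1 hσ) hz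
  unfold LSeriesSummable
  refine Summable.of_norm_bounded (g := fun n : ℕ => ‖hM' k M M1 n‖ * (n : ℝ) ^ (-z.re)) h fun n => ?_
  rw [LSeries.norm_term_eq]
  split_ifs with hn
  · positivity
  · rw [Real.rpow_neg (Nat.cast_nonneg n), div_eq_mul_inv]

lemma hM_diff {k M M1 : ℕ} (hk : k ≠ 0) (hM : M ≠ 0) (hM1 : M1 ∣ M) :
    DifferentiableOn ℂ (LSeries (fun n => hM' k M M1 n)) {z | 1 / 2 < z.re} := by
  have h1 : LSeries.abscissaOfAbsConv (fun n => hM' k M M1 n) ≤ ((1 / 2 : ℝ) : EReal) := by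
    refine LSeries.abscissaOfAbsConv_le_of_forall_lt_LSeriesSummable fun y hy => ?_
    exact hM_LS hk hM hM1 (by simpa using hy)
  intro z hz
  rw [Set.mem_setOf_eq] at hz
  have h2 : LSeries.abscissaOfAbsConv (fun n => hM' k M M1 n) < (z.re : EReal) := h1.trans_lt (by exact_mod_cast hz)
  exact ((LSeries_differentiableOn _).differentiableAt ((Complex.isOpen_re_gt_EReal _).mem_nhds h2)).differentiableWithinAt

lemma ze_pow (K : ℕ) {z : ℂ} (hz : 1 < z.re) : LSeriesSummable (fun n => (zeA ^ K) n) z ∧ LSeries (fun n => (zeA ^ K) n) z = riemannZeta z ^ K := by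
  induction K with
  | zero =>
    have h1 : (fun n => ((zeA ^ 0 : ArithmeticFunction ℂ)) n) = LSeries.delta := by
      funext n
      rw [pow_zero, ArithmeticFunction.one_apply]
      rfl
    rw [h1]
    refine ⟨?_, ?_⟩
    · unfold LSeriesSummable
      refine summable_of_ne_finset_zero (s := {1}) fun n hn => ?_
      rw [mem_singleton] at hn
      rw [LSeries.term_def, LSeries.delta, if_neg hn, zero_div, ite_self]
    · rw [LSeries_delta]; simp
  | succ K ih =>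
    have hz1 : LSeriesSummable (fun n => zeA n) z := by
      have := ArithmeticFunction.LSeriesSummable_zeta_iff.mpr hz
      exact this
    have hz2 : LSeries (fun n => zeA n) z = riemannZeta z := ArithmeticFunction.LSeries_zeta_eq_riemannZeta hz
    rw [pow_succ]
    refine ⟨ArithmeticFunction.LSeriesSummable_mul ih.1 hz1, ?_⟩
    rw [ArithmeticFunction.LSeries_mul' ih.1 hz1, ih.2, hz2, pow_succ]

lemma fM_LS {k M M1 : ℕ} (hk : k ≠ 0) (hM : M ≠ 0) (hM1 : M1 ∣ M) {z : ℂ} (hz : 1 < z.re) :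
    LSeriesSummable (fun n => fM k M M1 n) z ∧
    LSeries (fun n => fM k M M1 n) z = LSeries (fun n => hM' k M M1 n) z * riemannZeta z ^ (KK k) := by
  obtain ⟨h1, h2⟩ := ze_pow (KK k) hz
  have h3 := hM_LS hk hM hM1 (z := z) (by linarith)
  rw [hM_conv k M M1]
  exact ⟨ArithmeticFunction.LSeriesSummable_mul h3 h1, by rw [ArithmeticFunction.LSeries_mul' h3 h1, h2]⟩

end Pool.Agent.R313.QM
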