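import Pool.Agent.R313.QM.JJ
import Pool.Agent.R313.QM.Y
import Pool.Agent.H306R2.Karamata2

set_option autoImplicit false
set_option linter.all false

/-! The leading order of the main term. -/

namespace Pool.Agent.R313.QM

open Finset MeasureTheory Filter Topology
open Pool.Agent.W182.KO (dk)
open Pool.Agent.H306R2 (KH pos Gd gd karamata)

/-- `f(n) = d_k(n²) ∏_{p|n} p/(p+1)` -/
noncomputable def ff1 (k n : ℕ) : ℝ := (dk k (n ^ 2) : ℝ) * aa n

/-- the constant -/
noncomputable def AK (k : ℕ) : ℝ := (LSeries (fun n => hM' k 1 1 n) 1).re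

lemma fM_one {k n : ℕ} (hk : k ≠ 0) (hn : n ≠ 0) : fM k 1 1 n = (ff1 k n : ℂ) := by
  rw [fM_apply k 1 1 hn]
  have h1 : aaA 1 = 1 := aaA_mult.1
  have h2 : dkA k 1 = 1 := (dkA_mult k).1
  rw [h1, h2, one_mul, one_mul, div_one, div_one, aaA_apply hn, dkA_eq k (n ^ 2) (pow_ne_zero 2 hn)]
  unfold ff1
  push_cast
  ring

noncomputable def wK (k : ℕ) (b : Fin 1 → ℕ) : ℝ := if b 0 = 0 then 0 else ff1 k (b 0) / b 0

lemma ff1_sum {k : ℕ} (hk : k ≠ 0) {z : ℝ} (hz : 1 < z) :
    Summable (fun n : ℕ => if n = 0 then 0 else ff1 k n * (n : ℝ) ^ (-z)) ∧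
    (((∑' n : ℕ, if n = 0 then 0 else ff1 k n * (n : ℝ) ^ (-z) : ℝ)) : ℂ) =
      LSeries (fun n => hM' k 1 1 n) z * riemannZeta z ^ (KK k) := by
  obtain ⟨h1, h2⟩ := fM_LS hk one_ne_zero (dvd_refl 1) (z := (z : ℂ)) (by simpa using hz)
  have e : ∀ n : ℕ, LSeries.term (fun n => fM k 1 1 n) z n = (((if n = 0 then 0 else ff1 k n * (n : ℝ) ^ (-z) : ℝ)) : ℂ) := by
    intro n
    by_cases hn : n = 0
    · subst hn
      simp
    · rw [LSeries.term_of_ne_zero hn, if_neg hn, fM_one hk hn]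
      push_cast
      rw [Complex.ofReal_cpow (Nat.cast_nonneg n)]
      push_cast
      rw [Complex.cpow_neg, div_eq_mul_inv]
  refine ⟨?_, ?_⟩
  · have h3 : Summable fun n : ℕ => (((if n = 0 then 0 else ff1 k n * (n : ℝ) ^ (-z) : ℝ)) : ℂ) := by
      unfold LSeriesSummable at h1
      exact h1.congr e
    exact Complex.summable_ofReal.mp h3
  · rw [← h2, Complex.ofReal_tsum]
    unfold LSeries
    exact tsum_congr fun n => (e n).symm

lemma wK_eq (k : ℕ) (z : ℝ) (n : ℕ) :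
    wK k (fun _ => n) * ∏ i : Fin 1, (n : ℝ) ^ (-z) = if n = 0 then 0 else ff1 k n * (n : ℝ) ^ (-(1 + z)) := by
  unfold wK
  by_cases hn : n = 0
  · rw [if_pos hn, if_pos hn, zero_mul]
  · have hn0 : (0:ℝ) < n := by exact_mod_cast Nat.pos_of_ne_zero hn
    rw [if_neg hn, if_neg hn, Fin.prod_univ_one, div_eq_mul_inv, ← Real.rpow_neg_one, mul_assoc, ← Real.rpow_add hn0]
    congr 2
    ring

lemma tsum_fin1 (F : (Fin 1 → ℕ) → ℝ) : ∑' b, F b = ∑' n : ℕ, F (fun _ => n) := by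
  rw [← (Equiv.funUnique (Fin 1) ℕ).symm.tsum_eq]
  rfl

lemma sum_fin1 (F : (Fin 1 → ℕ) → ℝ) : Summable F ↔ Summable fun n : ℕ => F (fun _ => n) := by
  rw [← (Equiv.funUnique (Fin 1) ℕ).symm.summable_iff]
  rfl

lemma KHw {k : ℕ} (hk : k ≠ 0) : KH 1 (wK k) where
  hw b := by
    unfold wK ff1
    split_ifs
    · exact le_rfl
    · have := (aa_pos (b 0)).le
      positivity
  hw0 b := by
    rintro ⟨i, hi⟩
    unfold wK
    have : i = 0 := Subsingleton.elim _ _
    subst this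
    rw [if_pos hi]
  hsum s hs := by
    rw [sum_fin1]
    have h1 := (ff1_sum hk (z := 1 + s 0) (by linarith [hs 0])).1
    refine h1.congr fun n => ?_
    rw [← wK_eq]
    rw [Fin.prod_univ_one, Fin.prod_univ_one]

lemma zeta_lim {s : ℝ} (hs : 0 < s) : Tendsto (fun L : ℝ => riemannZeta ((1 + s / L : ℝ) : ℂ) / L) atTop (𝓝 ((1 / s : ℝ) : ℂ)) := by
  have h1 : Tendsto (fun L : ℝ => ((1 + s / L : ℝ) : ℂ)) atTop (𝓝[≠] 1) := by
    rw [tendsto_nhdsWithin_iff]
    constructor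
    · have h2 : Tendsto (fun L : ℝ => 1 + s / L) atTop (𝓝 (1 + 0)) := (tendsto_const_nhds.div_atTop tendsto_id).const_add 1
      rw [add_zero] at h2
      have h3 := (Complex.continuous_ofReal.tendsto 1).comp h2
      rw [Complex.ofReal_one] at h3
      exact h3
    · filter_upwards [eventually_gt_atTop 0] with L hL
      rw [Set.mem_compl_iff, Set.mem_singleton_iff]
      intro h
      have h2 : (1 + s / L : ℝ) = 1 := by exact_mod_cast h
      have : 0 < s / L := by positivity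
      linarith
  have h2 := riemannZeta_residue_one.comp h1
  have h3 := h2.const_mul (((1 / s : ℝ)) : ℂ)
  rw [mul_one] at h3
  refine h3.congr' ?_
  filter_upwards [eventually_gt_atTop 0] with L hL
  have hsc : (s : ℂ) ≠ 0 := by exact_mod_cast hs.ne'
  have hLc : (L : ℂ) ≠ 0 := by exact_mod_cast hL.ne'
  show ((1 / s : ℝ) : ℂ) * ((((1 + s / L : ℝ) : ℂ) - 1) * riemannZeta ((1 + s / L : ℝ) : ℂ)) = _
  push_cast
  field_simp
  ring

lemma lim_main {k : ℕ} (hk : k ≠ 0) {s : ℝ} (hs : 0 < s) :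
    Tendsto (fun L : ℝ => (∑' n : ℕ, if n = 0 then 0 else ff1 k n * (n : ℝ) ^ (-(1 + s / L))) / L ^ (KK k)) atTop
      (𝓝 (AK k * (1 / s) ^ (KK k))) := by
  have h1 : Tendsto (fun L : ℝ => LSeries (fun n => hM' k 1 1 n) ((1 + s / L : ℝ) : ℂ)) atTop (𝓝 (LSeries (fun n => hM' k 1 1 n) 1)) := by
    have hc : ContinuousAt (LSeries (fun n => hM' k 1 1 n)) 1 :=
      ((hM_diff hk one_ne_zero (dvd_refl 1)).differentiableAt ((isOpen_lt continuous_const Complex.continuous_re).mem_nhds (by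
        show (1 / 2 : ℝ) < (1 : ℂ).re
        norm_num))).continuousAt
    have h2 : Tendsto (fun L : ℝ => 1 + s / L) atTop (𝓝 (1 + 0)) := (tendsto_const_nhds.div_atTop tendsto_id).const_add 1
    rw [add_zero] at h2
    have h3 := (Complex.continuous_ofReal.tendsto 1).comp h2
    rw [Complex.ofReal_one] at h3
    exact hc.tendsto.comp h3
  have h2 := h1.mul ((zeta_lim hs).pow (KK k))
  have h3 := (Complex.continuous_re.tendsto _).comp h2
  have e1 : (LSeries (fun n => hM' k 1 1 n) 1 * ((1 / s : ℝ) : ℂ) ^ (KK k)).re = AK k * (1 / s) ^ (KK k) := by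
    rw [← Complex.ofReal_pow, Complex.re_mul_ofReal]
    rfl
  rw [e1] at h3
  refine h3.congr' ?_
  filter_upwards [eventually_gt_atTop 0] with L hL
  have hz : 1 < 1 + s / L := by
    have : 0 < s / L := by positivity
    linarith
  have h4 := (ff1_sum hk hz).2
  show (LSeries (fun n => hM' k 1 1 n) ((1 + s / L : ℝ) : ℂ) * (riemannZeta ((1 + s / L : ℝ) : ℂ) / L) ^ (KK k)).re = _
  rw [div_pow, ← mul_div_assoc, ← h4, ← Complex.ofReal_pow, ← Complex.ofReal_div, Complex.ofReal_re]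

lemma AK_nonneg {k : ℕ} (hk : k ≠ 0) : 0 ≤ AK k := by
  have h := lim_main hk one_pos
  rw [div_one, one_pow, mul_one] at h
  refine ge_of_tendsto h ?_
  filter_upwards [eventually_gt_atTop 0] with L hL
  refine div_nonneg (tsum_nonneg fun n => ?_) (by positivity)
  split_ifs
  · exact le_rfl
  · unfold ff1
    have := (aa_pos n).le
    positivity

lemma KK_pos {k : ℕ} (hk : k ≠ 0) : 0 < KK k := by
  obtain ⟨j, rfl⟩ := Nat.exists_eq_succ_of_ne_zero hk
  show 0 < KK (j + 1)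
  rw [KK_succ]
  omega

/-- the leading order for real weights -/
theorem real_lim {k : ℕ} (hk : k ≠ 0) {g : ℝ → ℝ} (hg : Continuous g) {B : ℝ} (hB : 0 ≤ B) (hgB : ∀ u, B ≤ u → g u = 0) :
    Tendsto (fun L : ℝ => (∑' n : ℕ, (dk k (n ^ 2) : ℝ) / n * aa n * g (Real.log n / L)) / L ^ (KK k)) atTop
      (𝓝 (AK k * ∫ u : ℝ, gd (KK k) u * g u)) := by
  have hKp : (0:ℝ) < KK k := by exact_mod_cast KK_pos hk
  have h := karamata (KHw hk) (KK k) (AK k) (AK_nonneg hk) (fun _ => (KK k : ℝ)) (fun _ => hKp) (fun s hs => by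
    have h1 := lim_main hk (hs 0)
    have e2 : AK k * ∏ i : Fin 1, (s i) ^ (-(KK k : ℝ)) = AK k * (1 / s 0) ^ (KK k) := by
      rw [Fin.prod_univ_one, Real.rpow_neg (hs 0).le, Real.rpow_natCast, one_div, inv_pow]
    rw [e2]
    refine h1.congr fun L => ?_
    rw [tsum_fin1, Real.rpow_natCast]
    congr 1
    refine tsum_congr fun n => ?_
    have := wK_eq k (s 0 / L) n
    rw [← this, Fin.prod_univ_one, Fin.prod_univ_one]) (fun u => g (u 0)) (hg.comp (continuous_apply 0)) B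
    (fun u _ hu => by
      obtain ⟨i, hi⟩ := hu
      have : i = 0 := Subsingleton.elim _ _
      subst this
      exact hgB _ hi) hB
  have e3 : ∫ u : Fin 1 → ℝ, Gd (fun _ => (KK k : ℝ)) u * g (u 0) = ∫ u : ℝ, gd (KK k) u * g u := by
    rw [← (MeasureTheory.volume_preserving_funUnique (Fin 1) ℝ).integral_comp' (g := fun u : ℝ => gd (KK k) u * g u)]
    refine integral_congr_ae (Eventually.of_forall fun u => ?_)
    show Gd (fun _ => (KK k : ℝ)) u * g (u 0) = _
    unfold Pool.Agent.H306R2.Gd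
    rw [Fin.prod_univ_one]
    rfl
  rw [e3] at h
  refine h.congr fun L => ?_
  rw [tsum_fin1, Real.rpow_natCast]
  congr 1
  refine tsum_congr fun n => ?_
  unfold wK Pool.Agent.H306R2.pos ff1
  by_cases hn : n = 0
  · subst hn
    simp
  · rw [if_neg hn]
    ring

end Pool.Agent.R313.QM
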