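import Pool.Agent.R313.QM.KA

set_option autoImplicit false
set_option linter.all false

/-! The constant as an Euler product. -/

namespace Pool.Agent.R313.QM

open Finset MeasureTheory Filter Topology
open Pool.Agent.W182.KO (dk)

lemma conv_pow (F G : ArithmeticFunction ℂ) {p : ℕ} (hp : p.Prime) (n : ℕ) :
    (F * G) (p ^ n) = ∑ x ∈ antidiagonal n, F (p ^ x.1) * G (p ^ x.2) := by
  rw [ArithmeticFunction.mul_apply, Nat.sum_divisorsAntidiagonal (f := fun a b => F a * G b), Nat.sum_divisors_prime_pow hp,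
    Finset.Nat.sum_antidiagonal_eq_sum_range_succ (fun i j => F (p ^ i) * G (p ^ j))]
  refine sum_congr rfl fun i hi => ?_
  rw [mem_range] at hi
  rw [Nat.pow_div (by omega) hp.pos]

lemma conv_local (F G : ArithmeticFunction ℂ) {p : ℕ} (hp : p.Prime) (x : ℂ)
    (hF : Summable fun e : ℕ => ‖F (p ^ e) * x ^ e‖) (hG : Summable fun e : ℕ => ‖G (p ^ e) * x ^ e‖) :
    (Summable fun e : ℕ => ‖(F * G) (p ^ e) * x ^ e‖) ∧
    ∑' e : ℕ, (F * G) (p ^ e) * x ^ e = (∑' e : ℕ, F (p ^ e) * x ^ e) * ∑' e : ℕ, G (p ^ e) * x ^ e := by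
  have e1 : ∀ n : ℕ, (F * G) (p ^ n) * x ^ n = ∑ y ∈ antidiagonal n, (F (p ^ y.1) * x ^ y.1) * (G (p ^ y.2) * x ^ y.2) := by
    intro n
    rw [conv_pow F G hp, sum_mul]
    refine sum_congr rfl fun y hy => ?_
    rw [HasAntidiagonal.mem_antidiagonal] at hy
    rw [← hy, pow_add]
    ring
  refine ⟨?_, ?_⟩
  · have := summable_norm_sum_mul_antidiagonal_of_summable_norm hF hG
    exact this.congr fun n => by rw [e1 n]
  · rw [tsum_mul_tsum_eq_tsum_sum_antidiagonal_of_summable_norm hF hG]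
    exact tsum_congr e1

lemma ze_local (K : ℕ) {p : ℕ} (hp : p.Prime) {x : ℂ} (hx : ‖x‖ < 1) :
    (Summable fun e : ℕ => ‖(zeA ^ K) (p ^ e) * x ^ e‖) ∧ ∑' e : ℕ, (zeA ^ K) (p ^ e) * x ^ e = ((1 - x) ^ K)⁻¹ := by
  have hz : ∀ e : ℕ, zeA (p ^ e) = 1 := by
    intro e
    unfold zeA
    rw [ArithmeticFunction.natCoe_apply, ArithmeticFunction.zeta_apply, if_neg (pow_ne_zero e hp.ne_zero), Nat.cast_one]
  induction K with
  | zero =>
    have h1 : ∀ e : ℕ, (zeA ^ 0 : ArithmeticFunction ℂ) (p ^ e) * x ^ e = if e = 0 then 1 else 0 := by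
      intro e
      rw [pow_zero, ArithmeticFunction.one_apply]
      by_cases he : e = 0
      · subst he
        simp
      · rw [if_neg, if_neg he, zero_mul]
        intro h
        exact hp.one_lt.ne' ((Nat.pow_eq_one.mp h).resolve_right he)
    refine ⟨?_, ?_⟩
    · simp_rw [h1]
      refine summable_of_ne_finset_zero (s := {0}) fun e he => ?_
      rw [mem_singleton] at he
      rw [if_neg he, norm_zero]
    · simp_rw [h1]
      rw [tsum_ite_eq]
      simp
  | succ K ih =>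
    have h2 : Summable fun e : ℕ => ‖zeA (p ^ e) * x ^ e‖ := by
      simp_rw [hz, one_mul, norm_pow]
      exact summable_geometric_of_lt_one (norm_nonneg _) hx
    obtain ⟨h3, h4⟩ := conv_local (zeA ^ K) zeA hp x ih.1 h2
    rw [pow_succ]
    refine ⟨h3, ?_⟩
    rw [h4, ih.2]
    simp_rw [hz, one_mul]
    rw [tsum_geometric_of_norm_lt_one hx, pow_succ, mul_inv]

/-- the local factor -/
noncomputable def locf (k : ℕ) (p : ℕ) : ℝ := (1 - 1 / (p : ℝ)) ^ (KK k) * ∑' e : ℕ, ff1 k (p ^ e) / (p : ℝ) ^ e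

theorem AK_prod {k : ℕ} (hk : k ≠ 0) : HasProd (fun p : Nat.Primes => locf k p) (AK k) := by
  obtain ⟨H, hH⟩ : ∃ H : ℕ → ℂ, ∀ n, H n = hM' k 1 1 n * (n : ℂ)⁻¹ := ⟨_, fun _ => rfl⟩
  have hm := hM_mult (M := 1) (M1 := 1) hk one_ne_zero one_ne_zero
  have hLS := hM_LS (z := 1) hk one_ne_zero (dvd_refl 1) (by norm_num)
  have hterm : ∀ n : ℕ, LSeries.term (fun n => hM' k 1 1 n) 1 n = H n := by
    intro n
    rcases Nat.eq_zero_or_pos n with h | h
    · subst h
      rw [LSeries.term_zero, hH, ArithmeticFunction.map_zero, zero_mul]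
    · rw [LSeries.term_of_ne_zero h.ne', Complex.cpow_one, hH, div_eq_mul_inv]
  have hHs : Summable fun n => ‖H n‖ := by
    unfold LSeriesSummable at hLS
    exact hLS.norm.congr fun n => by rw [hterm]
  have h1 : H 1 = 1 := by rw [hH, hm.1]; simp
  have hmul : ∀ {m n : ℕ}, m.Coprime n → H (m * n) = H m * H n := by
    intro m n hmn
    rw [hH, hH, hH, hm.map_mul_of_coprime hmn]
    push_cast
    rw [mul_inv]
    ring
  have h0 : H 0 = 0 := by rw [hH, ArithmeticFunction.map_zero, zero_mul]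
  have hE := EulerProduct.eulerProduct_hasProd h1 hmul hHs h0
  have hloc : ∀ p : Nat.Primes, ∑' e : ℕ, H ((p : ℕ) ^ e) = (locf k p : ℂ) := by
    intro p
    have hp := p.2
    have hpr : (1:ℝ) < ((p : ℕ) : ℝ) := by exact_mod_cast hp.one_lt
    have hpc : (((p : ℕ) : ℂ)) ≠ 0 := by exact_mod_cast hp.ne_zero
    obtain ⟨x, hx⟩ : ∃ x : ℂ, x = (((p : ℕ) : ℂ))⁻¹ := ⟨_, rfl⟩
    have hxn : ‖x‖ < 1 := by
      rw [hx, norm_inv, Complex.norm_natCast]
      exact inv_lt_one_of_one_lt₀ hpr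
    have e1 : ∀ e : ℕ, H ((p : ℕ) ^ e) = hM' k 1 1 ((p : ℕ) ^ e) * x ^ e := by
      intro e
      rw [hH, hx]
      push_cast
      rw [inv_pow]
    have hs1 : Summable fun e : ℕ => ‖hM' k 1 1 ((p : ℕ) ^ e) * x ^ e‖ := by
      have := hHs.comp_injective (Nat.pow_right_injective hp.two_le)
      exact this.congr fun e => by
        show ‖H ((p : ℕ) ^ e)‖ = _
        rw [e1]
    obtain ⟨z1, z2⟩ := ze_local (KK k) hp hxn
    obtain ⟨-, c2⟩ := conv_local (hM' k 1 1) (zeA ^ (KK k)) hp x hs1 z1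
    rw [← hM_conv, z2] at c2
    have h1x : (1 - x) ≠ 0 := by
      intro h
      have : x = 1 := by
        have := sub_eq_zero.mp h
        exact this.symm
      rw [this, norm_one] at hxn
      exact lt_irrefl _ hxn
    have c3 : ∑' e : ℕ, hM' k 1 1 ((p : ℕ) ^ e) * x ^ e = (1 - x) ^ (KK k) * ∑' e : ℕ, fM k 1 1 ((p : ℕ) ^ e) * x ^ e := by
      rw [c2]
      field_simp
    rw [tsum_congr e1, c3]
    unfold locf
    push_cast
    rw [hx, one_div]
    congr 1
    refine tsum_congr fun e => ?_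
    rw [fM_one hk (pow_ne_zero e hp.ne_zero), inv_pow, div_eq_mul_inv]
  have hE2 : HasProd (fun p : Nat.Primes => (locf k p : ℂ)) (LSeries (fun n => hM' k 1 1 n) 1) := by
    have e2 : LSeries (fun n => hM' k 1 1 n) 1 = ∑' n, H n := by
      unfold LSeries
      exact tsum_congr hterm
    rw [e2, ← funext hloc]
    exact hE
  unfold HasProd at hE2 ⊢
  have h5 := (Complex.continuous_re.tendsto _).comp hE2
  refine h5.congr fun s => ?_
  show (∏ p ∈ s, (locf k p : ℂ)).re = _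
  rw [← Complex.ofReal_prod, Complex.ofReal_re]

end Pool.Agent.R313.QM
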