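import Pool.Agent.R313.QM.KB

set_option autoImplicit false
set_option linter.all false

/-! The local factor in closed form and the asymptotics. -/

namespace Pool.Agent.R313.QM

open Finset MeasureTheory Filter Topology
open Pool.Agent.W182.KO (dk P TF)
open Pool.Agent.H306R2 (gd)

/-- the local factor of the conjecture -/
noncomputable def loc0 (k : ℕ) (p : ℕ) : ℝ :=
  (1 - 1 / (p : ℝ)) ^ (k * (k + 1) / 2) *
    ((((1 - 1 / Real.sqrt p) ^ k)⁻¹ + ((1 + 1 / Real.sqrt p) ^ k)⁻¹) / 2 + 1 / p) / (1 + 1 / p)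

lemma KK_eq (k : ℕ) : KK k = k * (k + 1) / 2 := by
  unfold KK
  rw [Finset.sum_range_id]
  congr 1
  rw [Nat.add_sub_cancel, mul_comm]

lemma aa_pow {p : ℕ} (hp : p.Prime) (e : ℕ) : aa (p ^ (e + 1)) = (p : ℝ) / (p + 1) := by
  unfold aa
  rw [Nat.primeFactors_pow p (Nat.succ_ne_zero e), hp.primeFactors, prod_singleton]

lemma locf_eq {k : ℕ} (hk : k ≠ 0) {p : ℕ} (hp : p.Prime) : locf k p = loc0 k p := by
  have hpr : (1:ℝ) < (p : ℝ) := by exact_mod_cast hp.one_lt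
  have hp0 : (0:ℝ) < (p : ℝ) := by linarith
  obtain ⟨y, hy⟩ : ∃ y : ℝ, y = 1 / Real.sqrt p := ⟨_, rfl⟩
  have hsq : 1 < Real.sqrt p := by
    rw [Real.lt_sqrt zero_le_one]
    simpa using hpr
  have hy0 : 0 < y := by rw [hy]; positivity
  have hy1 : y < 1 := by
    rw [hy, div_lt_one (by linarith)]
    exact hsq
  have hy2 : y ^ 2 = 1 / p := by
    rw [hy, div_pow, one_pow, Real.sq_sqrt hp0.le]
  -- the complex sums
  have hc : ∀ e : ℕ, (zeA ^ k) (p ^ e) = (dk k (p ^ e) : ℂ) := fun e => dkA_eq k (p ^ e) (pow_ne_zero e hp.ne_zero)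
  have n1 : ‖(y : ℂ)‖ < 1 := by rw [Complex.norm_real, Real.norm_of_nonneg hy0.le]; exact hy1
  have n2 : ‖(-(y : ℂ))‖ < 1 := by rw [norm_neg]; exact n1
  obtain ⟨s1, t1⟩ := ze_local k hp n1
  obtain ⟨s2, t2⟩ := ze_local k hp n2
  simp_rw [hc] at s1 t1 s2 t2
  have s1' := s1.of_norm
  have s2' := s2.of_norm
  -- real versions
  have r1 : ∑' e : ℕ, (dk k (p ^ e) : ℝ) * y ^ e = ((1 - y) ^ k)⁻¹ := by
    have : ((∑' e : ℕ, (dk k (p ^ e) : ℝ) * y ^ e : ℝ) : ℂ) = (((1 - y) ^ k)⁻¹ : ℝ) := by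
      rw [Complex.ofReal_tsum]
      push_cast
      exact t1
    exact_mod_cast this
  have r2 : ∑' e : ℕ, (dk k (p ^ e) : ℝ) * (-y) ^ e = ((1 + y) ^ k)⁻¹ := by
    have : ((∑' e : ℕ, (dk k (p ^ e) : ℝ) * (-y) ^ e : ℝ) : ℂ) = (((1 + y) ^ k)⁻¹ : ℝ) := by
      rw [Complex.ofReal_tsum]
      push_cast
      rw [sub_neg_eq_add] at t2
      exact t2
    exact_mod_cast this
  have u1 : Summable fun e : ℕ => (dk k (p ^ e) : ℝ) * y ^ e := by
    have : Summable fun e : ℕ => (((dk k (p ^ e) : ℝ) * y ^ e : ℝ) : ℂ) := by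
      refine s1'.congr fun e => ?_
      push_cast
      rfl
    exact Complex.summable_ofReal.mp this
  have u2 : Summable fun e : ℕ => (dk k (p ^ e) : ℝ) * (-y) ^ e := by
    have : Summable fun e : ℕ => (((dk k (p ^ e) : ℝ) * (-y) ^ e : ℝ) : ℂ) := by
      refine s2'.congr fun e => ?_
      push_cast
      rfl
    exact Complex.summable_ofReal.mp this
  obtain ⟨S, hS⟩ : ∃ S : ℝ, S = ∑' j : ℕ, (dk k (p ^ (2 * j)) : ℝ) * y ^ (2 * j) := ⟨_, rfl⟩
  have ue : Summable fun j : ℕ => (dk k (p ^ (2 * j)) : ℝ) * y ^ (2 * j) :=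
    u1.comp_injective (fun a b h => by simpa using h : Function.Injective fun j : ℕ => 2 * j)
  have hSe : 2 * S = ((1 - y) ^ k)⁻¹ + ((1 + y) ^ k)⁻¹ := by
    rw [← r1, ← r2, ← u1.tsum_add u2]
    have v := u1.add u2
    have ve : Summable fun j : ℕ => (dk k (p ^ (2 * j)) : ℝ) * y ^ (2 * j) + (dk k (p ^ (2 * j)) : ℝ) * (-y) ^ (2 * j) :=
      v.comp_injective (fun a b h => by simpa using h : Function.Injective fun j : ℕ => 2 * j)
    have vo : Summable fun j : ℕ => (dk k (p ^ (2 * j + 1)) : ℝ) * y ^ (2 * j + 1) + (dk k (p ^ (2 * j + 1)) : ℝ) * (-y) ^ (2 * j + 1) :=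
      v.comp_injective (fun a b h => by simpa using h : Function.Injective fun j : ℕ => 2 * j + 1)
    rw [← tsum_even_add_odd ve vo]
    have o1 : ∀ j : ℕ, (dk k (p ^ (2 * j + 1)) : ℝ) * y ^ (2 * j + 1) + (dk k (p ^ (2 * j + 1)) : ℝ) * (-y) ^ (2 * j + 1) = 0 := by
      intro j
      rw [Odd.neg_pow ⟨j, rfl⟩]
      ring
    have o2 : ∀ j : ℕ, (dk k (p ^ (2 * j)) : ℝ) * y ^ (2 * j) + (dk k (p ^ (2 * j)) : ℝ) * (-y) ^ (2 * j) = 2 * ((dk k (p ^ (2 * j)) : ℝ) * y ^ (2 * j)) := by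
      intro j
      rw [Even.neg_pow ⟨j, by ring⟩]
      ring
    rw [tsum_congr o1, tsum_congr o2, tsum_zero, add_zero, tsum_mul_left, hS]
  -- the local sum
  have w1 : ∀ e : ℕ, ff1 k (p ^ e) / (p : ℝ) ^ e = (dk k (p ^ (2 * e)) : ℝ) * y ^ (2 * e) * aa (p ^ e) := by
    intro e
    unfold ff1
    rw [← pow_mul, pow_mul y, hy2, mul_comm e 2, div_pow, one_pow]
    ring
  have ws : Summable fun e : ℕ => (dk k (p ^ (2 * e)) : ℝ) * y ^ (2 * e) * aa (p ^ e) := by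
    refine Summable.of_nonneg_of_le (fun e => ?_) (fun e => ?_) ue
    · have := (aa_pos (p ^ e)).le
      positivity
    · have h1 := aa_le (p ^ e)
      have h2 : 0 ≤ (dk k (p ^ (2 * e)) : ℝ) * y ^ (2 * e) := by positivity
      nlinarith
  have hd1 : dk k 1 = 1 := by
    unfold Pool.Agent.W182.KO.dk
    rw [Nat.finMulAntidiag_one, card_singleton]
  have ha1 : aa 1 = 1 := by unfold aa; simp
  have w2 : ∑' e : ℕ, ff1 k (p ^ e) / (p : ℝ) ^ e = 1 + (p : ℝ) / (p + 1) * (S - 1) := by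
    rw [tsum_congr w1, ws.tsum_eq_zero_add, hS, ue.tsum_eq_zero_add]
    simp only [mul_zero, pow_zero, hd1, ha1, Nat.cast_one, mul_one]
    rw [add_sub_cancel_left, ← tsum_mul_left]
    congr 1
    refine tsum_congr fun e => ?_
    rw [aa_pow hp]
    ring
  unfold locf loc0
  rw [w2, KK_eq, ← hy, ← hSe]
  field_simp
  ring

/-- the leading order for complex weights -/
theorem cx_lim {k : ℕ} (hk : k ≠ 0) {θ : ℝ} {ψ : ℝ → ℂ} (h : TF θ ψ) (hθ : 0 ≤ θ) :
    Tendsto (fun L : ℝ => (∑' n : ℕ, (dk k (n ^ 2) : ℂ) / n * (∏ p ∈ n.primeFactors, (p : ℂ) / (p + 1)) * ψ (2 * Real.log n / L)) / (L : ℂ) ^ (KK k)) atTop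
      (𝓝 ((AK k : ℂ) * ∫ u in Set.Ioi (0:ℝ), (u : ℂ) ^ (KK k - 1) / ((KK k - 1).factorial : ℂ) * ψ (2 * u))) := by
  have hc2 : Continuous fun u : ℝ => ψ (2 * u) := h.cont.comp (by fun_prop)
  have hz : ∀ u : ℝ, θ / 2 + 1 ≤ u → ψ (2 * u) = 0 := fun u hu => h.sp _ (by linarith)
  have l1 := real_lim hk (g := fun u => (ψ (2 * u)).re) (Complex.continuous_re.comp hc2) (B := θ / 2 + 1) (by linarith) (fun u hu => by
    show (ψ (2 * u)).re = 0
    rw [hz u hu, Complex.zero_re])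
  have l2 := real_lim hk (g := fun u => (ψ (2 * u)).im) (Complex.continuous_im.comp hc2) (B := θ / 2 + 1) (by linarith) (fun u hu => by
    show (ψ (2 * u)).im = 0
    rw [hz u hu, Complex.zero_im])
  have m1 := (Complex.continuous_ofReal.tendsto _).comp l1
  have m2 := ((Complex.continuous_ofReal.tendsto _).comp l2).mul_const Complex.I
  have m3 := m1.add m2
  -- finite support in `n`
  have hKp : (0:ℝ) < KK k := by exact_mod_cast KK_pos hk
  have hG : Integrable fun u : ℝ => (gd (KK k) u : ℂ) * ψ (2 * u) := by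
    have hgK : ∀ u : ℝ, gd (KK k) u = (Set.Ioi (0:ℝ)).indicator (fun u => u ^ (KK k - 1) / ((KK k - 1).factorial : ℝ)) u := by
      intro u
      unfold Pool.Agent.H306R2.gd
      by_cases hu : 0 < u
      · rw [if_pos hu, Set.indicator_of_mem (Set.mem_Ioi.mpr hu)]
        obtain ⟨j, hj⟩ : ∃ j, KK k = j + 1 := ⟨KK k - 1, by have := KK_pos hk; omega⟩
        rw [hj, Nat.add_sub_cancel]
        push_cast
        rw [add_sub_cancel_right, Real.rpow_natCast, Real.Gamma_nat_eq_factorial]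
      · rw [if_neg hu, Set.indicator_of_notMem (by simpa using hu)]
    have h1 : Integrable fun u : ℝ => ((u ^ (KK k - 1) / ((KK k - 1).factorial : ℝ) : ℝ) : ℂ) * ψ (2 * u) := by
      have hcs : HasCompactSupport fun u : ℝ => ψ (2 * u) := by
        have := h.cs.comp_homeomorph (Homeomorph.mulLeft₀ (2:ℝ) two_ne_zero)
        exact this
      refine Continuous.integrable_of_hasCompactSupport ?_ hcs.mul_left
      refine Continuous.mul ?_ hc2
      exact Complex.continuous_ofReal.comp (by fun_prop)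
    have h2 := h1.indicator (measurableSet_Ioi (a := (0:ℝ)))
    refine h2.congr (Eventually.of_forall fun u => ?_)
    show (Set.Ioi (0:ℝ)).indicator (fun u : ℝ => ((u ^ (KK k - 1) / ((KK k - 1).factorial : ℝ) : ℝ) : ℂ) * ψ (2 * u)) u = (gd (KK k) u : ℂ) * ψ (2 * u)
    rw [hgK]
    by_cases hu : u ∈ Set.Ioi (0:ℝ)
    · rw [Set.indicator_of_mem hu, Set.indicator_of_mem hu]
    · rw [Set.indicator_of_notMem hu, Set.indicator_of_notMem hu]
      simp
  have e1 : ((AK k * ∫ u : ℝ, gd (KK k) u * (ψ (2 * u)).re : ℝ) : ℂ) + ((AK k * ∫ u : ℝ, gd (KK k) u * (ψ (2 * u)).im : ℝ) : ℂ) * Complex.I =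
      (AK k : ℂ) * ∫ u in Set.Ioi (0:ℝ), (u : ℂ) ^ (KK k - 1) / ((KK k - 1).factorial : ℂ) * ψ (2 * u) := by
    have e2 : ∫ u in Set.Ioi (0:ℝ), (u : ℂ) ^ (KK k - 1) / ((KK k - 1).factorial : ℂ) * ψ (2 * u) = ∫ u : ℝ, (gd (KK k) u : ℂ) * ψ (2 * u) := by
      rw [← integral_indicator measurableSet_Ioi]
      refine integral_congr_ae (Eventually.of_forall fun u => ?_)
      show (Set.Ioi (0:ℝ)).indicator (fun u : ℝ => (u : ℂ) ^ (KK k - 1) / ((KK k - 1).factorial : ℂ) * ψ (2 * u)) u = (gd (KK k) u : ℂ) * ψ (2 * u)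
      unfold Pool.Agent.H306R2.gd
      by_cases hu : 0 < u
      · rw [if_pos hu, Set.indicator_of_mem (Set.mem_Ioi.mpr hu)]
        obtain ⟨j, hj⟩ : ∃ j, KK k = j + 1 := ⟨KK k - 1, by have := KK_pos hk; omega⟩
        rw [hj, Nat.add_sub_cancel]
        push_cast
        rw [add_sub_cancel_right, Real.rpow_natCast, Real.Gamma_nat_eq_factorial]
        push_cast
        rfl
      · rw [if_neg hu, Set.indicator_of_notMem (by simpa using hu)]
        simp
    have e3 : ((∫ u : ℝ, gd (KK k) u * (ψ (2 * u)).re : ℝ) : ℂ) + ((∫ u : ℝ, gd (KK k) u * (ψ (2 * u)).im : ℝ) : ℂ) * Complex.I =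
        ∫ u : ℝ, (gd (KK k) u : ℂ) * ψ (2 * u) := by
      have a1 : (∫ u : ℝ, (gd (KK k) u : ℂ) * ψ (2 * u)).re = ∫ u : ℝ, gd (KK k) u * (ψ (2 * u)).re := by
        have := integral_re hG
        rw [show (∫ u : ℝ, (gd (KK k) u : ℂ) * ψ (2 * u)).re = RCLike.re (∫ u : ℝ, (gd (KK k) u : ℂ) * ψ (2 * u)) from rfl, ← this]
        refine integral_congr_ae (Eventually.of_forall fun u => ?_)
        show ((gd (KK k) u : ℂ) * ψ (2 * u)).re = _
        rw [Complex.re_ofReal_mul]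
      have a2 : (∫ u : ℝ, (gd (KK k) u : ℂ) * ψ (2 * u)).im = ∫ u : ℝ, gd (KK k) u * (ψ (2 * u)).im := by
        have := integral_im hG
        rw [show (∫ u : ℝ, (gd (KK k) u : ℂ) * ψ (2 * u)).im = RCLike.im (∫ u : ℝ, (gd (KK k) u : ℂ) * ψ (2 * u)) from rfl, ← this]
        refine integral_congr_ae (Eventually.of_forall fun u => ?_)
        show ((gd (KK k) u : ℂ) * ψ (2 * u)).im = _
        rw [Complex.im_ofReal_mul]
      rw [← a1, ← a2]
      exact Complex.re_add_im _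
    rw [e2, ← e3]
    push_cast
    ring
  rw [e1] at m3
  refine m3.congr' ?_
  filter_upwards [eventually_gt_atTop 0] with L hL
  obtain ⟨N, hN⟩ : ∃ N : ℕ, ∀ n : ℕ, N ≤ n → ψ (2 * Real.log n / L) = 0 := by
    refine ⟨⌈Real.exp (θ * L)⌉₊ + 1, fun n hn => ?_⟩
    have h1 : Real.exp (θ * L) < n := by
      have h2 : ((⌈Real.exp (θ * L)⌉₊ + 1 : ℕ) : ℝ) ≤ n := by exact_mod_cast hn
      push_cast at h2
      linarith [Nat.le_ceil (Real.exp (θ * L))]
    have h2 : θ * L < Real.log n := by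
      rw [Real.lt_log_iff_exp_lt ((Real.exp_pos _).trans h1)]
      exact h1
    apply h.sp
    rw [lt_div_iff₀ hL]
    have h3 : 0 ≤ θ * L := by positivity
    linarith
  have hr : ∀ n : ℕ, ψ (2 * (Real.log n / L)) = ψ (2 * Real.log n / L) := by
    intro n
    congr 1
    ring
  have f1 : ∀ n ∉ range N, (dk k (n ^ 2) : ℝ) / n * aa n * (ψ (2 * (Real.log n / L))).re = 0 := by
    intro n hn
    rw [mem_range, not_lt] at hn
    rw [hr, hN n hn, Complex.zero_re, mul_zero]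
  have f2 : ∀ n ∉ range N, (dk k (n ^ 2) : ℝ) / n * aa n * (ψ (2 * (Real.log n / L))).im = 0 := by
    intro n hn
    rw [mem_range, not_lt] at hn
    rw [hr, hN n hn, Complex.zero_im, mul_zero]
  have f3 : ∀ n ∉ range N, (dk k (n ^ 2) : ℂ) / n * (∏ p ∈ n.primeFactors, (p : ℂ) / (p + 1)) * ψ (2 * Real.log n / L) = 0 := by
    intro n hn
    rw [mem_range, not_lt] at hn
    rw [hN n hn, mul_zero]
  show (((∑' n : ℕ, (dk k (n ^ 2) : ℝ) / n * aa n * (ψ (2 * (Real.log n / L))).re) / L ^ (KK k) : ℝ) : ℂ) +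
    (((∑' n : ℕ, (dk k (n ^ 2) : ℝ) / n * aa n * (ψ (2 * (Real.log n / L))).im) / L ^ (KK k) : ℝ) : ℂ) * Complex.I = _
  rw [tsum_eq_sum f1, tsum_eq_sum f2, tsum_eq_sum f3]
  push_cast
  rw [div_mul_eq_mul_div, ← add_div, sum_mul, ← sum_add_distrib]
  congr 1
  refine sum_congr rfl fun n _ => ?_
  have e5 : (aa n : ℂ) = ∏ p ∈ n.primeFactors, (p : ℂ) / (p + 1) := by
    unfold aa
    push_cast
    rfl
  rw [← e5, hr, mul_assoc _ _ Complex.I, ← mul_add, Complex.re_add_im]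

end Pool.Agent.R313.QM
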