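import Pool.Agent.R313.QM.KC

set_option autoImplicit false
set_option linter.all false

/-! The asymptotic formula. -/

namespace Pool.Agent.R313.QM

open Finset MeasureTheory Filter Topology
open Pool.Agent.W182.KO (dk P TF)

theorem asymp {θ : ℝ} {ψ : ℝ → ℂ} (h : TF θ ψ) (hθ : 0 ≤ θ) (hθ2 : θ < 2 / 3) {k : ℕ} (hk : k ≠ 0) {ε : ℤ} (hε : ε = 1 ∨ ε = -1) :
    Tendsto (fun X : ℝ => ((Real.log X : ℂ) * ∑ D ∈ SX ε X, (∫ y : ℝ, P ψ (Real.log X * y * Complex.I) * LD D (1 / 2 + y * Complex.I) ^ k)) /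
        ((X : ℂ) * (Real.log X : ℂ) ^ (KK k))) atTop
      (𝓝 (6 / Real.pi * ((AK k : ℂ) * ∫ u in Set.Ioi (0:ℝ), (u : ℂ) ^ (KK k - 1) / ((KK k - 1).factorial : ℂ) * ψ (2 * u)))) := by
  obtain ⟨η, hη⟩ : ∃ η : ℝ, η = (1 / 2 - 3 / 4 * θ) / 2 := ⟨_, rfl⟩
  have hη0 : 0 < η := by rw [hη]; linarith
  obtain ⟨C, hC, hb⟩ := explicit2 h hθ k hη0
  have l1 := ((cx_lim hk h hθ).comp Real.tendsto_log_atTop).const_mul (6 / Real.pi : ℂ)
  have l2 : Tendsto (fun X : ℝ => ((Real.log X : ℂ) * ∑ D ∈ SX ε X, (∫ y : ℝ, P ψ (Real.log X * y * Complex.I) * LD D (1 / 2 + y * Complex.I) ^ k) -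
        2 * Real.pi * MT2 k ψ X) / ((X : ℂ) * (Real.log X : ℂ) ^ (KK k))) atTop (𝓝 0) := by
    have l3 : Tendsto (fun X : ℝ => C * X ^ (-η)) atTop (𝓝 0) := by
      have := (tendsto_rpow_neg_atTop hη0).const_mul C
      rwa [mul_zero] at this
    refine squeeze_zero_norm' ?_ l3
    filter_upwards [eventually_ge_atTop (Real.exp 1)] with X hX
    have hX1 : 1 ≤ X := by have := Real.add_one_le_exp 1; linarith
    have hX0 : 0 < X := by linarith
    have hL : 1 ≤ Real.log X := by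
      rw [Real.le_log_iff_exp_le hX0]; exact hX
    rw [norm_div, norm_mul, norm_pow, Complex.norm_real, Complex.norm_real, Real.norm_of_nonneg hX0.le, Real.norm_of_nonneg (by linarith : 0 ≤ Real.log X)]
    rw [div_le_iff₀ (by positivity)]
    have h1 := hb ε hε X hX
    refine h1.trans ?_
    have e1 : X ^ (1 / 2 + 3 / 4 * θ + η) = X ^ (-η) * X := by
      rw [← Real.rpow_add_one hX0.ne']
      congr 1
      rw [hη]
      ring
    rw [e1]
    have h2 : 1 ≤ Real.log X ^ (KK k) := one_le_pow₀ hL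
    have h3 : 0 ≤ C * (X ^ (-η) * X) := by positivity
    calc C * (X ^ (-η) * X) = C * (X ^ (-η) * X) * 1 := by ring
      _ ≤ C * (X ^ (-η) * X) * Real.log X ^ (KK k) := by gcongr
      _ = C * X ^ (-η) * (X * Real.log X ^ (KK k)) := by ring
  have l4 := l2.add l1
  rw [zero_add] at l4
  refine l4.congr' ?_
  filter_upwards [eventually_ge_atTop (Real.exp 1)] with X hX
  have hX1 : 1 ≤ X := by have := Real.add_one_le_exp 1; linarith
  have hX0 : 0 < X := by linarith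
  have hXc : (X : ℂ) ≠ 0 := by exact_mod_cast hX0.ne'
  have hpi : (Real.pi : ℂ) ≠ 0 := by exact_mod_cast Real.pi_ne_zero
  have e2 : 2 * Real.pi * MT2 k ψ X = 6 / Real.pi * X * ∑' m : ℕ, (dk k (m ^ 2) : ℂ) / m *
      (∏ p ∈ m.primeFactors, (p : ℂ) / (p + 1)) * ψ (2 * Real.log m / Real.log X) := by
    unfold MT2
    rw [← tsum_mul_left, ← tsum_mul_left]
    refine tsum_congr fun m => ?_
    push_cast
    field_simp
    ring
  have e3 : 2 * Real.pi * MT2 k ψ X / ((X : ℂ) * (Real.log X : ℂ) ^ (KK k)) =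
      6 / Real.pi * ((∑' m : ℕ, (dk k (m ^ 2) : ℂ) / m * (∏ p ∈ m.primeFactors, (p : ℂ) / (p + 1)) * ψ (2 * Real.log m / Real.log X)) / (Real.log X : ℂ) ^ (KK k)) := by
    rw [e2]
    rw [mul_assoc (6 / (Real.pi : ℂ)), mul_div_assoc (6 / (Real.pi : ℂ)), mul_div_mul_left _ _ hXc]
  rw [sub_div, e3]
  show _ - _ + 6 / (Real.pi : ℂ) * _ = _
  exact sub_add_cancel _ _

end Pool.Agent.R313.QM
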