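import Pool.Agent.R313.QM.K

set_option autoImplicit false
set_option linter.all false

/-! Counting fundamental discriminants prime to a given number. -/

namespace Pool.Agent.R313.QM

open Finset
open Pool.Agent.H66R2.RZFI1 (mu mu_abs mu_sq_eq)

lemma sum_mu_div {n : ℕ} (hn : n ≠ 0) : ∑ t ∈ n.divisors, mu t = if n = 1 then 1 else 0 := by
  have h : ∑ t ∈ n.divisors, ArithmeticFunction.moebius t = if n = 1 then 1 else 0 := by
    rw [← ArithmeticFunction.coe_mul_zeta_apply, ArithmeticFunction.moebius_mul_coe_zeta, ArithmeticFunction.one_apply]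
  unfold Pool.Agent.H66R2.RZFI1.mu
  have h2 := congrArg (fun x : ℤ => (x : ℝ)) h
  push_cast at h2
  exact h2

lemma cop_ind {w e : ℕ} (hw : w ≠ 0) : (if e.Coprime w then (1:ℝ) else 0) = ∑ t ∈ w.divisors, mu t * (if t ∣ e then 1 else 0) := by
  have h1 : ∑ t ∈ w.divisors, mu t * (if t ∣ e then 1 else 0) = ∑ t ∈ (Nat.gcd e w).divisors, mu t := by
    have h2 : (Nat.gcd e w).divisors = w.divisors.filter (fun t => t ∣ e) := by
      ext t
      rw [mem_filter, Nat.mem_divisors, Nat.mem_divisors, Nat.dvd_gcd_iff]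
      constructor
      · rintro ⟨⟨a, b⟩, _⟩
        exact ⟨⟨b, hw⟩, a⟩
      · rintro ⟨⟨b, _⟩, a⟩
        exact ⟨⟨a, b⟩, Nat.gcd_ne_zero_right hw⟩
    rw [h2, sum_filter]
    refine sum_congr rfl fun t _ => ?_
    split_ifs <;> simp
  rw [h1, sum_mu_div (Nat.gcd_ne_zero_right hw)]

lemma ap_count {t a : ℕ} (ht : Odd t) (ha : a < 8) (M : ℕ) :
    |∑ e ∈ range M, (if t ∣ e ∧ e % 8 = a then (1:ℝ) else 0) - M / (8 * t)| ≤ 1 := by
  have hco : Nat.Coprime t 8 := by
    rw [show (8:ℕ) = 2 ^ 3 by norm_num]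
    exact Nat.Coprime.pow_right 3 (Nat.coprime_two_right.mpr ht)
  have ht0 : 0 < t := ht.pos
  obtain ⟨v, hv1, hv2⟩ := Nat.chineseRemainder hco 0 a
  have hiff : ∀ e, (t ∣ e ∧ e % 8 = a) ↔ e ≡ v [MOD (t * 8)] := by
    intro e
    rw [← Nat.modEq_and_modEq_iff_modEq_mul hco]
    constructor
    · rintro ⟨h1, h2⟩
      refine ⟨((Nat.modEq_zero_iff_dvd.mpr h1).trans hv1.symm), ?_⟩
      refine Nat.ModEq.trans ?_ hv2.symm
      show e % 8 = a % 8
      rw [h2, Nat.mod_eq_of_lt ha]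
    · rintro ⟨h1, h2⟩
      refine ⟨Nat.modEq_zero_iff_dvd.mp (h1.trans hv1), ?_⟩
      have h3 : e % 8 = a % 8 := h2.trans hv2
      rwa [Nat.mod_eq_of_lt ha] at h3
  have h1 : ∑ e ∈ range M, (if t ∣ e ∧ e % 8 = a then (1:ℝ) else 0) = (M.count (· ≡ v [MOD (t * 8)]) : ℝ) := by
    rw [Nat.count_eq_card_filter_range, ← sum_boole]
    exact sum_congr rfl fun e _ => if_congr (hiff e) rfl rfl
  have hr : 0 < t * 8 := by omega
  rw [h1, Nat.count_modEq_card M hr v]
  have hr0 : (0:ℝ) < 8 * t := by exact_mod_cast (by omega : 0 < 8 * t)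
  have h2 : ((M / (t * 8) : ℕ) : ℝ) ≤ (M : ℝ) / (8 * t) := by
    have := @Nat.cast_div_le ℝ _ _ _ M (t * 8)
    push_cast at this
    rwa [mul_comm (t : ℝ) 8] at this
  have h3 : (M : ℝ) / (8 * t) < ((M / (t * 8) : ℕ) : ℝ) + 1 := by
    rw [div_lt_iff₀ hr0]
    have := Nat.lt_div_mul_add (a := M) hr
    have h4 : (M : ℝ) < ((M / (t * 8) : ℕ) : ℝ) * (t * 8) + t * 8 := by exact_mod_cast this
    linarith
  push_cast
  split_ifs
  · rw [abs_le]
    constructor <;> push_cast <;> linarith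
  · rw [abs_le]
    constructor <;> push_cast <;> linarith

/-- density of an odd class mod 8 prime to `w` -/
noncomputable def rho (w : ℕ) : ℝ := (∑ t ∈ w.divisors, mu t / t) / 8

noncomputable def cw (w b : ℕ) : ℝ := if Odd b ∧ b.Coprime w then 1 else 0

noncomputable def hw (a w e : ℕ) : ℝ := if e % 8 = a ∧ e.Coprime w then 1 else 0

lemma H_count {w a : ℕ} (ho : Odd w) (ha : a < 8) (M : ℕ) :
    |∑ e ∈ range M, hw a w e - rho w * M| ≤ w.divisors.card := by
  have hw0 : w ≠ 0 := ho.pos.ne'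
  have h1 : ∑ e ∈ range M, hw a w e = ∑ t ∈ w.divisors, mu t * ∑ e ∈ range M, (if t ∣ e ∧ e % 8 = a then (1:ℝ) else 0) := by
    simp_rw [mul_sum]
    rw [sum_comm]
    refine sum_congr rfl fun e _ => ?_
    unfold hw
    by_cases he : e % 8 = a
    · have := cop_ind (e := e) hw0
      simp only [he, true_and, and_true]
      exact this
    · simp [he]
  have h2 : rho w * M = ∑ t ∈ w.divisors, mu t * ((M : ℝ) / (8 * t)) := by
    unfold rho
    rw [sum_div, sum_mul]
    refine sum_congr rfl fun t ht => ?_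
    have : (t : ℝ) ≠ 0 := by
      have := Nat.pos_of_mem_divisors ht
      positivity
    field_simp
  rw [h1, h2, ← sum_sub_distrib]
  refine (abs_sum_le_sum_abs _ _).trans ?_
  rw [card_eq_sum_ones]
  push_cast
  refine sum_le_sum fun t ht => ?_
  rw [← mul_sub, abs_mul]
  have hto : Odd t := ho.of_dvd_nat (Nat.dvd_of_mem_divisors ht)
  exact mul_le_one₀ (mu_abs t) (abs_nonneg _) (ap_count hto ha M)

lemma rho_abs (w : ℕ) (ho : Odd w) : |rho w| ≤ 1 := by
  -- from the count with large `M`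
  have h : ∀ M : ℕ, 0 < M → |rho w| ≤ 1 + (w.divisors.card : ℝ) / M := by
    intro M hM
    have hM0 : (0:ℝ) < M := by exact_mod_cast hM
    have h1 := H_count ho (show 1 < 8 by norm_num) M
    have h2 : |∑ e ∈ range M, hw 1 w e| ≤ M := by
      refine (abs_sum_le_sum_abs _ _).trans ?_
      have : ∀ e ∈ range M, |hw 1 w e| ≤ 1 := by
        intro e _
        unfold hw
        split_ifs <;> norm_num
      refine (sum_le_sum this).trans ?_
      simp
    have h3 : |rho w * M| ≤ M + w.divisors.card := by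
      have : rho w * M = ∑ e ∈ range M, hw 1 w e - (∑ e ∈ range M, hw 1 w e - rho w * M) := by ring
      rw [this]
      exact (abs_sub _ _).trans (add_le_add h2 h1)
    rw [abs_mul, abs_of_pos hM0] at h3
    have h4 : |rho w| ≤ (M + w.divisors.card) / M := by
      rw [le_div_iff₀ hM0]
      exact h3
    rwa [add_div, div_self hM0.ne'] at h4
  refine le_of_tendsto_of_tendsto' (tendsto_const_nhds (x := |rho w|)) (f := fun _ : ℕ => |rho w|)
    (g := fun n : ℕ => 1 + (w.divisors.card : ℝ) / ((n + 1 : ℕ) : ℝ)) (b := Filter.atTop) ?_ (fun n => h (n + 1) (Nat.succ_pos n))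
  have h5 : Filter.Tendsto (fun n : ℕ => (w.divisors.card : ℝ) / ((n + 1 : ℕ) : ℝ)) Filter.atTop (nhds 0) :=
    (tendsto_const_div_atTop_nhds_zero_nat (w.divisors.card : ℝ)).comp (Filter.tendsto_add_atTop_nat 1)
  simpa using h5.const_add 1

lemma hw_be {a w : ℕ} (ha : a % 2 = 1) (ha8 : a < 8) (b e : ℕ) : hw a w (b ^ 2 * e) = cw w b * hw a w e := by
  unfold hw cw
  by_cases hb : Odd b
  · have h1 : b ^ 2 % 8 = 1 := by
      obtain ⟨c, rfl⟩ := hb
      have h2 : Even (c * (c + 1)) := Nat.even_mul_succ_self c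
      obtain ⟨d, hd⟩ := h2
      have : (2 * c + 1) ^ 2 = 8 * d + 1 := by
        have : (2 * c + 1) ^ 2 = 4 * (c * (c + 1)) + 1 := by ring
        rw [this, hd]; ring
      omega
    have h2 : (b ^ 2 * e) % 8 = e % 8 := by
      rw [Nat.mul_mod, h1, one_mul, Nat.mod_mod]
    have h3 : (b ^ 2 * e).Coprime w ↔ b.Coprime w ∧ e.Coprime w := by
      rw [Nat.coprime_mul_iff_left, Nat.coprime_pow_left_iff (by norm_num)]
    rw [h2]
    by_cases hbw : b.Coprime w
    · rw [if_pos (show Odd b ∧ b.Coprime w from ⟨hb, hbw⟩), one_mul]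
      exact if_congr (and_congr_right fun _ => h3.trans ⟨fun h => h.2, fun h => ⟨hbw, h⟩⟩) rfl rfl
    · rw [if_neg (show ¬ (Odd b ∧ b.Coprime w) from fun h => hbw h.2), zero_mul]
      exact if_neg fun h => hbw (h3.mp h.2).1
  · rw [if_neg, if_neg, zero_mul]
    · exact fun h => hb h.1
    · rintro ⟨h, _⟩
      rw [Nat.not_odd_iff_even] at hb
      obtain ⟨c, rfl⟩ := hb
      have : (c + c) ^ 2 * e = 4 * (c ^ 2 * e) := by ring
      omega

/-- squarefree numbers in an odd class mod 8 prime to `w` -/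
theorem A_count {w a : ℕ} (ho : Odd w) (ha : a % 2 = 1) (ha8 : a < 8) (N : ℕ) :
    |∑ d ∈ (range N).filter Squarefree, hw a w d - rho w * (∑' b : ℕ, mu b * cw w b / (b : ℝ) ^ 2) * N| ≤
      4 * w.divisors.card * Real.sqrt N := by
  have hB : (1:ℝ) ≤ w.divisors.card := by
    have : 0 < w.divisors.card := card_pos.mpr (Nat.nonempty_divisors.mpr ho.pos.ne')
    exact_mod_cast this
  refine sqf_main hB ?_ ?_ (rho_abs w ho) (fun b e _ => hw_be ha ha8 b e) (fun M => H_count ho ha8 M) N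
  · unfold hw
    rw [if_neg]
    rintro ⟨h, _⟩
    omega
  · intro b
    unfold cw
    split_ifs <;> norm_num

/-- density of an odd class mod 8 among the squarefree numbers prime to `w` -/
noncomputable def dens0 (w : ℕ) : ℝ := rho w * ∑' b : ℕ, mu b * cw w b / (b : ℝ) ^ 2

/-- the odd part of the radical -/
def op (q : ℕ) : ℕ := ∏ p ∈ q.primeFactors.erase 2, p

/-- density of the fundamental discriminants of a given sign prime to `q` -/
noncomputable def dens (q : ℕ) : ℝ := dens0 (op q) * (if Even q then 2 else 3)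

lemma cop_op {q m : ℕ} : m.Coprime (op q) ↔ ∀ p ∈ q.primeFactors.erase 2, ¬ p ∣ m := by
  unfold op
  rw [Nat.coprime_prod_right_iff]
  refine forall₂_congr fun p hp => ?_
  have hpp : p.Prime := Nat.prime_of_mem_primeFactors (mem_of_mem_erase hp)
  rw [Nat.coprime_comm, hpp.coprime_iff_not_dvd]

lemma op_odd (q : ℕ) : Odd (op q) := by
  have h : Nat.Coprime 2 (op q) := by
    rw [cop_op]
    intro p hp h2
    rw [mem_erase] at hp
    have hpp : p.Prime := Nat.prime_of_mem_primeFactors hp.2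
    exact hp.1 ((Nat.prime_dvd_prime_iff_eq hpp Nat.prime_two).mp h2)
  exact Nat.coprime_two_left.mp h

lemma op_dvd (q : ℕ) : op q ∣ q := by
  unfold op
  exact (prod_dvd_prod_of_subset _ _ _ (erase_subset _ _)).trans (Nat.prod_primeFactors_dvd q)

lemma cop_odd {q m : ℕ} (hq : q ≠ 0) (hm : Odd m) : m.Coprime q ↔ m.Coprime (op q) := by
  rw [cop_op]
  constructor
  · intro h p hp hpm
    rw [mem_erase, Nat.mem_primeFactors] at hp
    exact Nat.not_coprime_of_dvd_of_dvd hp.2.1.one_lt hpm hp.2.2.1 h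
  · intro h
    rw [Nat.coprime_iff_gcd_eq_one]
    by_contra hg
    obtain ⟨p, hp, hpd⟩ := Nat.exists_prime_and_dvd hg
    refine h p ?_ (hpd.trans (Nat.gcd_dvd_left _ _))
    rw [mem_erase, Nat.mem_primeFactors]
    refine ⟨?_, hp, hpd.trans (Nat.gcd_dvd_right _ _), hq⟩
    rintro rfl
    have := hpd.trans (Nat.gcd_dvd_left _ _)
    rw [← even_iff_two_dvd] at this
    exact (Nat.not_even_iff_odd.mpr hm) this

open Classical in
/-- the count of the fundamental discriminants prime to `q` -/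
theorem fund_count {ε : ℤ} (hε : ε = 1 ∨ ε = -1) {q : ℕ} (hq : q ≠ 0) {X : ℝ} (hX : 0 ≤ X) :
    |∑ D ∈ SX0 ε X, (if Int.gcd D q = 1 then (1:ℝ) else 0) - dens q * X| ≤
      48 * q.divisors.card * Real.sqrt (X + 1) := by
  obtain ⟨w, hwd⟩ : ∃ w, w = op q := ⟨_, rfl⟩
  have how : Odd w := hwd ▸ op_odd q
  have hcard : (w.divisors.card : ℝ) ≤ q.divisors.card := by
    have h1 : w ∣ q := by
      rw [hwd]
      exact op_dvd q
    exact_mod_cast card_le_card (Nat.divisors_subset_of_dvd hq h1)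
  have hw1 : (1:ℝ) ≤ w.divisors.card := by
    have : 0 < w.divisors.card := card_pos.mpr (Nat.nonempty_divisors.mpr how.pos.ne')
    exact_mod_cast this
  have hd0 : |dens0 w| ≤ 2 := by
    unfold dens0
    rw [abs_mul]
    have h1 := rho_abs w how
    have h2 : |∑' b : ℕ, mu b * cw w b / (b : ℝ) ^ 2| ≤ 2 := by
      have hf : ∀ b : ℕ, |mu b * cw w b / (b : ℝ) ^ 2| ≤ ((b : ℝ) ^ 2)⁻¹ := by
        intro b
        rw [div_eq_mul_inv, abs_mul, abs_mul, abs_of_nonneg (by positivity : (0:ℝ) ≤ ((b : ℝ) ^ 2)⁻¹)]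
        have a1 := mu_abs b
        have a2 : |cw w b| ≤ 1 := by
          unfold cw
          split_ifs <;> norm_num
        calc |mu b| * |cw w b| * ((b : ℝ) ^ 2)⁻¹ ≤ 1 * 1 * ((b : ℝ) ^ 2)⁻¹ := by gcongr
          _ = _ := by ring
      have hsum : Summable fun b : ℕ => mu b * cw w b / (b : ℝ) ^ 2 := by
        refine Summable.of_norm_bounded (g := fun b : ℕ => ((b : ℝ) ^ 2)⁻¹) ?_ hf
        simpa using Real.summable_one_div_nat_pow.mpr (by norm_num : 1 < 2)
      have h3 := tail_bd hf (by simp) hsum 0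
      simpa using h3
    calc |rho w| * |∑' b : ℕ, mu b * cw w b / (b : ℝ) ^ 2| ≤ 1 * 2 := by gcongr
      _ = 2 := by norm_num
  -- the three families
  have key : ∀ (r : ℕ), 1 ≤ r → ∀ a, a % 2 = 1 → a < 8 →
      |∑ m ∈ (range ⌈X / (r : ℕ)⌉₊).filter Squarefree, hw a w m - dens0 w * (X / r)| ≤ 4 * w.divisors.card * Real.sqrt (X + 1) + 2 := by
    intro r hr a ha ha8
    have hr1 : (1:ℝ) ≤ r := by exact_mod_cast hr
    have hXr : 0 ≤ X / (r : ℝ) := by positivity
    have h1 := A_count how ha ha8 ⌈X / (r : ℝ)⌉₊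
    have h2 : ((⌈X / (r : ℝ)⌉₊ : ℕ) : ℝ) ≤ X + 1 := by
      have h2 := (Nat.ceil_lt_add_one hXr).le
      have h3 : X / (r : ℝ) ≤ X := div_le_self hX hr1
      linarith
    have h3 : |dens0 w * ((⌈X / (r : ℝ)⌉₊ : ℕ) : ℝ) - dens0 w * (X / r)| ≤ 2 := by
      rw [← mul_sub, abs_mul]
      have h4 : |((⌈X / (r : ℝ)⌉₊ : ℕ) : ℝ) - X / r| ≤ 1 := by
        rw [abs_le]
        constructor
        · linarith [Nat.le_ceil (X / (r : ℝ))]
        · linarith [Nat.ceil_lt_add_one hXr]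
      calc |dens0 w| * |((⌈X / (r : ℝ)⌉₊ : ℕ) : ℝ) - X / r| ≤ 2 * 1 := by gcongr
        _ = 2 := by norm_num
    have e : ∑ m ∈ (range ⌈X / (r : ℕ)⌉₊).filter Squarefree, hw a w m - dens0 w * (X / r) =
        (∑ m ∈ (range ⌈X / (r : ℕ)⌉₊).filter Squarefree, hw a w m - rho w * (∑' b : ℕ, mu b * cw w b / (b : ℝ) ^ 2) * ((⌈X / (r : ℝ)⌉₊ : ℕ) : ℝ)) +
        (dens0 w * ((⌈X / (r : ℝ)⌉₊ : ℕ) : ℝ) - dens0 w * (X / r)) := by
      unfold dens0
      ring
    rw [e]
    refine (abs_add_le _ _).trans (add_le_add (h1.trans ?_) h3)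
    gcongr
  have hS1 : ∀ a ∈ S1 ε, a % 2 = 1 ∧ a < 8 := by
    intro r hr
    rcases hε with h | h <;> subst h <;> simp [S1] at hr <;> omega
  have hS4 : ∀ a ∈ S4 ε, a % 2 = 1 ∧ a < 8 := by
    intro r hr
    rcases hε with h | h <;> subst h <;> simp [S4] at hr <;> omega
  have hS8 : ∀ a ∈ S8, a % 2 = 1 ∧ a < 8 := by
    intro r hr
    rw [mem_S8] at hr
    omega
  have c1 : (S1 ε).card = 2 := by
    rcases hε with h | h <;> subst h <;> simp [S1]
  have c4 : (S4 ε).card = 2 := by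
    rcases hε with h | h <;> subst h <;> simp [S4]
  have c8 : S8.card = 4 := by simp [S8]
  have hgcd : ∀ N : ℕ, Int.gcd (ε * (N : ℤ)) q = Nat.gcd N q := by
    intro N
    rcases hε with h | h <;> subst h
    · rw [one_mul]; rfl
    · rw [neg_one_mul, Int.neg_gcd]; rfl
  -- sum over a family
  have fam : ∀ (r : ℕ), 1 ≤ r → r.Coprime q → ∀ S : Finset ℕ, (∀ a ∈ S, a % 2 = 1 ∧ a < 8) →
      |∑ m ∈ (range ⌈X / (r : ℕ)⌉₊).filter Squarefree, (if m % 8 ∈ S then (if Int.gcd (ε * ((r * m : ℕ) : ℤ)) q = 1 then (1:ℝ) else 0) else 0) -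
        S.card * (dens0 w * (X / r))| ≤ S.card * (4 * w.divisors.card * Real.sqrt (X + 1) + 2) := by
    intro r hr hrq S hS
    have e1 : ∀ m, (if m % 8 ∈ S then (if Int.gcd (ε * ((r * m : ℕ) : ℤ)) q = 1 then (1:ℝ) else 0) else 0) = ∑ a ∈ S, hw a w m := by
      intro m
      unfold hw
      rw [hgcd]
      by_cases hm : m % 8 ∈ S
      · have hmo : Odd m := by
          have := (hS _ hm).1
          rw [Nat.odd_iff]; omega
        have h1 : Nat.gcd (r * m) q = 1 ↔ m.Coprime w := by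
          rw [hwd, ← cop_odd hq hmo]
          constructor
          · exact fun h => Nat.Coprime.coprime_mul_left h
          · exact fun h => Nat.Coprime.mul_left hrq h
        rw [if_pos hm, sum_eq_single (m % 8)]
        · exact if_congr (h1.trans ⟨fun h => ⟨rfl, h⟩, fun h => h.2⟩) rfl rfl
        · intro a _ ha
          rw [if_neg fun h => ha h.1.symm]
        · exact fun h => absurd hm h
      · rw [if_neg hm]
        symm
        refine sum_eq_zero fun a ha => ?_
        rw [if_neg]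
        rintro ⟨h, _⟩
        exact hm (h ▸ ha)
    rw [sum_congr rfl fun m _ => e1 m, sum_comm]
    have e2 : (S.card : ℝ) * (dens0 w * (X / r)) = ∑ a ∈ S, dens0 w * (X / r) := by
      rw [sum_const, nsmul_eq_mul]
    have e3 : (S.card : ℝ) * (4 * w.divisors.card * Real.sqrt (X + 1) + 2) = ∑ a ∈ S, (4 * w.divisors.card * Real.sqrt (X + 1) + 2) := by
      rw [sum_const, nsmul_eq_mul]
    rw [e2, e3, ← sum_sub_distrib]
    exact (abs_sum_le_sum_abs _ _).trans (sum_le_sum fun a ha => key r hr a (hS a ha).1 (hS a ha).2)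
  have hsq1 : 1 ≤ Real.sqrt (X + 1) := by
    rw [Real.one_le_sqrt]
    linarith
  obtain ⟨V, hV⟩ : ∃ V : ℝ, V = 4 * w.divisors.card * Real.sqrt (X + 1) + 2 := ⟨_, rfl⟩
  have hV0 : 0 ≤ V := by rw [hV]; positivity
  have hVb : V ≤ 6 * q.divisors.card * Real.sqrt (X + 1) := by
    have h1 : (1:ℝ) ≤ q.divisors.card := hw1.trans hcard
    have h2 : 4 * (w.divisors.card : ℝ) * Real.sqrt (X + 1) ≤ 4 * q.divisors.card * Real.sqrt (X + 1) := by gcongr
    have h3 : 1 * 1 ≤ (q.divisors.card : ℝ) * Real.sqrt (X + 1) := by gcongr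
    rw [hV]
    linarith
  have f1 := fam 1 le_rfl (Nat.coprime_one_left q) (S1 ε) hS1
  rw [← hV, c1] at f1
  rw [sum_SX0 hε X (fun D => if Int.gcd D q = 1 then (1:ℝ) else 0)]
  rcases Nat.even_or_odd q with hqe | hqo
  · have z : ∀ (r : ℕ) (S : Finset ℕ), Even r → ∀ M : ℕ, ∑ m ∈ (range M).filter Squarefree,
        (if m % 8 ∈ S then (if Int.gcd (ε * ((r * m : ℕ) : ℤ)) q = 1 then (1:ℝ) else 0) else 0) = 0 := by
      intro r S hr M
      refine sum_eq_zero fun m _ => ?_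
      rw [hgcd]
      have h1 : ¬ Nat.gcd (r * m) q = 1 := by
        intro h
        have h2 : 2 ∣ Nat.gcd (r * m) q := Nat.dvd_gcd (Dvd.dvd.mul_right (even_iff_two_dvd.mp hr) m) (even_iff_two_dvd.mp hqe)
        omega
      rw [if_neg h1]
      split_ifs <;> rfl
    rw [z 4 (S4 ε) (by decide), z 8 S8 (by decide), add_zero, add_zero]
    have e : dens q * X = ((2:ℕ) : ℝ) * (dens0 w * (X / (1:ℕ))) := by
      unfold dens
      rw [if_pos hqe, ← hwd]
      push_cast
      ring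
    rw [e]
    refine f1.trans ?_
    push_cast
    linarith
  · have hc4 : (4:ℕ).Coprime q := by
      rw [show (4:ℕ) = 2 ^ 2 by norm_num]
      exact Nat.Coprime.pow_left 2 (Nat.coprime_two_left.mpr hqo)
    have hc8 : (8:ℕ).Coprime q := by
      rw [show (8:ℕ) = 2 ^ 3 by norm_num]
      exact Nat.Coprime.pow_left 3 (Nat.coprime_two_left.mpr hqo)
    have f4 := fam 4 (by norm_num) hc4 (S4 ε) hS4
    have f8 := fam 8 (by norm_num) hc8 S8 hS8
    rw [← hV, c4] at f4
    rw [← hV, c8] at f8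
    have e : dens q * X = ((2:ℕ) : ℝ) * (dens0 w * (X / (1:ℕ))) + (((2:ℕ) : ℝ) * (dens0 w * (X / (4:ℕ))) + ((4:ℕ) : ℝ) * (dens0 w * (X / (8:ℕ)))) := by
      unfold dens
      rw [if_neg (Nat.not_even_iff_odd.mpr hqo), ← hwd]
      push_cast
      ring
    rw [e]
    rw [abs_le] at f1 f4 f8 ⊢
    push_cast at f1 f4 f8 ⊢
    constructor <;> linarith [f1.1, f1.2, f4.1, f4.2, f8.1, f8.2]

end Pool.Agent.R313.QM
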