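import Pool.Agent.R313.QM.O

set_option autoImplicit false
set_option linter.all false

/-! Character sums over the positive fundamental discriminants with the main term; partial summation. -/

namespace Pool.Agent.R313.QM

open Finset MeasureTheory
open Pool.Agent.H66R2.RZFI1 (mu mu_abs mu_sq_eq mu_tsum_odd)

theorem card_div_le (n : ℕ) : (n.divisors.card : ℝ) ≤ 2 * Real.sqrt n := by
  have h1 : n.divisors ⊆ (Finset.Icc 1 (Nat.sqrt n)) ∪ (Finset.Icc 1 (Nat.sqrt n)).image (fun d => n / d) := by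
    intro d hd
    rw [Nat.mem_divisors] at hd
    obtain ⟨⟨e, he⟩, hn⟩ := hd
    have hd0 : 0 < d := Nat.pos_of_ne_zero (by rintro rfl; simp at he; exact hn he)
    have he0 : 0 < e := Nat.pos_of_ne_zero (by rintro rfl; simp at he; exact hn he)
    rw [Finset.mem_union]
    by_cases h : d ≤ Nat.sqrt n
    · left; rw [Finset.mem_Icc]; exact ⟨hd0, h⟩
    · right
      rw [Finset.mem_image]
      refine ⟨e, ?_, ?_⟩
      · rw [Finset.mem_Icc]
        refine ⟨he0, ?_⟩
        by_contra h2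
        have h3 : Nat.sqrt n + 1 ≤ d := by omega
        have h4 : Nat.sqrt n + 1 ≤ e := by omega
        have h5 : (Nat.sqrt n + 1) * (Nat.sqrt n + 1) ≤ d * e := Nat.mul_le_mul h3 h4
        have h6 := Nat.lt_succ_sqrt n
        rw [← he] at h5
        simp only [Nat.succ_eq_add_one] at h6
        omega
      · rw [he]; exact Nat.mul_div_cancel d he0
  have h2 : n.divisors.card ≤ Nat.sqrt n + Nat.sqrt n := by
    calc n.divisors.card ≤ _ := Finset.card_le_card h1
      _ ≤ (Finset.Icc 1 (Nat.sqrt n)).card + ((Finset.Icc 1 (Nat.sqrt n)).image (fun d => n / d)).card :=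
          Finset.card_union_le _ _
      _ ≤ Nat.sqrt n + Nat.sqrt n := by
          have := Finset.card_image_le (s := Finset.Icc 1 (Nat.sqrt n)) (f := fun d => n / d)
          simp at this ⊢
          omega
  have h3 : ((Nat.sqrt n : ℕ) : ℝ) ≤ Real.sqrt n := Real.nat_sqrt_le_real_sqrt
  have h4 : (n.divisors.card : ℝ) ≤ Nat.sqrt n + Nat.sqrt n := by exact_mod_cast h2
  linarith

/-- the sum of the characters at `a` over the positive fundamental discriminants `1 < D < x` -/
noncomputable def SS (a : ℕ) (x : ℝ) : ℝ := ∑ D ∈ SX 1 x, (kron D a : ℝ)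

open Classical in
/-- the density -/
noncomputable def del (a : ℕ) : ℝ := if IsSquare a then dens a else 0

lemma dens_bd {a : ℕ} (ha : a ≠ 0) : |dens a| ≤ 1 := by
  rw [dens_eq ha, abs_mul]
  have h1 : |3 / Real.pi ^ 2| ≤ 1 := by
    rw [abs_of_pos (by positivity), div_le_one (by positivity)]
    nlinarith [Real.pi_gt_three]
  have h2 : |∏ p ∈ a.primeFactors, ((p : ℝ) / (p + 1))| ≤ 1 := by
    rw [abs_of_nonneg (prod_nonneg fun p _ => by positivity)]
    refine prod_le_one (fun p _ => by positivity) fun p _ => ?_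
    rw [div_le_one (by positivity)]
    linarith
  exact mul_le_one₀ h1 (abs_nonneg _) h2

lemma del_bd {a : ℕ} (ha : a ≠ 0) : |del a| ≤ 1 := by
  unfold del
  split_ifs
  · exact dens_bd ha
  · simp

lemma dens_sq {w : ℕ} (hw : w ≠ 0) : dens (w ^ 2) = dens w := by
  rw [dens_eq hw, dens_eq (pow_ne_zero 2 hw), Nat.primeFactors_pow w two_ne_zero]

lemma SX_small {x : ℝ} (hx : x ≤ 1) : SX 1 x = ∅ := by
  rw [eq_empty_iff_forall_notMem]
  intro D hD
  unfold SX at hD
  rw [mem_erase] at hD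
  have h := hD.2
  unfold SX0 at h
  have h1 := (@mem_filter _ _ (_) _ _).mp h
  rw [mem_Ioo] at h1
  obtain ⟨⟨_, h2⟩, _, h3⟩ := h1
  rw [Int.lt_ceil] at h2
  have h4 : (1:ℝ) ≤ (D : ℝ) := by exact_mod_cast (by omega : 1 ≤ D)
  linarith

theorem SS_bound {κ : ℝ} (hκ : 0 < κ) : ∃ C : ℝ, 0 ≤ C ∧ ∀ a : ℕ, a ≠ 0 → ∀ x : ℝ, 0 ≤ x →
    |SS a x - del a * x| ≤ C * (x ^ (1 / 2 : ℝ) * (a : ℝ) ^ (1 / 4 + κ)) := by
  classical
  obtain ⟨CK, hCK, hK⟩ := K_bound hκ
  refine ⟨CK + 200, by positivity, fun a ha x hx => ?_⟩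
  have ha1 : (1:ℝ) ≤ a := by exact_mod_cast Nat.pos_of_ne_zero ha
  have hapow : 1 ≤ (a : ℝ) ^ (1 / 4 + κ) := Real.one_le_rpow ha1 (by positivity)
  rcases lt_or_ge x 1 with hx1 | hx1
  · have h1 : SS a x = 0 := by
      unfold SS
      rw [SX_small hx1.le, sum_empty]
    rw [h1, zero_sub, abs_neg, abs_mul, abs_of_nonneg hx]
    have h2 : x ≤ x ^ (1 / 2 : ℝ) := by
      rcases eq_or_lt_of_le hx with h | h
      · rw [← h]; rw [Real.zero_rpow (by norm_num)]
      · calc x = x ^ (1:ℝ) := (Real.rpow_one x).symm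
          _ ≤ x ^ (1 / 2 : ℝ) := Real.rpow_le_rpow_of_exponent_ge h hx1.le (by norm_num)
    have h3 : 0 ≤ x ^ (1 / 2 : ℝ) := by positivity
    calc |del a| * x ≤ 1 * x ^ (1 / 2 : ℝ) := by
          have := del_bd ha
          gcongr
      _ ≤ (CK + 200) * (x ^ (1 / 2 : ℝ) * (a : ℝ) ^ (1 / 4 + κ)) := by
          have h4 : x ^ (1 / 2 : ℝ) * 1 ≤ x ^ (1 / 2 : ℝ) * (a : ℝ) ^ (1 / 4 + κ) := by gcongr
          nlinarith
  · by_cases hsq : IsSquare a
    · obtain ⟨w, hw⟩ := hsq
      have hw2 : a = w ^ 2 := by rw [hw]; ring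
      have hw0 : w ≠ 0 := by rintro rfl; simp at hw; exact ha hw
      have hdel : del a = dens w := by
        unfold del
        rw [if_pos ⟨w, hw⟩, hw2, dens_sq hw0]
      have h1 : SS a x = ∑ D ∈ SX 1 x, (if Int.gcd D w = 1 then (1:ℝ) else 0) := by
        unfold SS
        refine sum_congr rfl fun D hD => ?_
        rw [hw2, kron_square (mem_SX hD).1 hw0]
        split_ifs <;> simp
      have h2 := fund_count (ε := 1) (Or.inl rfl) hw0 hx
      have h3 : |∑ D ∈ SX 1 x, (if Int.gcd D w = 1 then (1:ℝ) else 0) - ∑ D ∈ SX0 1 x, (if Int.gcd D w = 1 then (1:ℝ) else 0)| ≤ 1 := by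
        unfold SX
        by_cases hm : (1:ℤ) ∈ SX0 1 x
        · have h3 := add_sum_erase _ (fun D : ℤ => if Int.gcd D w = 1 then (1:ℝ) else 0) hm
          rw [← h3, sub_add_cancel_right, abs_neg]
          split_ifs <;> simp
        · rw [erase_eq_of_notMem hm]
          simp
      have h4 : (w.divisors.card : ℝ) ≤ 2 * (a : ℝ) ^ (1 / 4 : ℝ) := by
        refine (card_div_le w).trans (le_of_eq ?_)
        congr 1
        rw [hw2]
        push_cast
        rw [Real.sqrt_eq_rpow, ← Real.rpow_natCast (w : ℝ) 2, ← Real.rpow_mul (Nat.cast_nonneg w)]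
        norm_num
      have h5 : Real.sqrt (x + 1) ≤ 2 * x ^ (1 / 2 : ℝ) := by
        rw [← Real.sqrt_eq_rpow]
        apply Real.sqrt_le_iff.mpr
        refine ⟨by positivity, ?_⟩
        rw [mul_pow, Real.sq_sqrt (by linarith)]
        linarith
      have h6 : (a : ℝ) ^ (1 / 4 : ℝ) ≤ (a : ℝ) ^ (1 / 4 + κ) := Real.rpow_le_rpow_of_exponent_le ha1 (by linarith)
      have h7 : 1 ≤ x ^ (1 / 2 : ℝ) := Real.one_le_rpow hx1 (by norm_num)
      rw [hdel, h1]
      have e : ∑ D ∈ SX 1 x, (if Int.gcd D w = 1 then (1:ℝ) else 0) - dens w * x =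
          (∑ D ∈ SX 1 x, (if Int.gcd D w = 1 then (1:ℝ) else 0) - ∑ D ∈ SX0 1 x, (if Int.gcd D w = 1 then (1:ℝ) else 0)) +
          (∑ D ∈ SX0 1 x, (if Int.gcd D w = 1 then (1:ℝ) else 0) - dens w * x) := by ring
      rw [e]
      refine (abs_add_le _ _).trans ((add_le_add h3 h2).trans ?_)
      have h8 : 48 * (w.divisors.card : ℝ) * Real.sqrt (x + 1) ≤ 48 * (2 * (a : ℝ) ^ (1 / 4 + κ)) * (2 * x ^ (1 / 2 : ℝ)) := by
        gcongr
        exact h4.trans (mul_le_mul_of_nonneg_left h6 (by norm_num))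
      have h9 : (1:ℝ) ≤ x ^ (1 / 2 : ℝ) * (a : ℝ) ^ (1 / 4 + κ) := one_le_mul_of_one_le_of_one_le h7 hapow
      nlinarith
    · have h1 := hK 1 (Or.inl rfl) x hx1 a ha hsq
      have h2 : del a = 0 := by
        unfold del
        rw [if_neg hsq]
      rw [h2, zero_mul, sub_zero]
      unfold SS
      refine h1.trans ?_
      have : 0 ≤ x ^ (1 / 2 : ℝ) * (a : ℝ) ^ (1 / 4 + κ) := by positivity
      nlinarith

open Classical in
/-- the coefficients as a function on the natural numbers -/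
noncomputable def cd (a d : ℕ) : ℝ := if IsFund (d : ℤ) ∧ d ≠ 1 then (kron d a : ℝ) else 0

lemma not_fund_zero : ¬ IsFund 0 := by
  rintro (⟨h, _⟩ | ⟨m, h1, h2, _⟩)
  · norm_num at h
  · omega

lemma cd_zero (a : ℕ) : cd a 0 = 0 := by
  unfold cd
  rw [if_neg]
  rintro ⟨h, _⟩
  exact not_fund_zero (by simpa using h)

lemma SS_nat (a : ℕ) (x : ℝ) : SS a x = ∑ d ∈ range ⌈x⌉₊, cd a d := by
  classical
  unfold SS cd
  rw [← sum_filter]
  refine sum_bij (fun D _ => D.toNat) ?_ ?_ ?_ ?_
  · intro D hD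
    have hF := mem_SX hD
    unfold SX at hD
    rw [mem_erase] at hD
    have h := hD.2
    unfold SX0 at h
    have h1 := (@mem_filter _ _ (_) _ _).mp h
    rw [mem_Ioo] at h1
    obtain ⟨⟨_, h2⟩, _, h3⟩ := h1
    rw [Int.lt_ceil] at h2
    have h4 : ((D.toNat : ℕ) : ℤ) = D := Int.toNat_of_nonneg (by omega)
    rw [mem_filter, mem_range, Nat.lt_ceil, h4]
    refine ⟨?_, hF.1, ?_⟩
    · have : ((D.toNat : ℕ) : ℝ) = ((D : ℤ) : ℝ) := by exact_mod_cast h4
      rw [this]; exact h2
    · have := hF.2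
      omega
  · intro D hD D' hD' h
    have pos : ∀ D ∈ SX 1 x, 0 < D := by
      intro D hD
      unfold SX at hD
      rw [mem_erase] at hD
      have h := hD.2
      unfold SX0 at h
      have h1 := (@mem_filter _ _ (_) _ _).mp h
      have := h1.2.2
      omega
    have h1 := pos D hD
    have h2 := pos D' hD'
    change D.toNat = D'.toNat at h
    omega
  · intro d hd
    rw [mem_filter, mem_range, Nat.lt_ceil] at hd
    have hd0 : d ≠ 0 := by
      rintro rfl
      exact not_fund_zero (by simpa using hd.2.1)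
    refine ⟨(d : ℤ), ?_, by simp⟩
    unfold SX
    rw [mem_erase]
    refine ⟨by exact_mod_cast hd.2.2, ?_⟩
    unfold SX0
    refine (@mem_filter _ _ (_) _ _).mpr ⟨?_, hd.2.1, by omega⟩
    rw [mem_Ioo]
    have h5 : (d : ℤ) < ⌈x⌉ := by
      rw [Int.lt_ceil]
      exact_mod_cast hd.1
    exact ⟨by omega, h5⟩
  · intro D hD
    have pos : 0 < D := by
      unfold SX at hD
      rw [mem_erase] at hD
      have h := hD.2
      unfold SX0 at h
      have h1 := (@mem_filter _ _ (_) _ _).mp h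
      have := h1.2.2
      omega
    have h4 : ((D.toNat : ℕ) : ℤ) = D := Int.toNat_of_nonneg (by omega)
    show (kron D a : ℝ) = (kron ((D.toNat : ℕ) : ℤ) a : ℝ)
    rw [h4]

/-- partial summation -/
theorem abel {G : ℝ → ℂ} (hG : ContDiff ℝ 1 G) (hGc : HasCompactSupport G) (a : ℕ) :
    Integrable (fun u : ℝ => deriv G u * (SS a (Real.exp u) : ℂ)) ∧
    ∑' d : ℕ, (cd a d : ℂ) * G (Real.log d) = -∫ u : ℝ, deriv G u * (SS a (Real.exp u) : ℂ) := by
  obtain ⟨A, hA⟩ : ∃ A : ℝ, ∀ u, A < u → G u = 0 := by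
    obtain ⟨R, hR⟩ := hGc.isCompact.isBounded.subset_closedBall 0
    refine ⟨R, fun u hu => ?_⟩
    by_contra h
    have h1 := hR (subset_tsupport _ h)
    rw [Metric.mem_closedBall, dist_zero_right, Real.norm_eq_abs] at h1
    have := le_abs_self u
    linarith
  have hA' : ∀ u, A < u → deriv G u = 0 := by
    intro u hu
    have h1 : G =ᶠ[nhds u] fun _ => (0:ℂ) := by
      filter_upwards [lt_mem_nhds hu] with v hv
      exact hA v hv
    rw [h1.deriv_eq, deriv_const]
  obtain ⟨N, hN⟩ : ∃ N : ℕ, N = ⌈Real.exp A⌉₊ + 1 := ⟨_, rfl⟩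
  have hNA : Real.exp A < N := by
    rw [hN]
    push_cast
    linarith [Nat.le_ceil (Real.exp A)]
  have hout : ∀ d ∉ range N, (cd a d : ℂ) * G (Real.log d) = 0 := by
    intro d hd
    rw [mem_range, not_lt] at hd
    have h1 : (N : ℝ) ≤ d := by exact_mod_cast hd
    have h2 : A < Real.log d := by
      rw [Real.lt_log_iff_exp_lt]
      · linarith
      · linarith [Real.exp_pos A]
    rw [hA _ h2, mul_zero]
  rw [tsum_eq_sum hout]
  have hGi : Integrable (deriv G) := by
    have hc : Continuous (deriv G) := hG.continuous_deriv le_rfl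
    exact hc.integrable_of_hasCompactSupport hGc.deriv
  have h1 : ∀ d ∈ range N, (cd a d : ℂ) * G (Real.log d) = -∫ u : ℝ, (cd a d : ℂ) * (Set.Ioi (Real.log d)).indicator (deriv G) u := by
    intro d _
    rw [integral_const_mul, integral_indicator measurableSet_Ioi, HasCompactSupport.integral_Ioi_deriv_eq hG hGc]
    ring
  have hpt : ∀ u : ℝ, ∑ d ∈ range N, (cd a d : ℂ) * (Set.Ioi (Real.log d)).indicator (deriv G) u = deriv G u * (SS a (Real.exp u) : ℂ) := by
    intro u
    by_cases hu : A < u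
    · rw [hA' u hu, zero_mul]
      refine sum_eq_zero fun d _ => ?_
      rw [Set.indicator_apply, hA' u hu]
      simp
    · rw [not_lt] at hu
      have h2 : ⌈Real.exp u⌉₊ ≤ N := by
        rw [Nat.ceil_le]
        exact (Real.exp_le_exp.mpr hu).trans hNA.le
      rw [SS_nat]
      push_cast
      rw [mul_sum]
      have h3 : range ⌈Real.exp u⌉₊ ⊆ range N := range_subset_range.mpr h2
      rw [← sum_subset h3]
      · refine sum_congr rfl fun d hd => ?_
        rcases Nat.eq_zero_or_pos d with h0 | h0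
        · subst h0
          rw [cd_zero]
          push_cast
          ring
        · rw [mem_range, Nat.lt_ceil] at hd
          have hd0 : (0:ℝ) < d := by exact_mod_cast h0
          rw [Set.indicator_of_mem]
          · ring
          · rw [Set.mem_Ioi, Real.log_lt_iff_lt_exp hd0]
            exact hd
      · intro d _ hd
        rcases Nat.eq_zero_or_pos d with h0 | h0
        · subst h0
          rw [cd_zero]
          push_cast
          ring
        · rw [mem_range, Nat.lt_ceil] at hd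
          have hd0 : (0:ℝ) < d := by exact_mod_cast h0
          rw [Set.indicator_of_notMem, mul_zero]
          rw [Set.mem_Ioi, Real.log_lt_iff_lt_exp hd0]
          exact hd
  have hi : ∀ d ∈ range N, Integrable fun u : ℝ => (cd a d : ℂ) * (Set.Ioi (Real.log d)).indicator (deriv G) u :=
    fun d _ => (hGi.indicator measurableSet_Ioi).const_mul _
  refine ⟨(integrable_finsetSum _ hi).congr (Filter.Eventually.of_forall hpt), ?_⟩
  rw [sum_congr rfl h1, sum_neg_distrib, ← integral_finsetSum _ hi]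
  congr 1
  exact integral_congr_ae (Filter.Eventually.of_forall hpt)

end Pool.Agent.R313.QM
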