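import Pool.Agent.R313.QM.M

set_option autoImplicit false
set_option linter.all false

/-! The density in closed form. -/

namespace Pool.Agent.R313.QM

open Finset
open Pool.Agent.H66R2.RZFI1 (mu mu_abs mu_sq_eq mu_tsum_odd)

noncomputable def kap (w : ℕ) : ℝ := ∑' b : ℕ, mu b * cw w b / (b : ℝ) ^ 2

lemma cw_abs (w b : ℕ) : |cw w b| ≤ 1 := by
  unfold cw
  split_ifs <;> norm_num

lemma kap_bd (w b : ℕ) : |mu b * cw w b / (b : ℝ) ^ 2| ≤ ((b : ℝ) ^ 2)⁻¹ := by
  rw [div_eq_mul_inv, abs_mul, abs_mul, abs_of_nonneg (by positivity : (0:ℝ) ≤ ((b : ℝ) ^ 2)⁻¹)]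
  have a1 := mu_abs b
  have a2 := cw_abs w b
  calc |mu b| * |cw w b| * ((b : ℝ) ^ 2)⁻¹ ≤ 1 * 1 * ((b : ℝ) ^ 2)⁻¹ := by gcongr
    _ = _ := by ring

lemma kap_sum (w : ℕ) : Summable fun b : ℕ => mu b * cw w b / (b : ℝ) ^ 2 := by
  refine Summable.of_norm_bounded (g := fun b : ℕ => ((b : ℝ) ^ 2)⁻¹) ?_ (kap_bd w)
  simpa using Real.summable_one_div_nat_pow.mpr (by norm_num : 1 < 2)

lemma kap_one : kap 1 = 8 / Real.pi ^ 2 := by
  rw [← mu_tsum_odd]
  unfold kap
  refine tsum_congr fun b => ?_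
  unfold cw
  by_cases hb : Odd b
  · rw [if_pos ⟨hb, Nat.coprime_one_right b⟩, if_pos hb, mul_one]
  · rw [if_neg (fun h => hb h.1), if_neg hb, mul_zero, zero_div]

lemma mu_prime_mul {p : ℕ} (hp : p.Prime) (b : ℕ) : mu (p * b) = if p ∣ b then 0 else - mu b := by
  unfold Pool.Agent.H66R2.RZFI1.mu
  split_ifs with h
  · rw [ArithmeticFunction.moebius_eq_zero_of_not_squarefree]
    · norm_num
    · intro hs
      obtain ⟨c, rfl⟩ := h
      have := hs p ⟨c, by ring⟩
      exact hp.one_lt.ne' (Nat.isUnit_iff.mp this)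
  · have hc : Nat.Coprime p b := (Nat.Prime.coprime_iff_not_dvd hp).mpr h
    rw [ArithmeticFunction.isMultiplicative_moebius.map_mul_of_coprime hc, ArithmeticFunction.moebius_apply_prime hp]
    push_cast
    ring

lemma kap_rec {p w : ℕ} (hp : p.Prime) (h2 : p ≠ 2) (hpw : ¬ p ∣ w) : kap w = kap (p * w) * (1 - 1 / (p : ℝ) ^ 2) := by
  classical
  have hp0 : (p : ℝ) ≠ 0 := by exact_mod_cast hp.ne_zero
  have hpo : Odd p := hp.odd_of_ne_two h2
  obtain ⟨g, hg⟩ : ∃ g : ℕ → ℝ, ∀ b, g b = mu b * cw (p * w) b / (b : ℝ) ^ 2 := ⟨_, fun _ => rfl⟩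
  have hgs : Summable g := by
    rw [funext hg]; exact kap_sum (p * w)
  -- the part divisible by `p`
  obtain ⟨F, hF⟩ : ∃ F : ℕ → ℝ, ∀ b, F b = if p ∣ b then -(1 / (p : ℝ) ^ 2) * g (b / p) else 0 := ⟨_, fun _ => rfl⟩
  have hinj : Function.Injective (fun b : ℕ => p * b) := fun a b hab => Nat.eq_of_mul_eq_mul_left hp.pos hab
  have hFp : ∀ b, F (p * b) = -(1 / (p : ℝ) ^ 2) * g b := by
    intro b
    rw [hF, if_pos (dvd_mul_right p b), Nat.mul_div_cancel_left b hp.pos]
  have hsupp : Function.support F ⊆ Set.range (fun b : ℕ => p * b) := by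
    intro b hb
    by_contra h
    apply hb
    rw [hF, if_neg]
    rintro ⟨c, rfl⟩
    exact h ⟨c, rfl⟩
  have hFsum : Summable F := by
    rw [← hinj.summable_iff (fun x hx => by
      by_contra h
      exact hx (hsupp h))]
    refine (hgs.mul_left (-(1 / (p : ℝ) ^ 2))).congr fun b => ?_
    exact (hFp b).symm
  have hFt : ∑' b, F b = -(1 / (p : ℝ) ^ 2) * kap (p * w) := by
    rw [← hinj.tsum_eq hsupp]
    simp_rw [hFp]
    rw [tsum_mul_left]
    congr 1
    unfold kap
    exact tsum_congr fun b => hg b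
  have hterm : ∀ b, mu b * cw w b / (b : ℝ) ^ 2 = g b + F b := by
    intro b
    by_cases hpb : p ∣ b
    · obtain ⟨c, rfl⟩ := hpb
      rw [hFp, hg, hg]
      have c1 : cw (p * w) (p * c) = 0 := by
        unfold cw
        rw [if_neg]
        rintro ⟨_, h⟩
        exact Nat.not_coprime_of_dvd_of_dvd hp.one_lt (dvd_mul_right p c) (dvd_mul_right p w) h
      rw [c1, mul_zero, zero_div, zero_add, mu_prime_mul hp]
      by_cases hpc : p ∣ c
      · have c2 : cw (p * w) c = 0 := by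
          unfold cw
          rw [if_neg]
          rintro ⟨_, h⟩
          exact Nat.not_coprime_of_dvd_of_dvd hp.one_lt hpc (dvd_mul_right p w) h
        rw [if_pos hpc, c2]
        ring
      · have c2 : cw (p * w) c = cw w (p * c) := by
          unfold cw
          refine if_congr ?_ rfl rfl
          rw [Nat.odd_mul, Nat.coprime_mul_iff_right, Nat.coprime_mul_iff_left]
          constructor
          · rintro ⟨a1, a2, a3⟩
            exact ⟨⟨hpo, a1⟩, (hp.coprime_iff_not_dvd).mpr hpw, a3⟩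
          · rintro ⟨⟨a1, a2⟩, a3, a4⟩
            exact ⟨a2, ((hp.coprime_iff_not_dvd).mpr hpc).symm, a4⟩
        rw [if_neg hpc, c2]
        rcases Nat.eq_zero_or_pos c with h0 | h0
        · subst h0
          exact absurd (dvd_zero p) hpc
        · have : (c : ℝ) ≠ 0 := by positivity
          push_cast
          field_simp
    · rw [hF, if_neg hpb, add_zero, hg]
      have c2 : cw (p * w) b = cw w b := by
        unfold cw
        refine if_congr ?_ rfl rfl
        rw [Nat.coprime_mul_iff_right]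
        constructor
        · rintro ⟨a1, a2, a3⟩
          exact ⟨a1, a3⟩
        · rintro ⟨a1, a3⟩
          exact ⟨a1, ((hp.coprime_iff_not_dvd).mpr hpb).symm, a3⟩
      rw [c2]
  have h3 : kap w = kap (p * w) + ∑' b, F b := by
    have h4 : ∑' b, g b = kap (p * w) := by
      unfold kap
      exact tsum_congr fun b => hg b
    rw [← h4, ← hgs.tsum_add hFsum]
    unfold kap
    exact tsum_congr hterm
  rw [h3, hFt]
  ring

lemma kap_prod (s : Finset ℕ) (hs : ∀ p ∈ s, p.Prime ∧ p ≠ 2) :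
    kap (∏ p ∈ s, p) = 8 / Real.pi ^ 2 * ∏ p ∈ s, (1 - 1 / (p : ℝ) ^ 2)⁻¹ := by
  classical
  induction s using Finset.induction_on with
  | empty => rw [prod_empty, prod_empty, kap_one, mul_one]
  | insert a s ha ih =>
    have h1 := hs a (mem_insert_self a s)
    have h2 := ih fun p hp => hs p (mem_insert_of_mem hp)
    rw [prod_insert ha, prod_insert ha]
    have h3 : ¬ a ∣ ∏ p ∈ s, p := by
      intro hd
      obtain ⟨p, hp, hap⟩ := (h1.1.prime.dvd_finsetProd_iff _).mp hd
      have := (Nat.prime_dvd_prime_iff_eq h1.1 (hs p (mem_insert_of_mem hp)).1).mp hap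
      exact ha (this ▸ hp)
    have h4 := kap_rec h1.1 h1.2 h3
    have h5 : (1 : ℝ) - 1 / (a : ℝ) ^ 2 ≠ 0 := by
      have : (1:ℝ) < (a:ℝ) := by exact_mod_cast h1.1.one_lt
      have h6 : 1 / (a : ℝ) ^ 2 < 1 := by
        rw [div_lt_one (by positivity)]
        nlinarith
      linarith
    rw [h2] at h4
    rw [(eq_div_iff h5).mpr h4.symm, div_eq_mul_inv]
    ring

lemma sqf_prod (s : Finset ℕ) (hs : ∀ p ∈ s, p.Prime) : Squarefree (∏ p ∈ s, p) := by
  classical
  induction s using Finset.induction_on with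
  | empty => simp
  | insert a s ha ih =>
    have h1 := hs a (mem_insert_self a s)
    have h2 := ih fun p hp => hs p (mem_insert_of_mem hp)
    rw [prod_insert ha, Nat.squarefree_mul_iff]
    refine ⟨?_, h1.squarefree, h2⟩
    rw [h1.coprime_iff_not_dvd]
    intro hd
    obtain ⟨p, hp, hap⟩ := (h1.prime.dvd_finsetProd_iff _).mp hd
    have := (Nat.prime_dvd_prime_iff_eq h1 (hs p (mem_insert_of_mem hp))).mp hap
    exact ha (this ▸ hp)

lemma rho_prod (s : Finset ℕ) (hs : ∀ p ∈ s, p.Prime) :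
    rho (∏ p ∈ s, p) = (∏ p ∈ s, (1 - 1 / (p : ℝ))) / 8 := by
  classical
  unfold rho
  congr 1
  have hsq : Squarefree (∏ p ∈ s, p) := sqf_prod s hs
  obtain ⟨f, hf⟩ : ∃ f : ArithmeticFunction ℝ, ∀ n, f n = if n = 0 then 0 else 1 / (n : ℝ) := ⟨⟨fun n => if n = 0 then 0 else 1 / (n : ℝ), by simp⟩, fun _ => rfl⟩
  have hm : f.IsMultiplicative := by
    constructor
    · rw [hf]; simp
    · intro m n _
      rw [hf, hf, hf]
      rcases Nat.eq_zero_or_pos m with h | h
      · subst h; simp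
      · rcases Nat.eq_zero_or_pos n with h' | h'
        · subst h'; simp
        · rw [if_neg (by positivity), if_neg (by omega), if_neg (by omega)]
          push_cast
          field_simp
  have h1 := hm.prodPrimeFactors_one_sub_of_squarefree f hsq
  rw [Nat.primeFactors_prod hs] at h1
  have h2 : ∏ p ∈ s, (1 - f p) = ∏ p ∈ s, (1 - 1 / (p : ℝ)) := by
    refine prod_congr rfl fun p hp => ?_
    rw [hf, if_neg (hs p hp).ne_zero]
  rw [h2] at h1
  rw [h1]
  refine sum_congr rfl fun t ht => ?_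
  rw [hf, if_neg (Nat.pos_of_mem_divisors ht).ne']
  unfold Pool.Agent.H66R2.RZFI1.mu
  ring

/-- the density of the fundamental discriminants of a given sign prime to `q` -/
theorem dens_eq {q : ℕ} (hq : q ≠ 0) : dens q = 3 / Real.pi ^ 2 * ∏ p ∈ q.primeFactors, ((p : ℝ) / (p + 1)) := by
  classical
  have hs : ∀ p ∈ q.primeFactors.erase 2, p.Prime := fun p hp => Nat.prime_of_mem_primeFactors (mem_of_mem_erase hp)
  have hs2 : ∀ p ∈ q.primeFactors.erase 2, p.Prime ∧ p ≠ 2 := fun p hp => ⟨hs p hp, (mem_erase.mp hp).1⟩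
  have h1 : dens0 (op q) = 1 / Real.pi ^ 2 * ∏ p ∈ q.primeFactors.erase 2, ((p : ℝ) / (p + 1)) := by
    have e1 : dens0 (op q) = rho (op q) * kap (op q) := rfl
    rw [e1]
    unfold op
    rw [rho_prod _ hs, kap_prod _ hs2]
    have e2 : (∏ p ∈ q.primeFactors.erase 2, (1 - 1 / (p : ℝ))) / 8 * (8 / Real.pi ^ 2 * ∏ p ∈ q.primeFactors.erase 2, (1 - 1 / (p : ℝ) ^ 2)⁻¹) =
        1 / Real.pi ^ 2 * ((∏ p ∈ q.primeFactors.erase 2, (1 - 1 / (p : ℝ))) * ∏ p ∈ q.primeFactors.erase 2, (1 - 1 / (p : ℝ) ^ 2)⁻¹) := by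
      ring
    rw [e2, ← prod_mul_distrib]
    congr 1
    refine prod_congr rfl fun p hp => ?_
    have hp1 : (1:ℝ) < p := by exact_mod_cast (hs p hp).one_lt
    have hp0 : (p : ℝ) ≠ 0 := by linarith
    have h3 : (p : ℝ) - 1 ≠ 0 := by linarith
    have h4 : (p : ℝ) + 1 ≠ 0 := by linarith
    have h5 : 1 - 1 / (p : ℝ) ^ 2 = ((p : ℝ) - 1) * (p + 1) / p ^ 2 := by field_simp; ring
    have h6 : 1 - 1 / (p : ℝ) = ((p : ℝ) - 1) / p := by field_simp
    rw [h5, h6, inv_div]
    field_simp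
  unfold dens
  rw [h1]
  by_cases hqe : Even q
  · rw [if_pos hqe]
    have h2 : 2 ∈ q.primeFactors := by
      rw [Nat.mem_primeFactors]
      exact ⟨Nat.prime_two, even_iff_two_dvd.mp hqe, hq⟩
    rw [← mul_prod_erase _ _ h2]
    push_cast
    ring
  · rw [if_neg hqe]
    have h2 : q.primeFactors.erase 2 = q.primeFactors := by
      refine erase_eq_of_notMem fun h => hqe ?_
      rw [Nat.mem_primeFactors] at h
      exact even_iff_two_dvd.mpr h.2.1
    rw [h2]
    ring

end Pool.Agent.R313.QM
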