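import Pool.Agent.R313.QM.N

set_option autoImplicit false
set_option linter.all false

/-! Smooth sums over the fundamental discriminants with the main term. -/

namespace Pool.Agent.R313.QM

open Finset MeasureTheory
open Pool.Agent.W182.KO (dk P TF)

theorem abel_main {G : ℝ → ℂ} (hG : ContDiff ℝ 1 G) (hGc : HasCompactSupport G) (a : ℕ) :
    (∑' d : ℕ, (cd a d : ℂ) * G (Real.log d)) - (del a : ℂ) * ∫ u : ℝ, G u * (Real.exp u : ℂ) =
      -∫ u : ℝ, deriv G u * ((SS a (Real.exp u) - del a * Real.exp u : ℝ) : ℂ) := by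
  have hc : Continuous (deriv G) := hG.continuous_deriv le_rfl
  have hce : Continuous fun u : ℝ => (Real.exp u : ℂ) := Complex.continuous_ofReal.comp Real.continuous_exp
  have i1 : Integrable fun u : ℝ => deriv G u * (Real.exp u : ℂ) :=
    (hc.mul hce).integrable_of_hasCompactSupport hGc.deriv.mul_right
  have i2 : Integrable fun u : ℝ => G u * (Real.exp u : ℂ) :=
    (hG.continuous.mul hce).integrable_of_hasCompactSupport hGc.mul_right
  have h1 : ∫ u : ℝ, G u * (Real.exp u : ℂ) = -∫ u : ℝ, deriv G u * (Real.exp u : ℂ) := by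
    refine integral_mul_deriv_eq_deriv_mul_of_integrable (u := G) (v := fun u : ℝ => (Real.exp u : ℂ)) (u' := deriv G)
      (v' := fun u : ℝ => (Real.exp u : ℂ)) (fun x _ => (hG.differentiable one_ne_zero x).hasDerivAt)
      (fun x _ => (Real.hasDerivAt_exp x).ofReal_comp) i2 i1 i2
  obtain ⟨i3, h3⟩ := abel hG hGc a
  rw [h3, h1]
  have h2 : ∫ u : ℝ, deriv G u * ((SS a (Real.exp u) - del a * Real.exp u : ℝ) : ℂ) =
      (∫ u : ℝ, deriv G u * (SS a (Real.exp u) : ℂ)) - (del a : ℂ) * ∫ u : ℝ, deriv G u * (Real.exp u : ℂ) := by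
    rw [← integral_const_mul, ← integral_sub i3 (i1.const_mul _)]
    refine integral_congr_ae (Filter.Eventually.of_forall fun u => ?_)
    show deriv G u * ((SS a (Real.exp u) - del a * Real.exp u : ℝ) : ℂ) = _
    push_cast
    ring
  rw [h2]
  ring

/-- the weight `u ↦ e^{-wu} ψ(l - θ u)` -/
noncomputable def GG (ψ : ℝ → ℂ) (θ l : ℝ) (w : ℂ) (u : ℝ) : ℂ := Complex.exp (-(w * u)) * ψ (l - θ * u)

lemma GG_deriv {ψ : ℝ → ℂ} (hψ : Differentiable ℝ ψ) (θ l : ℝ) (w : ℂ) (u : ℝ) :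
    HasDerivAt (GG ψ θ l w) (Complex.exp (-(w * u)) * (-w * ψ (l - θ * u) - θ * deriv ψ (l - θ * u))) u := by
  have h1 : HasDerivAt (fun u : ℝ => Complex.exp (-(w * u))) (Complex.exp (-(w * u)) * (-w)) u := by
    have h0 : HasDerivAt (fun u : ℝ => -(w * (u : ℂ))) (-w) u := by
      have h := ((hasDerivAt_id u).ofReal_comp.const_mul w).fun_neg
      have e : -(w * ((1 : ℝ) : ℂ)) = -w := by simp
      rw [e] at h
      exact h
    exact h0.cexp
  have h2 : HasDerivAt (fun u : ℝ => ψ (l - θ * u)) ((-θ : ℝ) • deriv ψ (l - θ * u)) u := by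
    have h3 : HasDerivAt (fun u : ℝ => l - θ * u) (-θ) u := by
      have := ((hasDerivAt_id u).const_mul θ).const_sub l
      simpa using this
    exact HasDerivAt.scomp u (hψ _).hasDerivAt h3
  have h3 := h1.mul h2
  refine h3.congr_deriv ?_
  rw [Complex.real_smul]
  push_cast
  ring

lemma GG_cd {ψ : ℝ → ℂ} (hψ : ContDiff ℝ 1 ψ) (θ l : ℝ) (w : ℂ) : ContDiff ℝ 1 (GG ψ θ l w) := by
  unfold GG
  have h1 : ContDiff ℝ 1 fun u : ℝ => -(w * (u : ℂ)) := by
    have : ContDiff ℝ 1 fun u : ℝ => (u : ℂ) := Complex.ofRealCLM.contDiff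
    exact (contDiff_const.mul this).neg
  have h2 : ContDiff ℝ 1 fun u : ℝ => l - θ * u := contDiff_const.sub (contDiff_const.mul contDiff_id)
  exact h1.cexp.mul (hψ.comp h2)

lemma GG_cs {ψ : ℝ → ℂ} {A : ℝ} (hA : ∀ v, A < |v| → ψ v = 0) {θ : ℝ} (hθ : 0 < θ) (l : ℝ) (w : ℂ) : HasCompactSupport (GG ψ θ l w) := by
  refine HasCompactSupport.intro (K := Set.Icc ((l - A) / θ) ((l + A) / θ)) isCompact_Icc fun u hu => ?_
  unfold GG
  rw [hA, mul_zero]
  by_contra h
  apply hu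
  rw [not_lt, abs_le] at h
  rw [Set.mem_Icc, div_le_iff₀ hθ, le_div_iff₀ hθ]
  constructor <;> linarith [h.1, h.2]

/-- the size of the derivative -/
lemma GG_bound {ψ : ℝ → ℂ} (hψ : ContDiff ℝ 1 ψ) {A : ℝ} (hA0 : 0 ≤ A) (hA : ∀ v, A < |v| → ψ v = 0) {θ : ℝ} (hθ : 0 < θ) (l : ℝ) (w : ℂ) :
    Integrable (fun u : ℝ => ‖deriv (GG ψ θ l w) u‖ * Real.exp (u / 2)) ∧
    ∫ u : ℝ, ‖deriv (GG ψ θ l w) u‖ * Real.exp (u / 2) ≤
      (‖w‖ * (∫ v : ℝ, ‖ψ v‖) + θ * ∫ v : ℝ, ‖deriv ψ v‖) * (Real.exp ((|w.re| + 1 / 2) * A / θ) * (1 / θ)) * Real.exp ((1 / 2 - w.re) * l / θ) := by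
  have hcd := GG_cd hψ θ l w
  have hcs := GG_cs hA hθ l w
  have hc : Continuous (deriv (GG ψ θ l w)) := hcd.continuous_deriv le_rfl
  have hce : Continuous fun u : ℝ => Real.exp (u / 2) := by fun_prop
  have hψd : Differentiable ℝ ψ := hψ.differentiable one_ne_zero
  have hψcs : HasCompactSupport ψ := HasCompactSupport.intro (K := Set.Icc (-A) A) isCompact_Icc fun v hv => hA v (by
    by_contra h
    rw [not_lt, abs_le] at h
    exact hv h)
  have hA' : ∀ v, A < |v| → deriv ψ v = 0 := by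
    intro v hv
    have h1 : ψ =ᶠ[nhds v] fun _ => (0:ℂ) := by
      have : ∀ᶠ x in nhds v, A < |x| := (continuous_abs.tendsto v).eventually (lt_mem_nhds hv)
      filter_upwards [this] with x hx
      exact hA x hx
    rw [h1.deriv_eq, deriv_const]
  have i0 : Integrable (fun u : ℝ => ‖deriv (GG ψ θ l w) u‖ * Real.exp (u / 2)) :=
    (hc.norm.mul hce).integrable_of_hasCompactSupport hcs.deriv.norm.mul_right
  refine ⟨i0, ?_⟩
  obtain ⟨K, hK⟩ : ∃ K : ℝ → ℝ, ∀ v, K v = ‖w‖ * ‖ψ v‖ + θ * ‖deriv ψ v‖ := ⟨_, fun _ => rfl⟩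
  have j1 : Integrable fun v : ℝ => ‖ψ v‖ := (hψ.continuous.norm).integrable_of_hasCompactSupport hψcs.norm
  have j2 : Integrable fun v : ℝ => ‖deriv ψ v‖ := ((hψ.continuous_deriv le_rfl).norm).integrable_of_hasCompactSupport hψcs.deriv.norm
  have j3 : Integrable K := by
    rw [funext hK]
    exact (j1.const_mul _).add (j2.const_mul _)
  have hKi : ∫ v, K v = ‖w‖ * (∫ v : ℝ, ‖ψ v‖) + θ * ∫ v : ℝ, ‖deriv ψ v‖ := by
    simp_rw [hK]
    rw [integral_add (j1.const_mul _) (j2.const_mul _), integral_const_mul, integral_const_mul]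
  have hcomp : ∫ u : ℝ, K (l - θ * u) = (1 / θ) * ∫ v, K v := by
    have h1 := Measure.integral_comp_mul_left (fun x => K (l - x)) θ
    rw [abs_of_pos (inv_pos.mpr hθ)] at h1
    rw [h1, integral_sub_left_eq_self K volume l, smul_eq_mul, one_div]
  have hcompi : Integrable fun u : ℝ => K (l - θ * u) := by
    have h1 := (j3.comp_sub_left l).comp_mul_left' hθ.ne'
    exact h1
  have hpt : ∀ u : ℝ, ‖deriv (GG ψ θ l w) u‖ * Real.exp (u / 2) ≤
      Real.exp ((|w.re| + 1 / 2) * A / θ) * Real.exp ((1 / 2 - w.re) * l / θ) * K (l - θ * u) := by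
    intro u
    rw [(GG_deriv hψd θ l w u).deriv, norm_mul, Complex.norm_exp]
    have e1 : (-(w * (u : ℂ))).re = -(w.re * u) := by simp
    rw [e1]
    by_cases hu : A < |l - θ * u|
    · rw [hA _ hu, hA' _ hu, hK, hA _ hu, hA' _ hu]
      simp
    · rw [not_lt, abs_le] at hu
      have h1 : ‖-w * ψ (l - θ * u) - θ * deriv ψ (l - θ * u)‖ ≤ K (l - θ * u) := by
        rw [hK]
        refine (norm_sub_le _ _).trans ?_
        rw [norm_mul, norm_mul, norm_neg, Complex.norm_real, Real.norm_of_nonneg hθ.le]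
      have h2 : Real.exp (-(w.re * u)) * Real.exp (u / 2) ≤ Real.exp ((|w.re| + 1 / 2) * A / θ) * Real.exp ((1 / 2 - w.re) * l / θ) := by
        rw [← Real.exp_add, ← Real.exp_add, Real.exp_le_exp]
        obtain ⟨v, hv⟩ : ∃ v, v = l - θ * u := ⟨_, rfl⟩
        have hu' : u = (l - v) / θ := by rw [hv]; field_simp; ring
        rw [← hv] at hu
        have e2 : -(w.re * u) + u / 2 = (1 / 2 - w.re) * l / θ + (w.re - 1 / 2) * v / θ := by
          rw [hu']; ring
        rw [e2]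
        have h3 : (w.re - 1 / 2) * v / θ ≤ (|w.re| + 1 / 2) * A / θ := by
          apply div_le_div_of_nonneg_right _ hθ.le
          have h4 : |(w.re - 1 / 2) * v| ≤ (|w.re| + 1 / 2) * A := by
            rw [abs_mul]
            have h5 : |w.re - 1 / 2| ≤ |w.re| + 1 / 2 := by
              refine (abs_sub _ _).trans (le_of_eq ?_)
              norm_num
            have h6 : |v| ≤ A := abs_le.mpr hu
            gcongr
          exact (le_abs_self _).trans h4
        linarith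
      calc Real.exp (-(w.re * u)) * ‖-w * ψ (l - θ * u) - θ * deriv ψ (l - θ * u)‖ * Real.exp (u / 2)
          = (Real.exp (-(w.re * u)) * Real.exp (u / 2)) * ‖-w * ψ (l - θ * u) - θ * deriv ψ (l - θ * u)‖ := by ring
        _ ≤ _ := by gcongr
  calc ∫ u : ℝ, ‖deriv (GG ψ θ l w) u‖ * Real.exp (u / 2) ≤
        ∫ u : ℝ, Real.exp ((|w.re| + 1 / 2) * A / θ) * Real.exp ((1 / 2 - w.re) * l / θ) * K (l - θ * u) :=
        integral_mono i0 (hcompi.const_mul _) hpt
    _ = Real.exp ((|w.re| + 1 / 2) * A / θ) * Real.exp ((1 / 2 - w.re) * l / θ) * ((1 / θ) * ∫ v, K v) := by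
        rw [integral_const_mul, hcomp]
    _ = _ := by rw [hKi]; ring

end Pool.Agent.R313.QM
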