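import Pool.Agent.R313.QM.Q

set_option autoImplicit false
set_option linter.all false

/-! The smooth sum at one `n`: main term and error term, holomorphy. -/

namespace Pool.Agent.R313.QM

open Finset MeasureTheory
open Pool.Agent.W182.KO (dk P TF P_diff)

lemma GG_main (ψ : ℝ → ℂ) {θ : ℝ} (hθ : 0 < θ) (l : ℝ) (w : ℂ) :
    ∫ u : ℝ, GG ψ θ l w u * (Real.exp u : ℂ) = (1 / θ : ℂ) * Complex.exp ((1 - w) * l / θ) * P ψ ((w - 1) / θ) := by
  obtain ⟨K, hK⟩ : ∃ K : ℝ → ℂ, ∀ v, K v = ψ v * Complex.exp (v * ((w - 1) / θ)) := ⟨_, fun _ => rfl⟩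
  have hθc : (θ : ℂ) ≠ 0 := by exact_mod_cast hθ.ne'
  have hpt : ∀ u : ℝ, GG ψ θ l w u * (Real.exp u : ℂ) = Complex.exp ((1 - w) * l / θ) * K (l - θ * u) := by
    intro u
    unfold GG
    rw [hK, Complex.ofReal_exp]
    have e : Complex.exp (-(w * u)) * Complex.exp u = Complex.exp ((1 - w) * l / θ) * Complex.exp (((l - θ * u : ℝ) : ℂ) * ((w - 1) / θ)) := by
      rw [← Complex.exp_add, ← Complex.exp_add]
      congr 1
      push_cast
      field_simp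
      ring
    calc _ = (Complex.exp (-(w * u)) * Complex.exp u) * ψ (l - θ * u) := by ring
      _ = _ := by rw [e]; ring
  have hcomp : ∫ u : ℝ, K (l - θ * u) = (1 / θ : ℂ) * ∫ v, K v := by
    have h1 := Measure.integral_comp_mul_left (fun x => K (l - x)) θ
    rw [abs_of_pos (inv_pos.mpr hθ)] at h1
    rw [h1, integral_sub_left_eq_self K volume l, Complex.real_smul]
    push_cast
    rw [one_div]
  rw [integral_congr_ae (Filter.Eventually.of_forall hpt), integral_const_mul, hcomp]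
  have : ∫ v, K v = P ψ ((w - 1) / θ) := by
    unfold Pool.Agent.W182.KO.P
    exact integral_congr_ae (Filter.Eventually.of_forall hK)
  rw [this]
  ring

/-- main term at `a` -/
noncomputable def mn (ψ : ℝ → ℂ) (θ : ℝ) (a : ℕ) (l : ℝ) (w : ℂ) : ℂ :=
  (del a : ℂ) * ((1 / θ : ℂ) * Complex.exp ((1 - w) * l / θ) * P ψ ((w - 1) / θ))

/-- error term at `a` -/
noncomputable def en (ψ : ℝ → ℂ) (θ : ℝ) (a : ℕ) (l : ℝ) (w : ℂ) : ℂ :=
  (∑' d : ℕ, (cd a d : ℂ) * GG ψ θ l w (Real.log d)) - mn ψ θ a l w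

theorem en_bound {ψ : ℝ → ℂ} (hψ : ContDiff ℝ 1 ψ) {A : ℝ} (hA0 : 0 ≤ A) (hA : ∀ v, A < |v| → ψ v = 0) {θ : ℝ} (hθ : 0 < θ)
    {κ : ℝ} (hκ : 0 < κ) : ∃ C : ℝ, 0 ≤ C ∧ ∀ a : ℕ, a ≠ 0 → ∀ (l : ℝ) (w : ℂ),
      ‖en ψ θ a l w‖ ≤ C * (1 + ‖w‖) * Real.exp ((|w.re| + 1 / 2) * A / θ) * (a : ℝ) ^ (1 / 4 + κ) * Real.exp ((1 / 2 - w.re) * l / θ) := by
  obtain ⟨C, hC, hb⟩ := SS_bound hκ
  obtain ⟨I0, hI0⟩ : ∃ I0 : ℝ, I0 = ∫ v : ℝ, ‖ψ v‖ := ⟨_, rfl⟩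
  obtain ⟨I1, hI1⟩ : ∃ I1 : ℝ, I1 = ∫ v : ℝ, ‖deriv ψ v‖ := ⟨_, rfl⟩
  have hI00 : 0 ≤ I0 := by rw [hI0]; exact integral_nonneg fun _ => norm_nonneg _
  have hI10 : 0 ≤ I1 := by rw [hI1]; exact integral_nonneg fun _ => norm_nonneg _
  refine ⟨C * (I0 + θ * I1) * (1 / θ), by positivity, fun a ha l w => ?_⟩
  obtain ⟨i0, h0⟩ := GG_bound hψ hA0 hA hθ l w
  rw [← hI0, ← hI1] at h0
  unfold en mn
  rw [← GG_main ψ hθ l w, abel_main (GG_cd hψ θ l w) (GG_cs hA hθ l w) a, norm_neg]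
  have hpt : ∀ u : ℝ, ‖deriv (GG ψ θ l w) u * ((SS a (Real.exp u) - del a * Real.exp u : ℝ) : ℂ)‖ ≤
      (C * (a : ℝ) ^ (1 / 4 + κ)) * (‖deriv (GG ψ θ l w) u‖ * Real.exp (u / 2)) := by
    intro u
    rw [norm_mul, Complex.norm_real, Real.norm_eq_abs]
    have h1 := hb a ha (Real.exp u) (Real.exp_pos u).le
    have h2 : Real.exp u ^ (1 / 2 : ℝ) = Real.exp (u / 2) := by
      rw [← Real.exp_mul]
      congr 1
      ring
    rw [h2] at h1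
    calc ‖deriv (GG ψ θ l w) u‖ * |SS a (Real.exp u) - del a * Real.exp u| ≤
          ‖deriv (GG ψ θ l w) u‖ * (C * (Real.exp (u / 2) * (a : ℝ) ^ (1 / 4 + κ))) := by gcongr
      _ = _ := by ring
  refine (norm_integral_le_of_norm_le (i0.const_mul _) (Filter.Eventually.of_forall hpt)).trans ?_
  rw [integral_const_mul]
  have h3 : ‖w‖ * I0 + θ * I1 ≤ (1 + ‖w‖) * (I0 + θ * I1) := by
    have : 0 ≤ ‖w‖ := norm_nonneg w
    nlinarith [mul_nonneg this (mul_nonneg hθ.le hI10)]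
  calc C * (a : ℝ) ^ (1 / 4 + κ) * ∫ u : ℝ, ‖deriv (GG ψ θ l w) u‖ * Real.exp (u / 2)
      ≤ C * (a : ℝ) ^ (1 / 4 + κ) * (((1 + ‖w‖) * (I0 + θ * I1)) * (Real.exp ((|w.re| + 1 / 2) * A / θ) * (1 / θ)) * Real.exp ((1 / 2 - w.re) * l / θ)) := by
        gcongr
        refine h0.trans ?_
        gcongr
    _ = _ := by ring

/-- finite support -/
lemma GG_zero {ψ : ℝ → ℂ} {A : ℝ} (hA : ∀ v, A < |v| → ψ v = 0) {θ : ℝ} (hθ : 0 < θ) (l : ℝ) :
    ∃ N : ℕ, ∀ w : ℂ, ∀ d : ℕ, N ≤ d → GG ψ θ l w (Real.log d) = 0 := by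
  refine ⟨⌈Real.exp ((l + A) / θ)⌉₊ + 1, fun w d hd => ?_⟩
  have h1 : Real.exp ((l + A) / θ) < d := by
    have h2 : ((⌈Real.exp ((l + A) / θ)⌉₊ + 1 : ℕ) : ℝ) ≤ d := by exact_mod_cast hd
    push_cast at h2
    linarith [Nat.le_ceil (Real.exp ((l + A) / θ))]
  have h2 : (l + A) / θ < Real.log d := by
    rw [Real.lt_log_iff_exp_lt ((Real.exp_pos _).trans h1)]
    exact h1
  rw [div_lt_iff₀ hθ] at h2
  unfold GG
  rw [hA, mul_zero]
  have h3 : A < -(l - θ * Real.log d) := by linarith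
  exact h3.trans_le (neg_le_abs _)

theorem en_diff {ψ : ℝ → ℂ} {ξ : ℝ} (h : TF ξ ψ) {A : ℝ} (hA : ∀ v, A < |v| → ψ v = 0) {θ : ℝ} (hθ : 0 < θ) (a : ℕ) (l : ℝ) :
    Differentiable ℂ (en ψ θ a l) := by
  obtain ⟨N, hN⟩ := GG_zero hA hθ l
  have e1 : ∀ w, ∑' d : ℕ, (cd a d : ℂ) * GG ψ θ l w (Real.log d) = ∑ d ∈ range N, (cd a d : ℂ) * GG ψ θ l w (Real.log d) := by
    intro w
    refine tsum_eq_sum fun d hd => ?_
    rw [mem_range, not_lt] at hd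
    rw [hN w d hd, mul_zero]
  have e2 : en ψ θ a l = fun w => (∑ d ∈ range N, (cd a d : ℂ) * GG ψ θ l w (Real.log d)) - mn ψ θ a l w := by
    funext w
    unfold en
    rw [e1]
  rw [e2]
  have hP := P_diff h
  have d1 : Differentiable ℂ fun w => ∑ d ∈ range N, (cd a d : ℂ) * GG ψ θ l w (Real.log d) := by
    refine Differentiable.fun_sum fun d _ => ?_
    unfold GG
    fun_prop
  have d2 : Differentiable ℂ fun w => mn ψ θ a l w := by
    unfold mn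
    have hP2 : Differentiable ℂ fun w : ℂ => P ψ ((w - 1) / θ) := by
      have : Differentiable ℂ fun w : ℂ => (w - 1) / θ := by fun_prop
      exact hP.comp this
    have h3 : Differentiable ℂ fun w : ℂ => (1 / θ : ℂ) * Complex.exp ((1 - w) * l / θ) := by fun_prop
    exact (h3.mul hP2).const_mul _
  exact d1.sub d2

end Pool.Agent.R313.QM
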