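import Pool.Agent.R313.QM.T

set_option autoImplicit false
set_option linter.all false

/-! The error function and its continuation. -/

namespace Pool.Agent.R313.QM

open Finset MeasureTheory
open Pool.Agent.W182.KO (dk P TF P_diff tau tau_ptw tau_neg_zero)

/-- the summand of the error function -/
noncomputable def Fn (ψ : ℝ → ℂ) (θ : ℝ) (k M : ℕ) (n : ℕ) (w : ℂ) : ℂ :=
  (dk k n : ℂ) / (Real.sqrt n : ℂ) * en ψ θ (M * n) (Real.log n) w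

lemma Fn_zero (ψ : ℝ → ℂ) (θ : ℝ) (k M : ℕ) (w : ℂ) : Fn ψ θ k M 0 w = 0 := by
  unfold Fn
  simp

lemma dk_bd (k : ℕ) {κ : ℝ} (hκ : 0 < κ) : ∃ C : ℝ, 0 ≤ C ∧ ∀ n : ℕ, ‖(dk k n : ℂ)‖ ≤ C * (n : ℝ) ^ κ := by
  obtain ⟨CD, hCD, hDv⟩ := tau_ptw k hκ
  refine ⟨CD, by positivity, fun n => ?_⟩
  have := hDv (fun _ => 0) n
  rw [tau_neg_zero] at this
  exact this

theorem Fn_bound {ψ : ℝ → ℂ} (hψ : ContDiff ℝ 1 ψ) {A : ℝ} (hA0 : 0 ≤ A) (hA : ∀ v, A < |v| → ψ v = 0) {θ : ℝ} (hθ : 0 < θ)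
    (k : ℕ) {M : ℕ} (hM : M ≠ 0) {σ1 : ℝ} (hσ : 1 / 2 + 3 / 4 * θ < σ1) :
    ∃ C δ : ℝ, 0 ≤ C ∧ 0 < δ ∧ ∀ (n : ℕ) (w : ℂ), σ1 ≤ w.re →
      ‖Fn ψ θ k M n w‖ ≤ C * (1 + ‖w‖) * Real.exp ((|w.re| + 1 / 2) * A / θ) * (n : ℝ) ^ (-(1 + δ)) := by
  obtain ⟨κ, hκd⟩ : ∃ κ : ℝ, κ = ((σ1 - 1 / 2) / θ - 3 / 4) / 4 := ⟨_, rfl⟩
  have hκ : 0 < κ := by
    rw [hκd]
    have : 3 / 4 < (σ1 - 1 / 2) / θ := by rw [lt_div_iff₀ hθ]; linarith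
    linarith
  have hσθ : (1 / 2 - σ1) / θ = -(3 / 4 + 4 * κ) := by
    rw [hκd]; ring
  obtain ⟨C1, hC1, h1⟩ := en_bound hψ hA0 hA hθ hκ
  obtain ⟨CD, hCD, hD⟩ := dk_bd k hκ
  refine ⟨CD * C1 * (M : ℝ) ^ (1 / 4 + κ), 2 * κ, by positivity, by positivity, fun n w hw => ?_⟩
  rcases Nat.eq_zero_or_pos n with hn | hn
  · subst hn
    rw [Fn_zero, norm_zero]
    positivity
  have hn0 : (0:ℝ) < n := by exact_mod_cast hn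
  have hn1 : (1:ℝ) ≤ n := by exact_mod_cast hn
  have hMn : M * n ≠ 0 := Nat.mul_ne_zero hM hn.ne'
  have e1 := h1 (M * n) hMn (Real.log n) w
  have e2 := hD n
  have e3 : Real.exp ((1 / 2 - w.re) * Real.log n / θ) ≤ (n : ℝ) ^ (-(3 / 4 + 4 * κ)) := by
    have : Real.exp ((1 / 2 - w.re) * Real.log n / θ) = (n : ℝ) ^ ((1 / 2 - w.re) / θ) := by
      rw [Real.rpow_def_of_pos hn0]
      congr 1
      ring
    rw [this]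
    apply Real.rpow_le_rpow_of_exponent_le hn1
    rw [← hσθ]
    apply div_le_div_of_nonneg_right _ hθ.le
    linarith
  have e4 : ((M * n : ℕ) : ℝ) ^ (1 / 4 + κ) = (M : ℝ) ^ (1 / 4 + κ) * (n : ℝ) ^ (1 / 4 + κ) := by
    push_cast
    exact Real.mul_rpow (Nat.cast_nonneg M) hn0.le
  have e5 : ‖((Real.sqrt n : ℝ) : ℂ)‖ = (n : ℝ) ^ (1 / 2 : ℝ) := by
    rw [Complex.norm_real, Real.norm_of_nonneg (Real.sqrt_nonneg _), Real.sqrt_eq_rpow]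
  unfold Fn
  rw [norm_mul, norm_div, e5]
  rw [e4] at e1
  obtain ⟨W, hW⟩ : ∃ W : ℝ, W = (1 + ‖w‖) * Real.exp ((|w.re| + 1 / 2) * A / θ) := ⟨_, rfl⟩
  have hW0 : 0 ≤ W := by rw [hW]; positivity
  calc ‖(dk k n : ℂ)‖ / (n : ℝ) ^ (1 / 2 : ℝ) * ‖en ψ θ (M * n) (Real.log n) w‖
      ≤ (CD * (n : ℝ) ^ κ) / (n : ℝ) ^ (1 / 2 : ℝ) *
        (C1 * (1 + ‖w‖) * Real.exp ((|w.re| + 1 / 2) * A / θ) * ((M : ℝ) ^ (1 / 4 + κ) * (n : ℝ) ^ (1 / 4 + κ)) * (n : ℝ) ^ (-(3 / 4 + 4 * κ))) := by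
        gcongr
        refine e1.trans ?_
        gcongr
    _ = (CD * C1 * (M : ℝ) ^ (1 / 4 + κ)) * W * ((n : ℝ) ^ κ / (n : ℝ) ^ (1 / 2 : ℝ) * (n : ℝ) ^ (1 / 4 + κ) * (n : ℝ) ^ (-(3 / 4 + 4 * κ))) := by
        rw [hW]; ring
    _ = (CD * C1 * (M : ℝ) ^ (1 / 4 + κ)) * W * (n : ℝ) ^ (-(1 + 2 * κ)) := by
        rw [← Real.rpow_sub hn0, ← Real.rpow_add hn0, ← Real.rpow_add hn0]
        congr 2
        ring
    _ = _ := by rw [hW]; ring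

/-- the error function -/
noncomputable def EE (ψ : ℝ → ℂ) (θ : ℝ) (k M : ℕ) (w : ℂ) : ℂ := 2 * Real.pi * ∑' n : ℕ, Fn ψ θ k M n w

lemma sum_pow {δ : ℝ} (hδ : 0 < δ) : Summable fun n : ℕ => (n : ℝ) ^ (-(1 + δ)) :=
  Real.summable_nat_rpow.mpr (by linarith)

theorem EE_diff {ψ : ℝ → ℂ} {ξ : ℝ} (h : TF ξ ψ) {A : ℝ} (hA0 : 0 ≤ A) (hA : ∀ v, A < |v| → ψ v = 0) {θ : ℝ} (hθ : 0 < θ)
    (k : ℕ) {M : ℕ} (hM : M ≠ 0) : DifferentiableOn ℂ (EE ψ θ k M) {w | 1 / 2 + 3 / 4 * θ < w.re} := by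
  have hψ : ContDiff ℝ 1 ψ := h.cd.of_le (by simp)
  intro w0 hw0
  rw [Set.mem_setOf_eq] at hw0
  obtain ⟨σ1, hσ1, hσ2⟩ := exists_between hw0
  obtain ⟨C, δ, hC, hδ, hb⟩ := Fn_bound hψ hA0 hA hθ k hM hσ1
  obtain ⟨R, hR⟩ : ∃ R, R = ‖w0‖ + 1 := ⟨_, rfl⟩
  obtain ⟨U, hU⟩ : ∃ U : Set ℂ, U = {w | σ1 < w.re} ∩ Metric.ball 0 R := ⟨_, rfl⟩
  have hUo : IsOpen U := by
    rw [hU]
    exact (isOpen_lt continuous_const Complex.continuous_re).inter Metric.isOpen_ball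
  have hwU : w0 ∈ U := by
    rw [hU]
    refine ⟨hσ2, ?_⟩
    rw [mem_ball_zero_iff, hR]
    linarith
  have h1 : DifferentiableOn ℂ (fun w => ∑' n : ℕ, Fn ψ θ k M n w) U := by
    refine Complex.differentiableOn_tsum_of_summable_norm
      (u := fun n : ℕ => C * (1 + R) * Real.exp ((R + 1 / 2) * A / θ) * (n : ℝ) ^ (-(1 + δ)))
      ((sum_pow hδ).mul_left _) (fun n => ?_) hUo ?_
    · unfold Fn
      exact ((en_diff h hA hθ (M * n) (Real.log n)).const_mul _).differentiableOn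
    · intro n w hw
      rw [hU] at hw
      obtain ⟨hw1, hw2⟩ := hw
      rw [mem_ball_zero_iff] at hw2
      refine (hb n w (le_of_lt hw1)).trans ?_
      have h3 : |w.re| ≤ R := (Complex.abs_re_le_norm w).trans hw2.le
      have hR0 : 0 ≤ R := by rw [hR]; positivity
      gcongr
  have h2 := (h1.differentiableAt (hUo.mem_nhds hwU)).const_mul (2 * Real.pi : ℂ)
  exact h2.differentiableWithinAt

theorem EE_bound {ψ : ℝ → ℂ} {ξ : ℝ} (h : TF ξ ψ) {A : ℝ} (hA0 : 0 ≤ A) (hA : ∀ v, A < |v| → ψ v = 0) {θ : ℝ} (hθ : 0 < θ)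
    (k : ℕ) {M : ℕ} (hM : M ≠ 0) {σ1 σ2 : ℝ} (hσ : 1 / 2 + 3 / 4 * θ < σ1) :
    ∃ C : ℝ, ∀ w : ℂ, σ1 ≤ w.re → w.re ≤ σ2 → ‖EE ψ θ k M w‖ ≤ C * (1 + ‖w‖) := by
  have hψ : ContDiff ℝ 1 ψ := h.cd.of_le (by simp)
  obtain ⟨C, δ, hC, hδ, hb⟩ := Fn_bound hψ hA0 hA hθ k hM hσ
  refine ⟨2 * Real.pi * (C * Real.exp ((|σ2| + 1 / 2) * A / θ) * ∑' n : ℕ, (n : ℝ) ^ (-(1 + δ))), fun w hw1 hw2 => ?_⟩
  have h1 : ∀ n : ℕ, ‖Fn ψ θ k M n w‖ ≤ C * (1 + ‖w‖) * Real.exp ((|σ2| + 1 / 2) * A / θ) * (n : ℝ) ^ (-(1 + δ)) := by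
    intro n
    refine (hb n w hw1).trans ?_
    have h3 : |w.re| ≤ |σ2| := by
      have h4 : 0 < w.re := by nlinarith
      rw [abs_of_pos h4]
      exact hw2.trans (le_abs_self _)
    gcongr
  have h2 := tsum_of_norm_bounded ((sum_pow hδ).mul_left (C * (1 + ‖w‖) * Real.exp ((|σ2| + 1 / 2) * A / θ))).hasSum h1
  have hnpi : ‖(2 * Real.pi : ℂ)‖ = 2 * Real.pi := by
    rw [norm_mul, Complex.norm_ofNat, Complex.norm_real, Real.norm_of_nonneg Real.pi_pos.le]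
  unfold EE
  rw [norm_mul, hnpi]
  rw [tsum_mul_left] at h2
  calc 2 * Real.pi * ‖∑' n : ℕ, Fn ψ θ k M n w‖ ≤ 2 * Real.pi * (C * (1 + ‖w‖) * Real.exp ((|σ2| + 1 / 2) * A / θ) * ∑' n : ℕ, (n : ℝ) ^ (-(1 + δ))) := by
        gcongr
    _ = _ := by ring

end Pool.Agent.R313.QM
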