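import Pool.Agent.R313.QM.U

set_option autoImplicit false
set_option linter.all false

/-! The identity for the averages of the multiple Dirichlet series. -/

namespace Pool.Agent.R313.QM

open Finset MeasureTheory
open Pool.Agent.W182.KO (dk P TF P_diff tau tau_ptw tau_neg_zero)

lemma P_shift' (ψ : ℝ → ℂ) (h : ℝ) (z : ℂ) : P (fun ξ => ψ (ξ - h)) z = Complex.exp (h * z) * P ψ z := by
  unfold Pool.Agent.W182.KO.P
  rw [← integral_const_mul]
  rw [← integral_sub_right_eq_self (fun ξ : ℝ => Complex.exp (h * z) * (ψ ξ * Complex.exp (ξ * z))) h]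
  congr 1; funext ξ
  have : Complex.exp ((ξ : ℂ) * z) = Complex.exp (h * z) * Complex.exp (((ξ - h : ℝ) : ℂ) * z) := by
    rw [← Complex.exp_add]; congr 1; push_cast; ring
  rw [this]
  ring

lemma TF_shift' {ξ1 : ℝ} {ψ : ℝ → ℂ} (h : TF ξ1 ψ) (a : ℝ) : TF (ξ1 + a) (fun ξ => ψ (ξ - a)) where
  cd := h.cd.comp (contDiff_id.sub contDiff_const)
  cs := h.cs.comp_homeomorph (Homeomorph.subRight a)
  sp ξ hξ := h.sp (ξ - a) (by linarith)

lemma kron_mul {D : ℤ} (hD : IsFund D) (h1 : D ≠ 1) {m n : ℕ} (hm : m ≠ 0) (hn : n ≠ 0) : kron D (m * n) = kron D m * kron D n := by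
  obtain ⟨hne, χ, -, hχ⟩ := char_exists hD h1
  have e : ((kron D (m * n) : ℤ) : ℂ) = ((kron D m * kron D n : ℤ) : ℂ) := by
    rw [← hχ (m * n) (Nat.mul_ne_zero hm hn)]
    push_cast
    rw [map_mul, hχ m hm, hχ n hn]
  exact_mod_cast e

/-- the integral at one discriminant -/
theorem one_D {ξ : ℝ} {ψ : ℝ → ℂ} (h : TF ξ ψ) {D : ℤ} (hD : IsFund D) (h1 : D ≠ 1) (k : ℕ) (b : ℝ) :
    Integrable (fun y : ℝ => P ψ (y * Complex.I) * Complex.exp (b * (y * Complex.I)) * LD D (1 / 2 + y * Complex.I) ^ k) ∧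
    ∫ y : ℝ, P ψ (y * Complex.I) * Complex.exp (b * (y * Complex.I)) * LD D (1 / 2 + y * Complex.I) ^ k =
      2 * Real.pi * ∑' n : ℕ, (dk k n : ℂ) * (kron D n : ℂ) / (Real.sqrt n : ℂ) * ψ (Real.log n - b) := by
  obtain ⟨i1, i2⟩ := exact_D (TF_shift' h b) hD h1 k (L := 1) le_rfl
  have e : ∀ y : ℝ, P (fun ξ => ψ (ξ - b)) (((1:ℝ) : ℂ) * y * Complex.I) * LD D (1 / 2 + y * Complex.I) ^ k =
      P ψ (y * Complex.I) * Complex.exp (b * (y * Complex.I)) * LD D (1 / 2 + y * Complex.I) ^ k := by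
    intro y
    rw [P_shift', Complex.ofReal_one, one_mul]
    ring
  rw [funext e] at i1 i2
  refine ⟨i1, ?_⟩
  rw [i2]
  simp only [div_one]
  push_cast
  rfl

open Classical in
/-- the average of the multiple Dirichlet series at `w`, term `d` -/
noncomputable def AT (ψ : ℝ → ℂ) (θ : ℝ) (k M : ℕ) (w : ℂ) (d : ℕ) : ℂ :=
  if IsFund (d : ℤ) ∧ d ≠ 1 then
    (kron d M : ℂ) * (d : ℂ) ^ (-w) * ∫ y : ℝ, P ψ (y * Complex.I) * (d : ℂ) ^ (θ * y * Complex.I) * LD d (1 / 2 + y * Complex.I) ^ k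
  else 0

/-- the double summand -/
noncomputable def ff (ψ : ℝ → ℂ) (θ : ℝ) (k M : ℕ) (w : ℂ) (d n : ℕ) : ℂ :=
  (dk k n : ℂ) / (Real.sqrt n : ℂ) * ((cd (M * n) d : ℂ) * GG ψ θ (Real.log n) w (Real.log d))

lemma AT_eq {ξ : ℝ} {ψ : ℝ → ℂ} (h : TF ξ ψ) (θ : ℝ) (k : ℕ) {M : ℕ} (hM : M ≠ 0) (w : ℂ) (d : ℕ) :
    AT ψ θ k M w d = 2 * Real.pi * ∑' n : ℕ, ff ψ θ k M w d n := by
  unfold AT ff
  by_cases hF : IsFund (d : ℤ) ∧ d ≠ 1
  · rw [if_pos hF]
    have hd0 : d ≠ 0 := by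
      rintro rfl
      exact not_fund_zero (by simpa using hF.1)
    have hdc : (d : ℂ) ≠ 0 := by exact_mod_cast hd0
    have hlog : Complex.log (d : ℂ) = (Real.log d : ℂ) := (Complex.natCast_log).symm
    have e1 : ∀ y : ℝ, (d : ℂ) ^ (θ * y * Complex.I) = Complex.exp (((θ * Real.log d : ℝ) : ℂ) * (y * Complex.I)) := by
      intro y
      rw [Complex.cpow_def_of_ne_zero hdc, hlog]
      congr 1
      push_cast
      ring
    simp_rw [e1]
    have hD1 : (d : ℤ) ≠ 1 := by exact_mod_cast hF.2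
    rw [(one_D h hF.1 hD1 k (θ * Real.log d)).2]
    have e2 : (d : ℂ) ^ (-w) = Complex.exp (-(w * (Real.log d : ℝ))) := by
      rw [Complex.cpow_def_of_ne_zero hdc, hlog]
      congr 1
      ring
    rw [e2]
    calc _ = 2 * Real.pi * (((kron d M : ℂ) * Complex.exp (-(w * (Real.log d : ℝ)))) * ∑' n : ℕ, (dk k n : ℂ) * (kron d n : ℂ) / (Real.sqrt n : ℂ) * ψ (Real.log n - θ * Real.log d)) := by
          ring
      _ = _ := by
          rw [← tsum_mul_left]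
          congr 1
          refine tsum_congr fun n => ?_
          rcases Nat.eq_zero_or_pos n with hn | hn
          · subst hn
            simp
          · have h3 : cd (M * n) d = (kron d M : ℝ) * (kron d n : ℝ) := by
              unfold cd
              rw [if_pos hF, kron_mul hF.1 hD1 hM hn.ne']
              push_cast
              rfl
            rw [h3]
            unfold GG
            push_cast
            ring
  · rw [if_neg hF]
    have h3 : ∀ n, cd (M * n) d = 0 := by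
      intro n
      unfold cd
      rw [if_neg hF]
    simp [h3]

lemma cd_abs {a : ℕ} (ha : a ≠ 0) (d : ℕ) : |cd a d| ≤ 1 := by
  unfold cd
  split_ifs
  · exact kron_abs _ ha
  · simp

/-- absolute convergence of the double sum -/
theorem ff_sum {ψ : ℝ → ℂ} (hψc : Continuous ψ) {A : ℝ} (hA0 : 0 ≤ A) (hA : ∀ v, A < |v| → ψ v = 0) {θ : ℝ} (hθ : 0 < θ)
    (k : ℕ) {M : ℕ} (hM : M ≠ 0) {w : ℂ} (hw : 1 + θ / 2 < w.re) :
    Summable fun p : ℕ × ℕ => ff ψ θ k M w p.1 p.2 := by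
  obtain ⟨κ, hκd⟩ : ∃ κ : ℝ, κ = (w.re - 1 - θ / 2) / (4 * θ) := ⟨_, rfl⟩
  have hκ : 0 < κ := by
    rw [hκd]
    apply div_pos _ (by positivity)
    linarith
  have hκe : 2 * κ * θ = (w.re - 1 - θ / 2) / 2 := by
    rw [hκd]; field_simp; ring
  obtain ⟨CD, hCD, hD⟩ := dk_bd k hκ
  obtain ⟨Mψ, hMψ⟩ : ∃ Mψ : ℝ, ∀ v, ‖ψ v‖ ≤ Mψ := by
    have hcs : HasCompactSupport ψ := HasCompactSupport.intro (K := Set.Icc (-A) A) isCompact_Icc fun v hv => hA v (by
      by_contra h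
      rw [not_lt, abs_le] at h
      exact hv h)
    exact hcs.exists_bound_of_continuous hψc
  have hM0 : 0 ≤ Mψ := (norm_nonneg _).trans (hMψ 0)
  obtain ⟨δ, hδd⟩ : ∃ δ : ℝ, δ = (w.re - 1 - θ / 2) / 2 := ⟨_, rfl⟩
  have hδ : 0 < δ := by rw [hδd]; linarith
  have hs := Summable.mul_of_nonneg (sum_pow hδ) (sum_pow hκ) (fun n => by positivity) (fun n => by positivity)
  refine Summable.of_norm_bounded (g := fun p : ℕ × ℕ => (CD * Mψ * Real.exp (A * (1 / 2 + 2 * κ))) * ((p.1 : ℝ) ^ (-(1 + δ)) * (p.2 : ℝ) ^ (-(1 + κ)))) (hs.mul_left _) ?_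
  rintro ⟨d, n⟩
  show ‖ff ψ θ k M w d n‖ ≤ (CD * Mψ * Real.exp (A * (1 / 2 + 2 * κ))) * ((d : ℝ) ^ (-(1 + δ)) * (n : ℝ) ^ (-(1 + κ)))
  rcases Nat.eq_zero_or_pos n with hn | hn
  · subst hn
    unfold ff
    simp only [Nat.cast_zero, Real.sqrt_zero, Complex.ofReal_zero, div_zero, zero_mul, norm_zero]
    positivity
  rcases Nat.eq_zero_or_pos d with hd | hd
  · subst hd
    unfold ff
    rw [cd_zero]
    simp only [Complex.ofReal_zero, zero_mul, mul_zero, norm_zero]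
    positivity
  have hn0 : (0:ℝ) < n := by exact_mod_cast hn
  have hd0 : (0:ℝ) < d := by exact_mod_cast hd
  have hMn : M * n ≠ 0 := Nat.mul_ne_zero hM hn.ne'
  have e5 : ‖((Real.sqrt n : ℝ) : ℂ)‖ = (n : ℝ) ^ (1 / 2 : ℝ) := by
    rw [Complex.norm_real, Real.norm_of_nonneg (Real.sqrt_nonneg _), Real.sqrt_eq_rpow]
  have e6 : ‖(cd (M * n) d : ℂ)‖ ≤ 1 := by
    rw [Complex.norm_real, Real.norm_eq_abs]
    exact cd_abs hMn d
  have e7 : ‖GG ψ θ (Real.log n) w (Real.log d)‖ ≤ Mψ * (Real.exp (A * (1 / 2 + 2 * κ)) * ((d : ℝ) ^ (-(1 + δ)) * (n : ℝ) ^ (-(1 / 2 + 2 * κ)))) := by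
    unfold GG
    rw [norm_mul, Complex.norm_exp]
    have e8 : (-(w * ((Real.log d : ℝ) : ℂ))).re = -(w.re * Real.log d) := by
      rw [Complex.neg_re, Complex.re_mul_ofReal]
    rw [e8]
    by_cases hv : A < |Real.log n - θ * Real.log d|
    · rw [hA _ hv, norm_zero, mul_zero]
      positivity
    · rw [not_lt, abs_le] at hv
      have e9 : Real.exp (-(w.re * Real.log d)) ≤ Real.exp (A * (1 / 2 + 2 * κ)) * ((d : ℝ) ^ (-(1 + δ)) * (n : ℝ) ^ (-(1 / 2 + 2 * κ))) := by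
        rw [Real.rpow_def_of_pos hd0, Real.rpow_def_of_pos hn0, ← Real.exp_add, ← Real.exp_add, Real.exp_le_exp]
        have h1 : (Real.log n - θ * Real.log d) * (1 / 2 + 2 * κ) ≤ A * (1 / 2 + 2 * κ) := by
          have := hv.2
          gcongr
        have h2 : w.re = 1 + δ + θ * (1 / 2 + 2 * κ) := by
          rw [hδd]
          linarith
        rw [h2]
        nlinarith
      calc Real.exp (-(w.re * Real.log d)) * ‖ψ (Real.log n - θ * Real.log d)‖ ≤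
            (Real.exp (A * (1 / 2 + 2 * κ)) * ((d : ℝ) ^ (-(1 + δ)) * (n : ℝ) ^ (-(1 / 2 + 2 * κ)))) * Mψ := by
            gcongr
            exact hMψ _
        _ = _ := by ring
  unfold ff
  rw [norm_mul, norm_div, norm_mul, e5]
  calc ‖(dk k n : ℂ)‖ / (n : ℝ) ^ (1 / 2 : ℝ) * (‖(cd (M * n) d : ℂ)‖ * ‖GG ψ θ (Real.log n) w (Real.log d)‖)
      ≤ (CD * (n : ℝ) ^ κ) / (n : ℝ) ^ (1 / 2 : ℝ) * (1 * (Mψ * (Real.exp (A * (1 / 2 + 2 * κ)) * ((d : ℝ) ^ (-(1 + δ)) * (n : ℝ) ^ (-(1 / 2 + 2 * κ)))))) := by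
        gcongr
        exact hD n
    _ = (CD * Mψ * Real.exp (A * (1 / 2 + 2 * κ))) * ((d : ℝ) ^ (-(1 + δ)) * ((n : ℝ) ^ κ / (n : ℝ) ^ (1 / 2 : ℝ) * (n : ℝ) ^ (-(1 / 2 + 2 * κ)))) := by ring
    _ = _ := by
        rw [← Real.rpow_sub hn0, ← Real.rpow_add hn0]
        congr 3
        ring

/-- the Dirichlet series of the main term -/
noncomputable def TM (k M : ℕ) (s : ℂ) : ℂ := ∑' n : ℕ, (del (M * n) : ℂ) * (dk k n : ℂ) * (n : ℂ) ^ (-s)

theorem AT_sum {ξ : ℝ} {ψ : ℝ → ℂ} (h : TF ξ ψ) {A : ℝ} (hA0 : 0 ≤ A) (hA : ∀ v, A < |v| → ψ v = 0) {θ : ℝ} (hθ : 0 < θ) (hθ2 : θ < 2)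
    (k : ℕ) {M : ℕ} (hM : M ≠ 0) {w : ℂ} (hw : 1 + θ / 2 < w.re) :
    Summable (AT ψ θ k M w) ∧
    ∑' d : ℕ, AT ψ θ k M w d = 2 * Real.pi / θ * P ψ ((w - 1) / θ) * TM k M (1 / 2 + (w - 1) / θ) + EE ψ θ k M w := by
  have hψ : ContDiff ℝ 1 ψ := h.cd.of_le (by simp)
  have hS := ff_sum h.cont hA0 hA hθ k hM hw
  have hfun : AT ψ θ k M w = fun d => 2 * Real.pi * ∑' n : ℕ, ff ψ θ k M w d n := funext fun d => AT_eq h θ k hM w d
  refine ⟨?_, ?_⟩
  · rw [hfun]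
    exact hS.prod.mul_left _
  have hcomm : ∑' d : ℕ, ∑' n : ℕ, ff ψ θ k M w d n = ∑' n : ℕ, ∑' d : ℕ, ff ψ θ k M w d n :=
    (Summable.tsum_comm' (f := fun d n => ff ψ θ k M w d n) hS (fun d => hS.prod_factor d) (fun n => hS.prod_symm.prod_factor n)).symm
  rw [hfun, tsum_mul_left, hcomm]
  have hn : ∀ n : ℕ, ∑' d : ℕ, ff ψ θ k M w d n = Fn ψ θ k M n w + (dk k n : ℂ) / (Real.sqrt n : ℂ) * mn ψ θ (M * n) (Real.log n) w := by
    intro n
    unfold ff Fn en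
    rw [tsum_mul_left]
    ring
  have hσ : 1 / 2 + 3 / 4 * θ < w.re := by linarith
  obtain ⟨C, δ, hC, hδ, hb⟩ := Fn_bound hψ hA0 hA hθ k hM hσ
  have hFs : Summable fun n => Fn ψ θ k M n w := by
    refine Summable.of_norm_bounded (g := fun n : ℕ => C * (1 + ‖w‖) * Real.exp ((|w.re| + 1 / 2) * A / θ) * (n : ℝ) ^ (-(1 + δ)))
      ((sum_pow hδ).mul_left _) fun n => hb n w le_rfl
  have hTs : Summable fun n => ∑' d : ℕ, ff ψ θ k M w d n := hS.prod_symm.prod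
  have hMs : Summable fun n : ℕ => (dk k n : ℂ) / (Real.sqrt n : ℂ) * mn ψ θ (M * n) (Real.log n) w := by
    refine (hTs.sub hFs).congr fun n => ?_
    rw [hn n]
    ring
  rw [tsum_congr hn, hFs.tsum_add hMs]
  have hθc : (θ : ℂ) ≠ 0 := by exact_mod_cast hθ.ne'
  have hmain : ∑' n : ℕ, (dk k n : ℂ) / (Real.sqrt n : ℂ) * mn ψ θ (M * n) (Real.log n) w =
      1 / θ * P ψ ((w - 1) / θ) * TM k M (1 / 2 + (w - 1) / θ) := by
    unfold TM
    rw [← tsum_mul_left]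
    refine tsum_congr fun n => ?_
    rcases Nat.eq_zero_or_pos n with hn | hn
    · subst hn
      have : dk k 0 = 0 := by
        unfold Pool.Agent.W182.KO.dk
        simp
      rw [this]
      simp
    · have hnc : (n : ℂ) ≠ 0 := by exact_mod_cast hn.ne'
      have hlog : Complex.log (n : ℂ) = (Real.log n : ℂ) := (Complex.natCast_log).symm
      have e1 : ((Real.sqrt n : ℝ) : ℂ) = Complex.exp ((1 / 2) * (Real.log n : ℝ)) := by
        rw [Real.sqrt_eq_rpow, Real.rpow_def_of_pos (by exact_mod_cast hn : (0:ℝ) < n)]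
        push_cast
        congr 1
        ring
      have e2 : (n : ℂ) ^ (-(1 / 2 + (w - 1) / θ)) = Complex.exp ((1 - w) * (Real.log n : ℝ) / θ) / Complex.exp ((1 / 2) * (Real.log n : ℝ)) := by
        rw [Complex.cpow_def_of_ne_zero hnc, hlog, ← Complex.exp_sub]
        congr 1
        field_simp
        ring
      rw [e2, e1]
      unfold mn
      ring
  rw [hmain]
  unfold EE
  ring

end Pool.Agent.R313.QM
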