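import Pool.Agent.R313.QM.V

set_option autoImplicit false
set_option linter.all false

/-! Absolute convergence of Dirichlet series with multiplicative coefficients. -/

namespace Pool.Agent.R313.QM

open Finset

theorem mult_sum {h : ArithmeticFunction ℂ} (hm : h.IsMultiplicative) (hb : ∀ ε : ℝ, 0 < ε → ∃ C : ℝ, 0 ≤ C ∧ ∀ n : ℕ, ‖h n‖ ≤ C * (n : ℝ) ^ ε)
    (hp : ∀ σ : ℝ, 1 / 2 < σ → Summable (fun p : ℕ => if p.Prime then ‖h p‖ * (p : ℝ) ^ (-σ) else 0)) {σ : ℝ} (hσ : 1 / 2 < σ) :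
    Summable fun n : ℕ => ‖h n‖ * (n : ℝ) ^ (-σ) := by
  classical
  obtain ⟨φ, hφ⟩ : ∃ φ : ℕ → ℝ, ∀ n, φ n = ‖h n‖ * (n : ℝ) ^ (-σ) := ⟨_, fun _ => rfl⟩
  have hφ0 : ∀ n, 0 ≤ φ n := fun n => by rw [hφ]; positivity
  have hφz : φ 0 = 0 := by rw [hφ]; simp
  have hφ1 : φ 1 = 1 := by rw [hφ, hm.1]; simp
  have hφm : ∀ {m n : ℕ}, m.Coprime n → φ (m * n) = φ m * φ n := by
    intro m n hmn
    rw [hφ, hφ, hφ, hm.map_mul_of_coprime hmn, norm_mul]
    push_cast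
    rw [Real.mul_rpow (Nat.cast_nonneg m) (Nat.cast_nonneg n)]
    ring
  obtain ⟨τ, hτ⟩ : ∃ τ : ℝ, τ = (σ + 1 / 2) / 2 := ⟨_, rfl⟩
  have hτ1 : 1 / 2 < τ := by rw [hτ]; linarith
  obtain ⟨C, hC, hCb⟩ := hb (σ - τ) (by rw [hτ]; linarith)
  have hφb : ∀ n : ℕ, n ≠ 0 → φ n ≤ C * (n : ℝ) ^ (-τ) := by
    intro n hn
    have hn0 : (0:ℝ) < n := by exact_mod_cast Nat.pos_of_ne_zero hn
    rw [hφ]
    calc ‖h n‖ * (n : ℝ) ^ (-σ) ≤ (C * (n : ℝ) ^ (σ - τ)) * (n : ℝ) ^ (-σ) := by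
          have := hCb n
          gcongr
      _ = C * (n : ℝ) ^ (-τ) := by
          rw [mul_assoc, ← Real.rpow_add hn0]
          congr 2
          ring
  obtain ⟨r2, hr2⟩ : ∃ r2 : ℝ, r2 = (2 : ℝ) ^ (-τ) := ⟨_, rfl⟩
  have hr2lt : r2 < 1 := by rw [hr2]; exact Real.rpow_lt_one_of_one_lt_of_neg (by norm_num) (by linarith)
  have hr20 : 0 < r2 := by rw [hr2]; positivity
  -- local sums
  have hpow : ∀ p : ℕ, p.Prime → ∀ j : ℕ, φ (p ^ j) ≤ C * ((p : ℝ) ^ (-τ)) ^ j := by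
    intro p hpp j
    have h1 := hφb (p ^ j) (pow_ne_zero j hpp.ne_zero)
    refine h1.trans (le_of_eq ?_)
    congr 1
    push_cast
    rw [← Real.rpow_natCast, ← Real.rpow_natCast, ← Real.rpow_mul (Nat.cast_nonneg p), ← Real.rpow_mul (Nat.cast_nonneg p)]
    congr 1
    ring
  have hrp : ∀ p : ℕ, p.Prime → (p : ℝ) ^ (-τ) ≤ r2 ∧ 0 < (p : ℝ) ^ (-τ) := by
    intro p hpp
    have h2 : (2:ℝ) ≤ p := by exact_mod_cast hpp.two_le
    refine ⟨?_, by positivity⟩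
    rw [hr2]
    exact Real.rpow_le_rpow_of_nonpos (by norm_num) h2 (by linarith)
  have hloc : ∀ {p : ℕ}, p.Prime → Summable fun j : ℕ => ‖φ (p ^ j)‖ := by
    intro p hpp
    obtain ⟨h1, h2⟩ := hrp p hpp
    refine Summable.of_nonneg_of_le (fun _ => norm_nonneg _) (fun j => ?_) ((summable_geometric_of_lt_one h2.le (h1.trans_lt hr2lt)).mul_left C)
    rw [Real.norm_of_nonneg (hφ0 _)]
    exact hpow p hpp j
  have hlocs : ∀ p : ℕ, p.Prime → ∑' j : ℕ, φ (p ^ j) ≤ 1 + (φ p + C / (1 - r2) * (p : ℝ) ^ (-(2 * τ))) := by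
    intro p hpp
    obtain ⟨h1, h2⟩ := hrp p hpp
    have hs : Summable fun j : ℕ => φ (p ^ j) := by
      have := hloc hpp
      exact this.of_norm
    have e1 : ∑' j : ℕ, φ (p ^ j) = φ 1 + (φ p + ∑' j : ℕ, φ (p ^ (j + 2))) := by
      rw [hs.tsum_eq_zero_add, pow_zero]
      congr 1
      have hs' : Summable fun j : ℕ => φ (p ^ (j + 1)) := (summable_nat_add_iff 1).mpr hs
      rw [hs'.tsum_eq_zero_add, zero_add, pow_one]
    rw [e1, hφ1]
    have h3 : ∑' j : ℕ, φ (p ^ (j + 2)) ≤ C / (1 - r2) * (p : ℝ) ^ (-(2 * τ)) := by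
      have hs2 : Summable fun j : ℕ => φ (p ^ (j + 2)) := (summable_nat_add_iff 2).mpr hs
      have hg : Summable fun j : ℕ => (C * ((p : ℝ) ^ (-τ)) ^ 2) * r2 ^ j := (summable_geometric_of_lt_one hr20.le hr2lt).mul_left _
      have h4 : ∑' j : ℕ, φ (p ^ (j + 2)) ≤ ∑' j : ℕ, (C * ((p : ℝ) ^ (-τ)) ^ 2) * r2 ^ j := by
        refine hs2.tsum_le_tsum (fun j => ?_) hg
        refine (hpow p hpp (j + 2)).trans ?_
        rw [pow_add]
        calc C * (((p : ℝ) ^ (-τ)) ^ j * ((p : ℝ) ^ (-τ)) ^ 2) = (C * ((p : ℝ) ^ (-τ)) ^ 2) * ((p : ℝ) ^ (-τ)) ^ j := by ring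
          _ ≤ (C * ((p : ℝ) ^ (-τ)) ^ 2) * r2 ^ j := by gcongr
      refine h4.trans (le_of_eq ?_)
      rw [tsum_mul_left, tsum_geometric_of_lt_one hr20.le hr2lt]
      have e2 : ((p : ℝ) ^ (-τ)) ^ 2 = (p : ℝ) ^ (-(2 * τ)) := by
        rw [← Real.rpow_natCast, ← Real.rpow_mul (Nat.cast_nonneg p)]
        congr 1
        push_cast
        ring
      rw [e2]
      ring
    linarith
  -- the bound
  have hS1 := hp σ hσ
  have hS2 : Summable fun n : ℕ => C / (1 - r2) * (n : ℝ) ^ (-(2 * τ)) := (Real.summable_nat_rpow.mpr (by linarith)).mul_left _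
  have hCr : 0 ≤ C / (1 - r2) := div_nonneg hC (by linarith)
  obtain ⟨g, hg⟩ : ∃ g : ℕ → ℝ, ∀ n, g n = (if n.Prime then ‖h n‖ * (n : ℝ) ^ (-σ) else 0) + C / (1 - r2) * (n : ℝ) ^ (-(2 * τ)) := ⟨_, fun _ => rfl⟩
  have hg0 : ∀ n, 0 ≤ g n := by
    intro n
    rw [hg]
    split_ifs <;> positivity
  have hgs : Summable g := by
    rw [funext hg]
    exact hS1.add hS2
  have hfin : Summable φ := by
    refine summable_of_sum_range_le (c := Real.exp (∑' n, g n)) hφ0 fun N => ?_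
    obtain ⟨hsm, hsm2⟩ := EulerProduct.summable_and_hasSum_smoothNumbers_prod_primesBelow_tsum hφ1 hφm hloc N
    have h1 : ∑ n ∈ range N, φ n ≤ ∑' m : N.smoothNumbers, φ m := by
      rw [tsum_subtype (N.smoothNumbers : Set ℕ) φ]
      have hsum : Summable ((N.smoothNumbers : Set ℕ).indicator φ) := by
        rw [← summable_subtype_iff_indicator]
        exact hsm.of_norm
      have h2 : ∑ n ∈ range N, φ n = ∑ n ∈ range N, (N.smoothNumbers : Set ℕ).indicator φ n := by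
        refine sum_congr rfl fun n hn => ?_
        rw [mem_range] at hn
        rcases Nat.eq_zero_or_pos n with h0 | h0
        · subst h0
          rw [hφz, Set.indicator_apply, hφz]
          simp
        · rw [Set.indicator_of_mem]
          exact Nat.mem_smoothNumbers_of_lt h0 hn
      rw [h2]
      exact hsum.sum_le_tsum _ fun n _ => Set.indicator_nonneg (fun x _ => hφ0 x) n
    refine h1.trans ?_
    rw [hsm2.tsum_eq]
    calc ∏ p ∈ N.primesBelow, ∑' n : ℕ, φ (p ^ n) ≤ ∏ p ∈ N.primesBelow, Real.exp (g p) := by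
          refine prod_le_prod (fun p _ => tsum_nonneg fun _ => hφ0 _) fun p hp' => ?_
          have hpp := Nat.prime_of_mem_primesBelow hp'
          refine (hlocs p hpp).trans ?_
          rw [hg, if_pos hpp, hφ]
          have := Real.add_one_le_exp (‖h p‖ * (p : ℝ) ^ (-σ) + C / (1 - r2) * (p : ℝ) ^ (-(2 * τ)))
          linarith
      _ = Real.exp (∑ p ∈ N.primesBelow, g p) := (Real.exp_sum _ _).symm
      _ ≤ Real.exp (∑' n, g n) := Real.exp_le_exp.mpr (hgs.sum_le_tsum _ fun n _ => hg0 n)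
  rw [funext hφ] at hfin
  exact hfin

end Pool.Agent.R313.QM
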