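import Pool.Agent.R313.QM.W

set_option autoImplicit false
set_option linter.all false

/-! The main term as an Euler product. -/

namespace Pool.Agent.R313.QM

open Finset
open Pool.Agent.W182.KO (dk dk_succ)

noncomputable def aa (n : ℕ) : ℝ := ∏ p ∈ n.primeFactors, ((p : ℝ) / (p + 1))

lemma aa_pos (n : ℕ) : 0 < aa n := by
  unfold aa
  refine prod_pos fun p hp => ?_
  have := (Nat.prime_of_mem_primeFactors hp).pos
  positivity

lemma aa_le (n : ℕ) : aa n ≤ 1 := by
  unfold aa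
  refine prod_le_one (fun p _ => by positivity) fun p _ => ?_
  rw [div_le_one (by positivity)]
  linarith

noncomputable def aaA : ArithmeticFunction ℂ := ⟨fun n => if n = 0 then 0 else (aa n : ℂ), by simp⟩

lemma aaA_apply {n : ℕ} (hn : n ≠ 0) : aaA n = (aa n : ℂ) := by
  show (if n = 0 then (0:ℂ) else (aa n : ℂ)) = _
  rw [if_neg hn]

lemma aaA_mult : aaA.IsMultiplicative := by
  constructor
  · rw [aaA_apply one_ne_zero]
    unfold aa
    simp
  · intro m n hmn
    rcases Nat.eq_zero_or_pos m with h | h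
    · subst h; simp
    rcases Nat.eq_zero_or_pos n with h' | h'
    · subst h'; simp
    rw [aaA_apply h.ne', aaA_apply h'.ne', aaA_apply (Nat.mul_ne_zero h.ne' h'.ne')]
    unfold aa
    rw [hmn.primeFactors_mul, prod_union hmn.disjoint_primeFactors]
    push_cast
    rfl

noncomputable def dkA (k : ℕ) : ArithmeticFunction ℂ := ((ArithmeticFunction.zeta : ArithmeticFunction ℕ) : ArithmeticFunction ℂ) ^ k

lemma dkA_succ (k n : ℕ) : dkA (k + 1) n = ∑ i ∈ n.divisors, dkA k i := by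
  unfold dkA
  rw [pow_succ', ArithmeticFunction.coe_zeta_mul_apply]

lemma dkA_eq (k n : ℕ) (hn : n ≠ 0) : dkA k n = (dk k n : ℂ) := by
  induction k generalizing n with
  | zero =>
    unfold dkA
    rw [pow_zero, ArithmeticFunction.one_apply]
    unfold Pool.Agent.W182.KO.dk
    by_cases h : n = 1
    · subst h
      rw [if_pos rfl, Nat.finMulAntidiag_one, card_singleton, Nat.cast_one]
    · rw [if_neg h, Nat.finMulAntidiag_zero_left h]
      simp
  | succ k ih =>
    have h1 : ((dk (k + 1) n : ℕ) : ℂ) = ∑ p ∈ n.divisorsAntidiagonal, (dk k p.2 : ℂ) := by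
      have h2 := congrArg (fun x : ℝ => (x : ℂ)) (dk_succ k n)
      push_cast at h2
      exact h2
    rw [dkA_succ, h1]
    rw [Nat.sum_divisorsAntidiagonal' (f := fun _ b => (dk k b : ℂ))]
    refine sum_congr rfl fun i hi => ih i ?_
    exact (Nat.pos_of_mem_divisors hi).ne'

lemma dkA_mult (k : ℕ) : (dkA k).IsMultiplicative := by
  unfold dkA
  exact (ArithmeticFunction.isMultiplicative_zeta.natCast).pow

/-- the exponent `k (k + 1) / 2` -/
def KK (k : ℕ) : ℕ := ∑ i ∈ range (k + 1), i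

lemma KK_succ (k : ℕ) : KK (k + 1) = KK k + (k + 1) := by
  unfold KK
  rw [sum_range_succ]

lemma dkA_prime (k : ℕ) {p : ℕ} (hp : p.Prime) : dkA k p = k := by
  induction k with
  | zero =>
    unfold dkA
    rw [pow_zero, ArithmeticFunction.one_apply, if_neg hp.one_lt.ne']
    simp
  | succ k ih =>
    rw [dkA_succ, hp.divisors, sum_pair hp.one_lt.ne, ih, (dkA_mult k).1]
    push_cast
    ring

lemma dkA_prime_sq (k : ℕ) {p : ℕ} (hp : p.Prime) : dkA k (p ^ 2) = KK k := by
  induction k with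
  | zero =>
    unfold dkA KK
    rw [pow_zero, ArithmeticFunction.one_apply, if_neg]
    · simp
    · intro h
      exact hp.one_lt.ne' ((Nat.pow_eq_one.mp h).resolve_right (by norm_num))
  | succ k ih =>
    rw [dkA_succ, Nat.sum_divisors_prime_pow hp, sum_range_succ, sum_range_succ, sum_range_one, ih, pow_zero, pow_one, dkA_prime k hp,
      (dkA_mult k).1, KK_succ]
    push_cast
    ring

lemma dkA_ne {k n : ℕ} (hk : k ≠ 0) (hn : n ≠ 0) : dkA k n ≠ 0 := by
  obtain ⟨j, rfl⟩ := Nat.exists_eq_succ_of_ne_zero hk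
  rw [dkA_eq _ n hn, Nat.cast_ne_zero]
  intro h0
  have h1 := dk_succ j n
  rw [show dk (j + 1) n = 0 from h0, Nat.cast_zero] at h1
  have h2 : (dk j 1 : ℝ) ≤ ∑ p ∈ n.divisorsAntidiagonal, (dk j p.2 : ℝ) :=
    single_le_sum (f := fun p : ℕ × ℕ => (dk j p.2 : ℝ)) (fun p _ => by positivity) (a := (n, 1)) (by
      rw [Nat.mem_divisorsAntidiagonal]
      exact ⟨mul_one n, hn⟩)
  have h3 : dk j 1 = 1 := by
    unfold Pool.Agent.W182.KO.dk
    rw [Nat.finMulAntidiag_one, card_singleton]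
  rw [← h1, h3] at h2
  norm_num at h2

/-- the multiplicative function of the main term -/
noncomputable def fM (k M M1 : ℕ) : ArithmeticFunction ℂ :=
  ⟨fun m => if m = 0 then 0 else aaA (M * m) / aaA M * (dkA k (M1 * m ^ 2) / dkA k M1), by simp⟩

lemma fM_apply (k M M1 : ℕ) {m : ℕ} (hm : m ≠ 0) : fM k M M1 m = aaA (M * m) / aaA M * (dkA k (M1 * m ^ 2) / dkA k M1) := by
  show (if m = 0 then (0:ℂ) else _) = _
  rw [if_neg hm]

lemma lcm_trick {f : ArithmeticFunction ℂ} (hf : f.IsMultiplicative) (a : ℕ) {m n : ℕ} (hmn : m.Coprime n) :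
    f (a * (m * n)) * f a = f (a * m) * f (a * n) := by
  have h := hf.lcm_apply_mul_gcd_apply (x := a * m) (y := a * n)
  rw [Nat.lcm_mul_left, Nat.gcd_mul_left, hmn.lcm_eq_mul, hmn.gcd_eq_one, mul_one] at h
  exact h

lemma fM_mult {k M M1 : ℕ} (hk : k ≠ 0) (hM : M ≠ 0) (hM1 : M1 ≠ 0) : (fM k M M1).IsMultiplicative := by
  have ha : aaA M ≠ 0 := by
    rw [aaA_apply hM]
    exact_mod_cast (aa_pos M).ne'
  have hd : dkA k M1 ≠ 0 := dkA_ne hk hM1
  constructor
  · rw [fM_apply k M M1 one_ne_zero, mul_one, one_pow, mul_one, div_self ha, div_self hd, mul_one]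
  · intro m n hmn
    rcases Nat.eq_zero_or_pos m with h | h
    · subst h; simp
    rcases Nat.eq_zero_or_pos n with h' | h'
    · subst h'; simp
    rw [fM_apply k M M1 h.ne', fM_apply k M M1 h'.ne', fM_apply k M M1 (Nat.mul_ne_zero h.ne' h'.ne')]
    have e1 := lcm_trick aaA_mult M hmn
    have e2 := lcm_trick (dkA_mult k) M1 (hmn.pow 2 2)
    rw [← mul_pow] at e2
    have e1' : aaA (M * (m * n)) = aaA (M * m) * aaA (M * n) / aaA M := by
      rw [eq_div_iff ha]; exact e1
    have e2' : dkA k (M1 * (m * n) ^ 2) = dkA k (M1 * m ^ 2) * dkA k (M1 * n ^ 2) / dkA k M1 := by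
      rw [eq_div_iff hd]; exact e2
    rw [e1', e2']
    field_simp

lemma fM_prime {k M M1 p : ℕ} (hk : k ≠ 0) (hM : M ≠ 0) (hM1 : M1 ∣ M) (hp : p.Prime) (hpM : ¬ p ∣ M) :
    fM k M M1 p = KK k * ((p : ℂ) / (p + 1)) := by
  have hM10 : M1 ≠ 0 := fun h => hM (by rw [h] at hM1; exact Nat.eq_zero_of_zero_dvd hM1)
  have ha : aaA M ≠ 0 := by
    rw [aaA_apply hM]
    exact_mod_cast (aa_pos M).ne'
  have hd : dkA k M1 ≠ 0 := dkA_ne hk hM10
  have c1 : Nat.Coprime M p := ((hp.coprime_iff_not_dvd).mpr hpM).symm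
  have c2 : Nat.Coprime M1 (p ^ 2) := Nat.Coprime.pow_right 2 (Nat.Coprime.coprime_dvd_left hM1 c1)
  rw [fM_apply k M M1 hp.ne_zero, aaA_mult.map_mul_of_coprime c1, (dkA_mult k).map_mul_of_coprime c2, dkA_prime_sq k hp, aaA_apply hp.ne_zero]
  have e : aa p = (p : ℝ) / (p + 1) := by
    unfold aa
    rw [hp.primeFactors, prod_singleton]
  rw [e]
  push_cast
  field_simp

end Pool.Agent.R313.QM
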