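import Pool.Agent.R313.QM.Y
import Pool.Agent.H306R2.ZetaGrowth

set_option autoImplicit false
set_option linter.all false

/-! The continuation of the averages. -/

namespace Pool.Agent.R313.QM

open Finset MeasureTheory
open Pool.Agent.W182.KO (dk dk_succ P TF P_diff)

lemma sq_iff {M a b n : ℕ} (hM : M ≠ 0) (hab : b ^ 2 * a = M) (hsq : Squarefree a) : IsSquare (M * n) ↔ ∃ m, n = a * m ^ 2 := by
  have hb : b ≠ 0 := by rintro rfl; apply hM; rw [← hab]; ring
  have ha : a ≠ 0 := by rintro rfl; apply hM; rw [← hab]; ring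
  constructor
  · rintro ⟨c, hc⟩
    have h1 : b ^ 2 * (a * n) = c ^ 2 := by rw [← mul_assoc, hab, hc]; ring
    have h2 : b ∣ c := by
      rw [← Nat.pow_dvd_pow_iff (two_ne_zero)]
      exact ⟨a * n, h1.symm⟩
    obtain ⟨e, rfl⟩ := h2
    have h3 : a * n = e ^ 2 := by
      have : b ^ 2 * (a * n) = b ^ 2 * e ^ 2 := by rw [h1]; ring
      exact Nat.eq_of_mul_eq_mul_left (by positivity) this
    have h4 : a ∣ e := by
      rw [← hsq.dvd_pow_iff_dvd (two_ne_zero)]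
      exact ⟨n, h3.symm⟩
    obtain ⟨f, rfl⟩ := h4
    refine ⟨f, ?_⟩
    have : a * n = a * (a * f ^ 2) := by rw [h3]; ring
    exact Nat.eq_of_mul_eq_mul_left (Nat.pos_of_ne_zero ha) this
  · rintro ⟨m, rfl⟩
    refine ⟨b * a * m, ?_⟩
    rw [← hab]; ring

lemma aa_eq {M a m : ℕ} (hM : M ≠ 0) (haM : a ∣ M) (hm : m ≠ 0) : aa (M * (a * m ^ 2)) = aa (M * m) := by
  have ha : a ≠ 0 := fun h => hM (by rw [h] at haM; exact Nat.eq_zero_of_zero_dvd haM)
  unfold aa
  congr 1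
  rw [Nat.primeFactors_mul hM (by positivity), Nat.primeFactors_mul ha (by positivity), Nat.primeFactors_mul hM hm,
    Nat.primeFactors_pow m two_ne_zero, ← union_assoc, union_eq_left.mpr (Nat.primeFactors_mono haM hM)]

theorem TM_eq {k M a b : ℕ} (hk : k ≠ 0) (hM : M ≠ 0) (hab : b ^ 2 * a = M) (hsq : Squarefree a) (s : ℂ) :
    TM k M s = (3 / Real.pi ^ 2) * aaA M * dkA k a * (a : ℂ) ^ (-s) * LSeries (fun n => fM k M a n) (2 * s) := by
  have ha : a ≠ 0 := hsq.ne_zero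
  have haM : a ∣ M := ⟨b ^ 2, by rw [← hab]; ring⟩
  have hinj : Function.Injective (fun m : ℕ => a * m ^ 2) := by
    intro m n h
    have h1 := Nat.eq_of_mul_eq_mul_left (Nat.pos_of_ne_zero ha) h
    exact Nat.pow_left_injective (n := 2) (by norm_num) h1
  have hdk0 : dk k 0 = 0 := by
    unfold Pool.Agent.W182.KO.dk
    simp
  have haA : aaA M ≠ 0 := by
    rw [aaA_apply hM]
    exact_mod_cast (aa_pos M).ne'
  have hdA : dkA k a ≠ 0 := dkA_ne hk ha
  unfold TM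
  rw [← hinj.tsum_eq]
  · unfold LSeries
    rw [← tsum_mul_left]
    refine tsum_congr fun m => ?_
    show (del (M * (a * m ^ 2)) : ℂ) * (dk k (a * m ^ 2) : ℂ) * ((a * m ^ 2 : ℕ) : ℂ) ^ (-s) = _
    rcases Nat.eq_zero_or_pos m with hm | hm
    · subst hm
      rw [LSeries.term_zero, mul_zero, zero_pow two_ne_zero, mul_zero, hdk0]
      simp
    · have h1 : del (M * (a * m ^ 2)) = 3 / Real.pi ^ 2 * aa (M * m) := by
        unfold del
        rw [if_pos ((sq_iff hM hab hsq).mpr ⟨m, rfl⟩), dens_eq (by positivity)]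
        have := aa_eq hM haM hm.ne'
        unfold aa at this ⊢
        rw [this]
      have h2 : ((a * m ^ 2 : ℕ) : ℂ) ^ (-s) = (a : ℂ) ^ (-s) * ((m : ℂ) ^ (2 * s))⁻¹ := by
        have hac : (a : ℂ) ≠ 0 := by exact_mod_cast ha
        have hmc : (m : ℂ) ≠ 0 := by exact_mod_cast hm.ne'
        have hamc : ((a * m ^ 2 : ℕ) : ℂ) ≠ 0 := by exact_mod_cast (by positivity : a * m ^ 2 ≠ 0)
        rw [← Complex.cpow_neg, Complex.cpow_def_of_ne_zero hamc, Complex.cpow_def_of_ne_zero hac, Complex.cpow_def_of_ne_zero hmc,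
          ← Complex.exp_add, ← Complex.natCast_log, ← Complex.natCast_log, ← Complex.natCast_log]
        congr 1
        have h3 : Real.log ((a * m ^ 2 : ℕ) : ℝ) = Real.log a + 2 * Real.log m := by
          push_cast
          rw [Real.log_mul (by exact_mod_cast ha) (by positivity), Real.log_pow]
          push_cast
          ring
        rw [h3]
        push_cast
        ring
      rw [h1, h2, LSeries.term_of_ne_zero hm.ne', fM_apply k M a hm.ne', aaA_apply (Nat.mul_ne_zero hM hm.ne'),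
        ← dkA_eq k (a * m ^ 2) (by positivity)]
      push_cast
      field_simp
  · intro n hn
    rcases Nat.eq_zero_or_pos n with h0 | h0
    · subst h0
      exact ⟨0, by simp⟩
    · by_cases hs : IsSquare (M * n)
      · obtain ⟨m, hm⟩ := (sq_iff hM hab hsq).mp hs
        exact ⟨m, hm.symm⟩
      · exfalso
        apply hn
        have h1 : del (M * n) = 0 := by
          unfold del
          rw [if_neg hs]
        show (del (M * n) : ℂ) * (dk k n : ℂ) * (n : ℂ) ^ (-s) = 0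
        rw [h1]
        simp

open Classical in
/-- the entire function `(z - 1) ζ(z)` -/
noncomputable def ZZ : ℂ → ℂ := Function.update (fun z => (z - 1) * riemannZeta z) 1 1

lemma ZZ_ne {z : ℂ} (hz : z ≠ 1) : ZZ z = (z - 1) * riemannZeta z := by
  unfold ZZ
  rw [Function.update_of_ne hz]

lemma ZZ_diff : Differentiable ℂ ZZ := by
  rw [← differentiableOn_univ, ← Complex.differentiableOn_compl_singleton_and_continuousAt_iff (c := 1) Filter.univ_mem]
  constructor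
  · intro z hz
    have hz1 : z ≠ 1 := by simpa using hz
    have h1 : DifferentiableAt ℂ (fun z => (z - 1) * riemannZeta z) z := by
      have := differentiableAt_riemannZeta hz1
      fun_prop
    have h2 : ZZ =ᶠ[nhds z] fun z => (z - 1) * riemannZeta z := by
      filter_upwards [isOpen_ne.mem_nhds hz1] with y hy
      exact ZZ_ne hy
    exact (h1.congr_of_eventuallyEq h2).differentiableWithinAt
  · rw [continuousAt_iff_punctured_nhds]
    have h1 : ZZ 1 = 1 := by unfold ZZ; rw [Function.update_self]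
    rw [h1]
    refine riemannZeta_residue_one.congr' ?_
    filter_upwards [self_mem_nhdsWithin] with y hy
    exact (ZZ_ne hy).symm

lemma ZZ_bd {z : ℂ} (hz : 1 / 2 ≤ z.re) : ‖ZZ z‖ ≤ 3 * (‖z‖ + 1) ^ 2 := by
  have h1 : ZZ z = Pool.Agent.H306R2.Zt z := by
    by_cases h : z = 1
    · subst h
      unfold ZZ
      rw [Function.update_self, Pool.Agent.H306R2.Zt_one]
    · rw [ZZ_ne h, Pool.Agent.H306R2.zeta_eq_pos (by linarith) h]
  rw [h1]
  exact Pool.Agent.H306R2.Zt_norm_le hz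

lemma P_bd' {ξ : ℝ} {ψ : ℝ → ℂ} (h : TF ξ ψ) {A : ℝ} (hA : ∀ v, A < |v| → ψ v = 0) (z : ℂ) :
    ‖P ψ z‖ ≤ (∫ v : ℝ, ‖ψ v‖) * Real.exp (A * |z.re|) := by
  have i1 : Integrable fun v : ℝ => ‖ψ v‖ := (h.cont.norm).integrable_of_hasCompactSupport h.cs.norm
  unfold Pool.Agent.W182.KO.P
  have hpt : ∀ v : ℝ, ‖ψ v * Complex.exp (v * z)‖ ≤ Real.exp (A * |z.re|) * ‖ψ v‖ := by
    intro v
    rw [norm_mul, Complex.norm_exp, Complex.re_ofReal_mul]
    by_cases hv : A < |v|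
    · rw [hA v hv]; simp
    · rw [not_lt] at hv
      have h1 : v * z.re ≤ A * |z.re| := by
        calc v * z.re ≤ |v * z.re| := le_abs_self _
          _ = |v| * |z.re| := abs_mul _ _
          _ ≤ A * |z.re| := by gcongr
      rw [mul_comm]
      gcongr
  refine (norm_integral_le_of_norm_le (i1.const_mul _) (Filter.Eventually.of_forall hpt)).trans (le_of_eq ?_)
  rw [integral_const_mul]
  ring

lemma Lh_bd {k M a : ℕ} (hk : k ≠ 0) (hM : M ≠ 0) (haM : a ∣ M) {x0 : ℝ} (hx : 1 / 2 < x0) :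
    ∃ C : ℝ, 0 ≤ C ∧ ∀ z : ℂ, x0 ≤ z.re → ‖LSeries (fun n => hM' k M a n) z‖ ≤ C := by
  have ha0 : a ≠ 0 := fun h => hM (by rw [h] at haM; exact Nat.eq_zero_of_zero_dvd haM)
  have h := mult_sum (hM_mult hk hM ha0) (fun ε hε => hM_bd hk hM ha0 hε) (fun σ hσ => hM_prime hk hM haM hσ) hx
  refine ⟨∑' n : ℕ, ‖hM' k M a n‖ * (n : ℝ) ^ (-x0), tsum_nonneg fun n => by positivity, fun z hz => ?_⟩
  unfold LSeries
  refine tsum_of_norm_bounded h.hasSum fun n => ?_
  rw [LSeries.norm_term_eq]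
  split_ifs with hn
  · positivity
  · have hn1 : (1:ℝ) ≤ n := by exact_mod_cast Nat.pos_of_ne_zero hn
    rw [div_eq_mul_inv, ← Real.rpow_neg (Nat.cast_nonneg n)]
    gcongr

theorem cont {ξ : ℝ} {ψ : ℝ → ℂ} (h : TF ξ ψ) {A : ℝ} (hA0 : 0 ≤ A) (hA : ∀ v, A < |v| → ψ v = 0) {θ : ℝ} (hθ : 0 < θ) (hθ2 : θ < 2)
    {k : ℕ} (hk : k ≠ 0) {M : ℕ} (hM : M ≠ 0) :
    ∃ G : ℂ → ℂ, DifferentiableOn ℂ G {w | 1 / 2 + 3 / 4 * θ < w.re ∧ 1 - θ / 4 < w.re} ∧
      (∀ σ1 σ2 : ℝ, 1 / 2 + 3 / 4 * θ < σ1 → 1 - θ / 4 < σ1 → ∃ C : ℝ, ∀ w : ℂ, σ1 ≤ w.re → w.re ≤ σ2 →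
        ‖G w‖ ≤ C * (1 + ‖w‖) ^ (2 * KK k + 1)) ∧
      ∀ w : ℂ, 1 + θ / 2 < w.re → (w - 1) ^ (KK k) * ∑' d : ℕ, AT ψ θ k M w d = G w := by
  obtain ⟨a, b, hab, hsq⟩ := Nat.sq_mul_squarefree M
  have haM : a ∣ M := ⟨b ^ 2, by rw [← hab]; ring⟩
  have ha : a ≠ 0 := hsq.ne_zero
  have hac : (a : ℂ) ≠ 0 := by exact_mod_cast ha
  have hθc : (θ : ℂ) ≠ 0 := by exact_mod_cast hθ.ne'
  refine ⟨fun w => (2 * Real.pi / θ * P ψ ((w - 1) / θ)) * (((3 / Real.pi ^ 2) * aaA M * dkA k a) * (a : ℂ) ^ (-(1 / 2 + (w - 1) / θ)) *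
      LSeries (fun n => hM' k M a n) (1 + 2 * (w - 1) / θ) * ((θ / 2) * ZZ (1 + 2 * (w - 1) / θ)) ^ (KK k)) +
      (w - 1) ^ (KK k) * EE ψ θ k M w, ?_, ?_, ?_⟩
  · intro w hw
    obtain ⟨hw1, hw2⟩ := hw
    have hP : DifferentiableAt ℂ (fun w : ℂ => P ψ ((w - 1) / θ)) w := by
      have h1 : Differentiable ℂ fun w : ℂ => (w - 1) / θ := by fun_prop
      exact ((P_diff h).comp h1) w
    have hZ : DifferentiableAt ℂ (fun w : ℂ => ZZ (1 + 2 * (w - 1) / θ)) w := by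
      have h1 : Differentiable ℂ fun w : ℂ => 1 + 2 * (w - 1) / θ := by fun_prop
      exact (ZZ_diff.comp h1) w
    have hzr : 1 / 2 < (1 + 2 * (w - 1) / θ : ℂ).re := by
      have e : (1 + 2 * (w - 1) / θ : ℂ).re = 1 + 2 * (w.re - 1) / θ := by
        have : (1 + 2 * (w - 1) / θ : ℂ) = 1 + ((2 / θ : ℝ) : ℂ) * (w - 1) := by
          push_cast
          ring
        rw [this, Complex.add_re, Complex.re_ofReal_mul]
        simp
        ring
      rw [e]
      have h3 : -(1 / 2) < 2 * (w.re - 1) / θ := by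
        rw [lt_div_iff₀ hθ]
        linarith
      linarith
    have hL : DifferentiableAt ℂ (fun w : ℂ => LSeries (fun n => hM' k M a n) (1 + 2 * (w - 1) / θ)) w := by
      have h1 : DifferentiableAt ℂ (LSeries (fun n => hM' k M a n)) (1 + 2 * (w - 1) / θ) :=
        (hM_diff hk hM haM).differentiableAt ((isOpen_lt continuous_const Complex.continuous_re).mem_nhds hzr)
      have h2 : DifferentiableAt ℂ (fun w : ℂ => 1 + 2 * (w - 1) / θ) w := by fun_prop
      exact DifferentiableAt.comp w h1 h2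
    have hpw : DifferentiableAt ℂ (fun w : ℂ => (a : ℂ) ^ (-(1 / 2 + (w - 1) / θ))) w := by
      have h2 : DifferentiableAt ℂ (fun w : ℂ => (-(1 / 2 + (w - 1) / θ) : ℂ)) w := by fun_prop
      exact h2.const_cpow (Or.inl hac)
    have hE : DifferentiableAt ℂ (EE ψ θ k M) w :=
      (EE_diff h hA0 hA hθ k hM).differentiableAt ((isOpen_lt continuous_const Complex.continuous_re).mem_nhds hw1)
    have hq : DifferentiableAt ℂ (fun w : ℂ => (w - 1) ^ (KK k)) w := by fun_prop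
    exact ((((hP.const_mul _).mul (((hpw.const_mul _).mul hL).mul ((hZ.const_mul _).pow _)))).add (hq.mul hE)).differentiableWithinAt
  · intro σ1 σ2 hs1 hs2
    obtain ⟨x0, hx0⟩ : ∃ x0 : ℝ, x0 = 1 + 2 * (σ1 - 1) / θ := ⟨_, rfl⟩
    have hx0' : 1 / 2 < x0 := by
      have h3 : -(1 / 2) < 2 * (σ1 - 1) / θ := by
        rw [lt_div_iff₀ hθ]
        linarith
      rw [hx0]
      linarith
    obtain ⟨CL, hCL, hLb⟩ := Lh_bd hk hM haM hx0'
    obtain ⟨CE, hCE⟩ := EE_bound h hA0 hA hθ k hM (σ2 := σ2) hs1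
    obtain ⟨IP, hIP⟩ : ∃ IP : ℝ, IP = ∫ v : ℝ, ‖ψ v‖ := ⟨_, rfl⟩
    have hIP0 : 0 ≤ IP := by rw [hIP]; exact integral_nonneg fun _ => norm_nonneg _
    obtain ⟨c0, hc0⟩ : ∃ c0 : ℝ, c0 = ‖((3 / Real.pi ^ 2) * aaA M * dkA k a : ℂ)‖ := ⟨_, rfl⟩
    have hc00 : 0 ≤ c0 := by rw [hc0]; exact norm_nonneg _
    obtain ⟨cp, hcp⟩ : ∃ cp : ℝ, cp = ‖(2 * Real.pi / θ : ℂ)‖ := ⟨_, rfl⟩
    have hcp0 : 0 ≤ cp := by rw [hcp]; exact norm_nonneg _
    obtain ⟨B, hB⟩ : ∃ B : ℝ, B = 2 + 4 / θ := ⟨_, rfl⟩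
    have hB1 : 0 ≤ B := by rw [hB]; positivity
    refine ⟨cp * (IP * Real.exp (A * ((|σ2| + 1) / θ))) * (c0 * 1 * CL * (θ / 2 * (3 * B ^ 2)) ^ (KK k)) + |CE|, fun w hw1 hw2 => ?_⟩
    have hwpos : 0 < w.re := by nlinarith
    have hwabs : |w.re| ≤ |σ2| := by
      rw [abs_of_pos hwpos]
      exact hw2.trans (le_abs_self _)
    obtain ⟨W, hW⟩ : ∃ W : ℝ, W = 1 + ‖w‖ := ⟨_, rfl⟩
    have hW1 : 1 ≤ W := by rw [hW]; linarith [norm_nonneg w]
    have ere : (1 + 2 * (w - 1) / θ : ℂ).re = 1 + 2 * (w.re - 1) / θ := by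
      have : (1 + 2 * (w - 1) / θ : ℂ) = 1 + ((2 / θ : ℝ) : ℂ) * (w - 1) := by
        push_cast
        ring
      rw [this, Complex.add_re, Complex.re_ofReal_mul]
      simp
      ring
    have hzx : x0 ≤ (1 + 2 * (w - 1) / θ : ℂ).re := by
      rw [ere, hx0]
      gcongr
    -- the factors
    have b1 : ‖P ψ ((w - 1) / θ)‖ ≤ IP * Real.exp (A * ((|σ2| + 1) / θ)) := by
      have h1 := P_bd' h hA ((w - 1) / θ)
      rw [← hIP] at h1
      refine h1.trans ?_
      have h2 : |((w - 1) / θ : ℂ).re| ≤ (|σ2| + 1) / θ := by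
        have : ((w - 1) / θ : ℂ).re = (w.re - 1) / θ := by
          rw [Complex.div_ofReal_re]
          simp
        rw [this, abs_div, abs_of_pos hθ]
        gcongr
        refine (abs_sub _ _).trans ?_
        rw [abs_one]
        linarith
      gcongr
    have b2 : ‖(a : ℂ) ^ (-(1 / 2 + (w - 1) / θ))‖ ≤ 1 := by
      rw [Complex.norm_natCast_cpow_of_pos (Nat.pos_of_ne_zero ha)]
      have h1 : (-(1 / 2 + (w - 1) / θ) : ℂ).re = -(1 / 2 * (1 + 2 * (w.re - 1) / θ)) := by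
        have : (-(1 / 2 + (w - 1) / θ) : ℂ) = -(((1 / 2 : ℝ) : ℂ) * (1 + 2 * (w - 1) / θ)) := by
          push_cast
          ring
        rw [this, Complex.neg_re, Complex.re_ofReal_mul, ere]
      rw [h1]
      apply Real.rpow_le_one_of_one_le_of_nonpos
      · exact_mod_cast Nat.pos_of_ne_zero ha
      · rw [← ere]
        linarith
    have b3 := hLb _ hzx
    have b4 : ‖(θ / 2 : ℂ) * ZZ (1 + 2 * (w - 1) / θ)‖ ≤ (θ / 2 * (3 * B ^ 2)) * W ^ 2 := by
      rw [norm_mul]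
      have h1 : ‖(θ / 2 : ℂ)‖ = θ / 2 := by
        have : (θ / 2 : ℂ) = ((θ / 2 : ℝ) : ℂ) := by push_cast; rfl
        rw [this, Complex.norm_real, Real.norm_of_nonneg (by positivity)]
      have h2 := ZZ_bd (z := 1 + 2 * (w - 1) / θ) (by linarith)
      have h3 : ‖(1 + 2 * (w - 1) / θ : ℂ)‖ + 1 ≤ B * W := by
        have h4 : ‖(1 + 2 * (w - 1) / θ : ℂ)‖ ≤ 1 + 2 * (‖w‖ + 1) / θ := by
          refine (norm_add_le _ _).trans ?_
          rw [norm_one, norm_div, norm_mul, Complex.norm_ofNat, Complex.norm_real, Real.norm_of_nonneg hθ.le]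
          gcongr
          refine (norm_sub_le _ _).trans ?_
          rw [norm_one]
        refine (add_le_add h4 le_rfl).trans ?_
        rw [hB, hW]
        have h5 : 2 * (‖w‖ + 1) / θ ≤ 4 / θ * (1 + ‖w‖) := by
          have : 2 * (‖w‖ + 1) / θ = 2 / θ * (1 + ‖w‖) := by ring
          rw [this]
          have : 0 ≤ ‖w‖ := norm_nonneg w
          gcongr
          norm_num
        nlinarith [norm_nonneg w]
      rw [h1]
      calc θ / 2 * ‖ZZ (1 + 2 * (w - 1) / θ)‖ ≤ θ / 2 * (3 * (B * W) ^ 2) := by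
            gcongr
            refine h2.trans ?_
            gcongr
        _ = _ := by ring
    have b5 := hCE w hw1 hw2
    rw [← hW] at b5
    have b6 : ‖w - 1‖ ≤ W := by
      refine (norm_sub_le _ _).trans ?_
      rw [norm_one, hW]
      linarith
    refine (norm_add_le _ _).trans ?_
    rw [add_mul]
    refine add_le_add ?_ ?_
    · rw [norm_mul, norm_mul, norm_mul, norm_mul, norm_mul, norm_pow, ← hcp, ← hc0]
      calc cp * ‖P ψ ((w - 1) / θ)‖ * (c0 * ‖(a : ℂ) ^ (-(1 / 2 + (w - 1) / θ))‖ * ‖LSeries (fun n => hM' k M a n) (1 + 2 * (w - 1) / θ)‖ *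
            ‖(θ / 2 : ℂ) * ZZ (1 + 2 * (w - 1) / θ)‖ ^ (KK k))
          ≤ cp * (IP * Real.exp (A * ((|σ2| + 1) / θ))) * (c0 * 1 * CL * ((θ / 2 * (3 * B ^ 2)) * W ^ 2) ^ (KK k)) := by gcongr
        _ = cp * (IP * Real.exp (A * ((|σ2| + 1) / θ))) * (c0 * 1 * CL * (θ / 2 * (3 * B ^ 2)) ^ (KK k)) * W ^ (2 * KK k) := by
            rw [mul_pow, ← pow_mul]
            ring
        _ ≤ cp * (IP * Real.exp (A * ((|σ2| + 1) / θ))) * (c0 * 1 * CL * (θ / 2 * (3 * B ^ 2)) ^ (KK k)) * W ^ (2 * KK k + 1) := by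
            gcongr
            omega
        _ = _ := by rw [hW]
    · rw [norm_mul, norm_pow]
      calc ‖w - 1‖ ^ (KK k) * ‖EE ψ θ k M w‖ ≤ W ^ (KK k) * (|CE| * W) := by
            gcongr
            refine b5.trans ?_
            gcongr
            exact le_abs_self _
        _ = |CE| * W ^ (KK k + 1) := by ring
        _ ≤ |CE| * W ^ (2 * KK k + 1) := by
            gcongr
            omega
        _ = _ := by rw [hW]
  · intro w hw
    have hw1 : w ≠ 1 := by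
      rintro rfl
      rw [Complex.one_re] at hw
      linarith
    rw [(AT_sum h hA0 hA hθ hθ2 k hM hw).2, TM_eq hk hM hab hsq]
    have hz : (2 * (1 / 2 + (w - 1) / θ) : ℂ) = 1 + 2 * (w - 1) / θ := by ring
    have hzr : 1 < (1 + 2 * (w - 1) / θ : ℂ).re := by
      have e : (1 + 2 * (w - 1) / θ : ℂ).re = 1 + 2 * (w.re - 1) / θ := by
        have : (1 + 2 * (w - 1) / θ : ℂ) = 1 + ((2 / θ : ℝ) : ℂ) * (w - 1) := by
          push_cast
          ring
        rw [this, Complex.add_re, Complex.re_ofReal_mul]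
        simp
        ring
      rw [e]
      have h3 : 0 < 2 * (w.re - 1) / θ := by
        apply div_pos _ hθ
        linarith
      linarith
    rw [hz, (fM_LS hk hM haM hzr).2]
    have hz1 : (1 + 2 * (w - 1) / θ : ℂ) ≠ 1 := by
      intro h1
      rw [h1, Complex.one_re] at hzr
      linarith
    beta_reduce
    rw [ZZ_ne hz1]
    have e3 : ((θ / 2) * ((1 + 2 * (w - 1) / θ - 1) * riemannZeta (1 + 2 * (w - 1) / θ)) : ℂ) = (w - 1) * riemannZeta (1 + 2 * (w - 1) / θ) := by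
      field_simp
      ring
    rw [e3, mul_pow]
    ring

end Pool.Agent.R313.QM
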