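import Pool.Agent.R313.QM.Z

set_option autoImplicit false
set_option linter.all false

/-! The averages of the multiple Dirichlet series in the half plane of convergence. -/

namespace Pool.Agent.R313.QM

open Finset MeasureTheory
open Pool.Agent.W182.KO (dk dk_succ P TF P_diff P_bound)

open Classical in
/-- the summand of the multiple Dirichlet series without the term `d = 1` -/
noncomputable def at1 (k M : ℕ) (s w : ℂ) (d : ℕ) : ℂ :=
  if IsFund (d : ℤ) ∧ d ≠ 1 then (kron d M : ℂ) * (d : ℂ) ^ (-w) * LD d s ^ k else 0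

lemma LD_bd {D : ℤ} (hD : IsFund D) (h1 : D ≠ 1) {s : ℂ} (hs : 1 / 2 ≤ s.re) : ‖LD D s‖ ≤ 13 * (D.natAbs * (‖s‖ + 3)) := by
  obtain ⟨hne, χ, hχ1, hχ⟩ := char_exists hD h1
  rw [LD_eq χ hχ s]
  exact LF_bd χ hχ1 hs

theorem AM_int {ξ : ℝ} {ψ : ℝ → ℂ} (h : TF ξ ψ) (θ : ℝ) (k : ℕ) {M : ℕ} (hM : M ≠ 0) {w : ℂ} (hw : (k : ℝ) + 1 < w.re) :
    (∀ y : ℝ, Summable fun d => at1 k M (1 / 2 + y * Complex.I) (w - θ * y * Complex.I) d) ∧
    Integrable (fun y : ℝ => P ψ (y * Complex.I) * ∑' d : ℕ, at1 k M (1 / 2 + y * Complex.I) (w - θ * y * Complex.I) d) ∧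
    ∫ y : ℝ, P ψ (y * Complex.I) * ∑' d : ℕ, at1 k M (1 / 2 + y * Complex.I) (w - θ * y * Complex.I) d = ∑' d : ℕ, AT ψ θ k M w d := by
  classical
  obtain ⟨CP, hCP, hP⟩ := P_bound h (k + 2)
  -- pointwise bound
  have hL : ∀ (d : ℕ), IsFund (d : ℤ) ∧ d ≠ 1 → ∀ y : ℝ, ‖LD d (1 / 2 + y * Complex.I)‖ ≤ 52 * (d * (1 + |y|)) := by
    intro d hd y
    have hre : (1 / 2 : ℝ) ≤ (1 / 2 + y * Complex.I : ℂ).re := by simp
    have h1 := LD_bd hd.1 (by exact_mod_cast hd.2) hre
    have h2 : ‖(1 / 2 + y * Complex.I : ℂ)‖ ≤ 1 / 2 + |y| := by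
      refine (norm_add_le _ _).trans ?_
      rw [norm_mul, Complex.norm_I, mul_one, Complex.norm_real, Real.norm_eq_abs]
      have : ‖(1 / 2 : ℂ)‖ = 1 / 2 := by norm_num
      rw [this]
    have h3 : ((d : ℤ).natAbs : ℝ) = d := by simp
    rw [h3] at h1
    refine h1.trans ?_
    have h4 := abs_nonneg y
    have h5 : ‖(1 / 2 + y * Complex.I : ℂ)‖ + 3 ≤ 4 * (1 + |y|) := by linarith
    calc 13 * ((d : ℝ) * (‖(1 / 2 + y * Complex.I : ℂ)‖ + 3)) ≤ 13 * (d * (4 * (1 + |y|))) := by gcongr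
      _ = _ := by ring
  have hat : ∀ (d : ℕ) (y : ℝ), ‖at1 k M (1 / 2 + y * Complex.I) (w - θ * y * Complex.I) d‖ ≤ (52 ^ k * (1 + |y|) ^ k) * (d : ℝ) ^ (-(w.re - k)) := by
    intro d y
    unfold at1
    split_ifs with hd
    · have hd0 : 0 < d := by
        rcases Nat.eq_zero_or_pos d with h0 | h0
        · exfalso
          subst h0
          exact not_fund_zero (by simpa using hd.1)
        · exact h0
      have hdr : (0:ℝ) < d := by exact_mod_cast hd0
      rw [norm_mul, norm_mul, norm_pow, Complex.norm_natCast_cpow_of_pos hd0]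
      have e1 : (-(w - θ * y * Complex.I)).re = -w.re := by simp
      rw [e1]
      have e2 : ‖(kron (d : ℤ) M : ℂ)‖ ≤ 1 := by
        have := kron_abs (d : ℤ) hM
        have e3 : (kron (d : ℤ) M : ℂ) = (((kron (d : ℤ) M : ℤ) : ℝ) : ℂ) := by push_cast; rfl
        rw [e3, Complex.norm_real, Real.norm_eq_abs]
        exact this
      have e4 := hL d hd y
      calc ‖(kron (d : ℤ) M : ℂ)‖ * (d : ℝ) ^ (-w.re) * ‖LD d (1 / 2 + y * Complex.I)‖ ^ k
          ≤ 1 * (d : ℝ) ^ (-w.re) * (52 * (d * (1 + |y|))) ^ k := by gcongr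
        _ = (52 ^ k * (1 + |y|) ^ k) * ((d : ℝ) ^ (-w.re) * (d : ℝ) ^ k) := by
            rw [mul_pow, mul_pow]
            ring
        _ = _ := by
            rw [← Real.rpow_natCast (d : ℝ) k, ← Real.rpow_add hdr]
            congr 2
            ring
    · rw [norm_zero]
      positivity
  have hds : Summable fun d : ℕ => (d : ℝ) ^ (-(w.re - k)) := Real.summable_nat_rpow.mpr (by linarith)
  have hsum : ∀ y : ℝ, Summable fun d => at1 k M (1 / 2 + y * Complex.I) (w - θ * y * Complex.I) d := fun y =>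
    Summable.of_norm_bounded (hds.mul_left _) fun d => hat d y
  obtain ⟨F, hF⟩ : ∃ F : ℕ → ℝ → ℂ, ∀ d y, F d y = P ψ (y * Complex.I) * at1 k M (1 / 2 + y * Complex.I) (w - θ * y * Complex.I) d := ⟨_, fun _ _ => rfl⟩
  have hFAT : ∀ d, Integrable (F d) ∧ ∫ y, F d y = AT ψ θ k M w d := by
    intro d
    unfold AT
    by_cases hd : IsFund (d : ℤ) ∧ d ≠ 1
    · rw [if_pos hd]
      have hd0 : d ≠ 0 := by
        rintro rfl
        exact not_fund_zero (by simpa using hd.1)
      have hdc : (d : ℂ) ≠ 0 := by exact_mod_cast hd0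
      have hlog : Complex.log (d : ℂ) = (Real.log d : ℂ) := (Complex.natCast_log).symm
      have hD1 : (d : ℤ) ≠ 1 := by exact_mod_cast hd.2
      have e0 : ∀ y : ℝ, (d : ℂ) ^ (θ * y * Complex.I) = Complex.exp (((θ * Real.log d : ℝ) : ℂ) * (y * Complex.I)) := by
        intro y
        rw [Complex.cpow_def_of_ne_zero hdc, hlog]
        congr 1
        push_cast
        ring
      have e1 : ∀ y : ℝ, F d y = ((kron d M : ℂ) * (d : ℂ) ^ (-w)) * (P ψ (y * Complex.I) * (d : ℂ) ^ (θ * y * Complex.I) * LD d (1 / 2 + y * Complex.I) ^ k) := by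
        intro y
        rw [hF]
        unfold at1
        rw [if_pos hd]
        have e2 : (d : ℂ) ^ (-(w - θ * y * Complex.I)) = (d : ℂ) ^ (-w) * (d : ℂ) ^ (θ * y * Complex.I) := by
          rw [← Complex.cpow_add _ _ hdc]
          congr 1
          ring
        rw [e2]
        ring
      have i1 : Integrable (fun y : ℝ => P ψ (y * Complex.I) * (d : ℂ) ^ (θ * y * Complex.I) * LD d (1 / 2 + y * Complex.I) ^ k) := by
        have := (one_D h hd.1 hD1 k (θ * Real.log d)).1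
        simp_rw [e0]
        exact this
      rw [funext e1]
      refine ⟨i1.const_mul _, ?_⟩
      rw [integral_const_mul]
    · rw [if_neg hd]
      have e1 : F d = fun _ => 0 := by
        funext y
        rw [hF]
        unfold at1
        rw [if_neg hd, mul_zero]
      rw [e1]
      exact ⟨integrable_zero _ _ _, by simp⟩
  -- the integrable majorant
  have iw : Integrable fun y : ℝ => (1 + ‖y‖) ^ (-(2:ℝ)) := integrable_one_add_norm (by simp)
  have hFb : ∀ d y, ‖F d y‖ ≤ (CP * 52 ^ k * (d : ℝ) ^ (-(w.re - k))) * (1 + ‖y‖) ^ (-(2:ℝ)) := by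
    intro d y
    rw [hF, norm_mul]
    have h1 := hP (y * Complex.I) (by simp)
    have h2 : ‖(y * Complex.I : ℂ)‖ = |y| := by
      rw [norm_mul, Complex.norm_I, mul_one, Complex.norm_real, Real.norm_eq_abs]
    have h3 : (y * Complex.I : ℂ).re = 0 := by simp
    rw [h2, h3, mul_zero, Real.exp_zero, mul_one, pow_add, ← mul_assoc] at h1
    have hy : 0 < 1 + |y| := by positivity
    have h4 : ‖P ψ (y * Complex.I)‖ * (1 + |y|) ^ k ≤ CP * (1 + ‖y‖) ^ (-(2:ℝ)) := by
      rw [Real.rpow_neg (by positivity), Real.norm_eq_abs, ← div_eq_mul_inv, le_div_iff₀ (by positivity)]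
      have h5 : (1 + |y|) ^ (2:ℝ) = (1 + |y|) ^ 2 := by norm_cast
      rw [h5]
      exact h1
    calc ‖P ψ (y * Complex.I)‖ * ‖at1 k M (1 / 2 + y * Complex.I) (w - θ * y * Complex.I) d‖
        ≤ ‖P ψ (y * Complex.I)‖ * ((52 ^ k * (1 + |y|) ^ k) * (d : ℝ) ^ (-(w.re - k))) := by
          gcongr
          exact hat d y
      _ = (‖P ψ (y * Complex.I)‖ * (1 + |y|) ^ k) * (52 ^ k * (d : ℝ) ^ (-(w.re - k))) := by ring
      _ ≤ (CP * (1 + ‖y‖) ^ (-(2:ℝ))) * (52 ^ k * (d : ℝ) ^ (-(w.re - k))) := by gcongr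
      _ = _ := by ring
  obtain ⟨I2, hI2⟩ : ∃ I2 : ℝ, I2 = ∫ y : ℝ, (1 + ‖y‖) ^ (-(2:ℝ)) := ⟨_, rfl⟩
  have hint : ∀ d, ∫ y, ‖F d y‖ ≤ (CP * 52 ^ k * I2) * (d : ℝ) ^ (-(w.re - k)) := by
    intro d
    calc ∫ y, ‖F d y‖ ≤ ∫ y : ℝ, (CP * 52 ^ k * (d : ℝ) ^ (-(w.re - k))) * (1 + ‖y‖) ^ (-(2:ℝ)) :=
          integral_mono (hFAT d).1.norm (iw.const_mul _) (hFb d)
      _ = _ := by rw [integral_const_mul, ← hI2]; ring
  have hsn : Summable fun d => ∫ y, ‖F d y‖ :=
    Summable.of_nonneg_of_le (fun d => integral_nonneg fun _ => norm_nonneg _) hint (hds.mul_left _)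
  have hmain := hasSum_integral_of_summable_integral_norm (fun d => (hFAT d).1) hsn
  have hts : ∀ y : ℝ, ∑' d, F d y = P ψ (y * Complex.I) * ∑' d : ℕ, at1 k M (1 / 2 + y * Complex.I) (w - θ * y * Complex.I) d := by
    intro y
    simp_rw [hF]
    rw [tsum_mul_left]
  refine ⟨hsum, ?_, ?_⟩
  · have hb : ∀ y : ℝ, ‖P ψ (y * Complex.I) * ∑' d : ℕ, at1 k M (1 / 2 + y * Complex.I) (w - θ * y * Complex.I) d‖ ≤
        (∑' d : ℕ, CP * 52 ^ k * (d : ℝ) ^ (-(w.re - k))) * (1 + ‖y‖) ^ (-(2:ℝ)) := by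
      intro y
      rw [← hts y, ← tsum_mul_right]
      exact tsum_of_norm_bounded (((hds.mul_left (CP * 52 ^ k)).mul_right _).hasSum) fun d => hFb d y
    have hms : AEStronglyMeasurable (fun y : ℝ => P ψ (y * Complex.I) * ∑' d : ℕ, at1 k M (1 / 2 + y * Complex.I) (w - θ * y * Complex.I) d) := by
      have e : (fun y : ℝ => P ψ (y * Complex.I) * ∑' d : ℕ, at1 k M (1 / 2 + y * Complex.I) (w - θ * y * Complex.I) d) = fun y => ∑' d, F d y :=
        funext fun y => (hts y).symm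
      rw [e]
      refine aestronglyMeasurable_of_tendsto_ae Filter.atTop (f := fun (n : ℕ) (y : ℝ) => ∑ d ∈ range n, F d y) (fun n => ?_) ?_
      · have := Finset.aestronglyMeasurable_sum (range n) (fun d _ => (hFAT d).1.aestronglyMeasurable)
        refine this.congr (Filter.Eventually.of_forall fun y => ?_)
        simp
      · refine Filter.Eventually.of_forall fun y => ?_
        have hs : Summable fun d => F d y := by
          simp_rw [hF]
          exact (hsum y).mul_left _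
        exact hs.hasSum.tendsto_sum_nat
    exact (iw.const_mul _).mono' hms (Filter.Eventually.of_forall hb)
  · rw [← tsum_congr fun d => (hFAT d).2, hmain.tsum_eq]
    exact integral_congr_ae (Filter.Eventually.of_forall fun y => (hts y).symm)

end Pool.Agent.R313.QM
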